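import Pool.Agent.MP_b13154_gt.H69.Str

namespace Pool.Agent.MP_b13154_gt.H69

open Pool.Agent.MP_b13154_gt.H25 Subgroup

variable {R : Type} [AddCommGroup R] {G : Type} [Group G] {m : G}

namespace TD

variable (S : TD R m)

theorem can_val (φ : G →* Multiplicative ℤ) :
    val φ (S.j S.x) = - val φ (S.j S.a) ∧ val φ (S.j S.c) = val φ (S.j S.a) := by
  obtain ⟨φ0, h1, h2, h3⟩ := S.phi
  have key : ∀ g, val φ g = val φ (S.j S.a) * val φ0 g := by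
    let N : Subgroup G :=
      { carrier := {g | val φ g = val φ (S.j S.a) * val φ0 g}
        one_mem' := by simp
        mul_mem' := fun {a b} ha hb => by
          simp only [Set.mem_ofPred_eq, val_mul] at *
          rw [ha, hb]; ring
        inv_mem' := fun {a} ha => by
          simp only [Set.mem_ofPred_eq, val_inv] at *
          rw [ha]; ring }
    have hN : N.Normal := ⟨fun n hn g => by
      have hn : val φ n = val φ (S.j S.a) * val φ0 n := hn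
      show val φ _ = val φ (S.j S.a) * val φ0 _
      simp only [val_mul, val_inv]
      rw [hn]; ring⟩
    have ha : S.j S.a ∈ N := by
      show val φ _ = val φ (S.j S.a) * val φ0 _
      rw [h1, mul_one]
    have hm : m ∈ N := by
      rcases S.hm with e | e
      · exact e ▸ ha
      · exact N.inv_mem_iff.1 (e ▸ ha)
    have : normalClosure {m} ≤ N := normalClosure_le_normal (by simpa using hm)
    intro g
    exact this (S.normal ▸ mem_top g)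
  rw [key (S.j S.x), key (S.j S.c), h2, h3]
  constructor <;> ring

include S in
theorem can_phi : ∃ φ : G →* Multiplicative ℤ, val φ m = 1 ∨ val φ m = -1 := by
  obtain ⟨φ, h1, -⟩ := S.phi
  refine ⟨φ, ?_⟩
  rcases S.hm with e | e <;> rw [e] at h1
  · exact Or.inl h1
  · rw [val_inv] at h1; omega

theorem can_vals {φ : G →* Multiplicative ℤ} (hφ : val φ m = 1 ∨ val φ m = -1) :
    (val φ (S.j S.a) = 1 ∨ val φ (S.j S.a) = -1) ∧ val φ S.t1 = -2 * val φ (S.j S.a) ∧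
      val φ S.t2 = 2 * val φ (S.j S.a) := by
  obtain ⟨h1, h2⟩ := S.can_val φ
  refine ⟨?_, ?_, ?_⟩
  · rcases S.hm with e | e <;> rw [e]
    · exact hφ
    · rw [val_inv]; omega
  · simp only [t1, map_mul, map_inv, val_mul, val_inv, h1]; ring
  · simp only [t2, map_mul, map_inv, val_mul, val_inv, h1, h2]; ring

theorem can_t {φ : G →* Multiplicative ℤ} (hφ : val φ m = 1 ∨ val φ m = -1) :
    (val φ S.t1 = 2 ∨ val φ S.t1 = -2) ∧ (val φ S.t2 = 2 ∨ val φ S.t2 = -2) := by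
  have := S.can_vals hφ
  omega

theorem can_tne : S.t1 ≠ 1 ∧ S.t2 ≠ 1 := by
  obtain ⟨φ, hφ⟩ := S.can_phi
  obtain ⟨h1, h2⟩ := S.can_t hφ
  constructor <;> intro e
  · rw [e, val_one] at h1; omega
  · rw [e, val_one] at h2; omega

theorem can_C1 : S.C1 ≤ S.j.range := by
  rw [C1, PC, closure_le]
  rintro _ (rfl | rfl)
  exacts [⟨_, rfl⟩, ⟨_, S.ch.e1⟩]

theorem can_C2 : S.C2 ≤ S.j.range := by
  rw [C2, PC, closure_le]
  rintro _ (rfl | rfl)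
  exacts [⟨_, rfl⟩, ⟨_, S.ch.e2⟩]

theorem can_m : m ∈ S.j.range := by
  rcases S.hm with e | e
  · exact ⟨_, e⟩
  · exact ⟨S.a⁻¹, by rw [map_inv, e, inv_inv]⟩

theorem can_a (S' : TD R m) : S.j S.a ∈ S'.j.range := by
  rcases S.hm with e | e <;> rw [e]
  exacts [S'.can_m, inv_mem S'.can_m]

end TD

theorem can_comm {a b t x y : G} (h : Fig a b t) (hx : x ∈ PC a b t) (hy : y ∈ PC a b t) :
    Commute x y := by
  obtain ⟨i, k, rfl⟩ := mem_PC h hx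
  obtain ⟨i', k', rfl⟩ := mem_PC h hy
  have c := h.comm
  exact Commute.mul_left (Commute.mul_right ((Commute.refl t).zpow_zpow _ _) (c.zpow_zpow _ _))
    (Commute.mul_right (c.symm.zpow_zpow _ _) ((Commute.refl _).zpow_zpow _ _))

theorem can_tB {a b t : G} : t ∈ PB a b t := subset_closure (by simp)

/-- the link group lies in the complement of any piece conjugate into one of its pieces -/
theorem can_side (S : TD R m) {A' A0 : Subgroup G} {a' b' t' a0 b0 t0 : G}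
    (hp : Piece A' a' b' t') (ham : Am A' (PB a' b' t') (PC a' b' t'))
    {φ : G →* Multiplicative ℤ} (hφ : val φ m = 1 ∨ val φ m = -1)
    (ht : val φ t' = 2 ∨ val φ t' = -2) (ha : S.j S.a ∈ A') (hf : Fig a0 b0 t0)
    (h0 : Am A0 (PB a0 b0 t0) (PC a0 b0 t0)) (hA : S.j.range ≤ A0)
    (hin : Into (PB a' b' t') (PB a0 b0 t0)) : S.j.range ≤ A' := by
  obtain ⟨v1, v2⟩ := S.can_val φ
  obtain ⟨v3, -⟩ := S.can_vals hφ
  obtain ⟨v4, v5⟩ := S.can_t hφ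
  have odd : ∀ y, (val φ y = 1 ∨ val φ y = -1) → ∀ g, g⁻¹ * y * g ∉ PB a' b' t' := by
    intro y hy g hg
    have := piece_even hp.fig φ ht hg
    simp only [val_mul, val_inv] at this
    omega
  have ell : ∀ y, Mer (S.j S.a) y → ∃ g, g⁻¹ * y * g ∈ A' ∨ g⁻¹ * y * g ∈ PB a' b' t' := by
    intro y hy
    obtain ⟨g, rfl | rfl⟩ := hy.conj
    · exact ⟨g, Or.inl (by simpa [mul_assoc] using ha)⟩
    · exact ⟨g, Or.inl (by simpa [mul_assoc] using ha)⟩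
  have e1 : ∃ g, g⁻¹ * S.t1 * g ∈ A' ∨ g⁻¹ * S.t1 * g ∈ PB a' b' t' := by
    rcases piece_ell S.piece1 hp φ v4 ht with ⟨g, hg⟩ | ⟨g, hg⟩
    exacts [⟨g, Or.inl (hg _ can_tB)⟩, ⟨g, Or.inr (hg _ can_tB)⟩]
  have e2 : ∃ g, g⁻¹ * S.t2 * g ∈ A' ∨ g⁻¹ * S.t2 * g ∈ PB a' b' t' := by
    rcases piece_ell S.piece2 hp φ v5 ht with ⟨g, hg⟩ | ⟨g, hg⟩
    exacts [⟨g, Or.inl (hg _ can_tB)⟩, ⟨g, Or.inr (hg _ can_tB)⟩]
  have hx : S.j S.x ∈ A' := ham.serre (inv_mem ha) (odd _ (by rw [val_inv]; omega))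
    (ell _ (S.lk.mx.map S.j)) (by simpa [TD.t1] using e1)
  have hc : S.j S.c ∈ A' := ham.serre (inv_mem hx) (odd _ (by rw [val_inv]; omega))
    (ell _ (Or.inl (S.j.map_isConj S.mer_c))) (by simpa [TD.t2] using e2)
  have t1 : S.t1 ∈ A' := by
    rw [TD.t1, map_mul, map_inv]; exact mul_mem (inv_mem ha) hx
  have t2 : S.t2 ∈ A' := by
    rw [TD.t2, map_mul, map_inv]; exact mul_mem (inv_mem hx) hc
  have l1 : S.j S.l1 ∈ A' := ham.M2 S.can_tne.1 t1 (by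
    have : Commute S.t1 (S.j S.l1) := S.lk.c1.map S.j
    rwa [mul_assoc, this.eq, inv_mul_cancel_left])
  have l2 : S.j S.l2 ∈ A' := ham.M2 S.can_tne.2 t2 (by
    have : Commute S.t2 (S.j S.l2) := S.lk.c2.map S.j
    rwa [mul_assoc, this.eq, inv_mul_cancel_left])
  have hj := S.inj_mal.1
  rintro _ ⟨g, rfl⟩
  refine ham.absorb S.j hj S.ngen ?_ ?_ g
  · rintro _ (rfl | rfl | rfl)
    · exact ha
    · rw [w1, map_mul, map_pow]; exact mul_mem (pow_mem t1 _) l1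
    · rw [w2, map_mul, map_inv, map_pow]; exact mul_mem (inv_mem (pow_mem t2 _)) l2
  · intro g s1 s2 hs k1 k2
    obtain ⟨g0, hg0⟩ := hin
    have k1' := hg0 _ k1
    have k2' := hg0 _ k2
    have r : ∀ y : G, g0⁻¹ * (g⁻¹ * y * g) * g0 = (g * g0)⁻¹ * y * (g * g0) := fun y => by group
    rw [r] at k1' k2'
    obtain ⟨α, hα, hβ⟩ := h0.M3 (fun e => hs (hj (e.trans S.j.map_one.symm))) (hA ⟨_, rfl⟩) k1'
    have inC : ∀ s, (g * g0)⁻¹ * S.j s * (g * g0) ∈ PB a0 b0 t0 →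
        α⁻¹ * S.j s * α ∈ PC a0 b0 t0 := fun s hs => by
      refine h0.inter (mul_mem (mul_mem (inv_mem hα) (hA ⟨_, rfl⟩)) hα) ?_
      have := mul_mem (mul_mem hβ hs) (inv_mem hβ)
      convert this using 1
      group
    have := can_comm hf (inC _ k1') (inC _ k2')
    apply hj
    rw [map_mul, map_mul]
    have e := this.eq
    calc S.j s1 * S.j s2 = α * ((α⁻¹ * S.j s1 * α) * (α⁻¹ * S.j s2 * α)) * α⁻¹ := by group
      _ = _ := by rw [e]; group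

/-- alignment of the peripheral tori -/
theorem can_torus {A A1 A2 B1 B2 C1 C2 B C : Subgroup G} (h1 : Am A1 B1 C1) (h2 : Am A2 B2 C2)
    (hA1 : A ≤ A1) (hA2 : A ≤ A2) (hint : ∀ g ∈ A1, g ∈ A2 → g ∈ A) (hC1 : C1 ≤ A) (hC : C ≤ A)
    (hCB : C ≤ B) {t : G} (ht : t ∈ C) (ht1 : t ≠ 1) (hin : Into B B1) :
    ∃ g ∈ A, ∀ z ∈ C, g⁻¹ * z * g ∈ C1 := by
  obtain ⟨h, hh⟩ := hin
  obtain ⟨α, hα, hβ⟩ := h1.M3 ht1 (hA1 (hC ht)) (hh t (hCB ht))
  have key : ∀ z ∈ C, α⁻¹ * z * α ∈ C1 := fun z hz => by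
    refine h1.inter (mul_mem (mul_mem (inv_mem hα) (hA1 (hC hz))) hα) ?_
    have := mul_mem (mul_mem hβ (hh z (hCB hz))) (inv_mem hβ)
    convert this using 1
    group
  exact ⟨α, hint α hα (h2.M2 ht1 (hA2 (hC ht)) (hA2 (hC1 (key t ht)))), key⟩

/-- row CAN1: the link group is determined by the classes of the two pieces -/
theorem can_half (S S' : TD R m) (h1 : Into S.B1 S'.B1) (h1' : Into S'.B1 S.B1)
    (h2 : Into S.B2 S'.B2) (h2' : Into S'.B2 S.B2) : S.j.range ≤ S'.j.range ∧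
    (∃ g ∈ S'.j.range, ∀ z ∈ S.C1, g⁻¹ * z * g ∈ S'.C1) ∧
    ∃ g ∈ S'.j.range, ∀ z ∈ S.C2, g⁻¹ * z * g ∈ S'.C2 := by
  obtain ⟨φ, hφ⟩ := S.can_phi
  obtain ⟨v1, v2⟩ := S'.can_t hφ
  have k1 : S.j.range ≤ S'.A1 := can_side S S'.piece1 S'.am1 hφ v1
    (mem_sup_left (S.can_a S')) S.ch.f1 S.am1 le_sup_left h1'
  have k2 : S.j.range ≤ S'.A2 := can_side S S'.piece2 S'.am2 hφ v2
    (mem_sup_left (S.can_a S')) S.ch.f2 S.am2 le_sup_left h2'
  have k : S.j.range ≤ S'.j.range := fun g hg => S'.int (k1 hg) (k2 hg)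
  refine ⟨k, ?_, ?_⟩
  · exact can_torus S'.am1 S'.am2 le_sup_left le_sup_left (fun g a b => S'.int a b) S'.can_C1
      (S.can_C1.trans k) S.am1.cB (subset_closure (by simp)) S.can_tne.1 h1
  · exact can_torus S'.am2 S'.am1 le_sup_left le_sup_left (fun g a b => S'.int b a) S'.can_C2
      (S.can_C2.trans k) S.am2.cB (subset_closure (by simp)) S.can_tne.2 h2

section Slope

variable {K L K' L' : Type} [Group K] [Group L] [Group K'] [Group L'] {mK : K} {mK' : K'}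
  {s s' : ℕ} {a x c l1 l2 : L} {a' x' c' l1' l2' : L'} {R' : Type} [AddCommGroup R']
  {χ : L →* ℤˣ} {d : L → R'}

theorem can_mer {m y : L} (h : Mer m y) : χ y = χ m := by
  obtain ⟨g, rfl | rfl⟩ := h.conj <;> rcases Int.units_eq_one_or (χ g) with e | e <;> simp [e]

theorem can_w1 (hd : Der χ d) (ht : χ (a⁻¹ * x) = 1) (h1 : χ l1 = 1) :
    χ (w1 s a x l1) = 1 ∧ d (w1 s a x l1) = (s : ℤ) • d (a⁻¹ * x) + d l1 := by
  have e : χ ((a⁻¹ * x) ^ s) = 1 := by rw [map_pow, ht, one_pow]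
  refine ⟨by rw [w1, map_mul, e, h1, one_mul], ?_⟩
  rw [w1, hd, e, ← zpow_natCast, hd.zpow ht]
  simp

theorem can_w2 (hd : Der χ d) (ht : χ (x⁻¹ * c) = 1) (h1 : χ l2 = 1) :
    χ (w2 s x c l2) = 1 ∧ d (w2 s x c l2) = -((s : ℤ) • d (x⁻¹ * c)) + d l2 := by
  have e : χ ((x⁻¹ * c) ^ s) = 1 := by rw [map_pow, ht, one_pow]
  refine ⟨by rw [w2, map_mul, map_inv, e, h1, inv_one, one_mul], ?_⟩
  rw [w2, hd, hd.inv, map_inv, e, ← zpow_natCast, hd.zpow ht]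
  simp

theorem LK.conj_c (h : LK R mK s a x c l1 l2) : IsConj a c :=
  isConj_iff.2 ⟨(w2 s x c l2)⁻¹ * w1 s a x l1, by
    have := h.rel
    calc _ = (w2 s x c l2)⁻¹ * (w1 s a x l1 * a * (w1 s a x l1)⁻¹) * w2 s x c l2 := by group
      _ = _ := by rw [this]; group⟩

theorem LK.signs (h : LK R mK s a x c l1 l2) (ha : χ a = -1) :
    χ x = -1 ∧ χ c = -1 ∧ χ (a⁻¹ * x) = 1 ∧ χ (x⁻¹ * c) = 1 := by
  have h1 : χ x = -1 := (can_mer h.mx).trans ha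
  have h2 : χ c = -1 := (can_mer (Or.inl h.conj_c.symm)).trans ha
  simp [h1, h2, ha]

/-- the relation (R) -/
theorem LK.relR (h : LK R mK s a x c l1 l2) (hd : Der χ d) (ha : χ a = -1) (h1 : χ l1 = 1)
    (h2 : χ l2 = 1) : (2 * s + 1 : ℤ) • (d (a⁻¹ * x) + d (x⁻¹ * c)) +
      (2 : ℤ) • (d l1 - d l2) = 0 := by
  obtain ⟨hx, hc, t1, t2⟩ := h.signs ha
  obtain ⟨e1, e2⟩ := can_w1 (s := s) hd t1 h1
  obtain ⟨e3, e4⟩ := can_w2 (s := s) hd t2 h2
  have k := congrArg d h.rel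
  rw [hd.conj_odd ha e1, hd.conj_odd hc e3, e2, e4] at k
  have k1 := hd (a⁻¹ * x) (x⁻¹ * c)
  rw [t1, show a⁻¹ * x * (x⁻¹ * c) = a⁻¹ * c by group, hd, hd.inv, map_inv, ha] at k1
  simp only [Units.val_one, one_smul, inv_neg, inv_one, Units.val_neg, neg_smul, neg_neg] at k1
  linear_combination (norm := module) k - k1

theorem can_xi (hd : Der χ d) (ha : χ a = -1) (hx : χ x = -1) (h0 : d a = 0) (h1 : d c = 0) :
    d (a⁻¹ * x) = - d x ∧ d (x⁻¹ * c) = d x := by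
  constructor
  · rw [hd, hd.inv, map_inv, ha, h0]; simp
  · rw [hd, hd.inv, hx, h1]; simp

theorem can_pull (hd : Der χ d) {t y γ : L} {k : ℤ} (ht : χ t = 1) (e : γ⁻¹ * y * γ = t ^ k) :
    χ y = 1 ∧ d y = (χ γ : ℤ) • k • d t := by
  obtain rfl : y = γ * t ^ k * γ⁻¹ := by rw [← e]; group
  have : χ (t ^ k) = 1 := by rw [map_zpow, ht, one_zpow]
  exact ⟨by simp [ht], by rw [hd.conj this, hd.zpow ht]⟩

theorem can_core (h : LK R mK s a x c l1 l2) (h' : LK R mK' s' a' x' c' l1' l2') (hk : Kn mK)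
    (hn : normalClosure {a, w1 s a x l1, w2 s x c l2} = ⊤) (θ : L ≃* L') {σ k1 k2 : ℤ}
    (hσ : σ = 1 ∨ σ = -1) (hk1 : k1 = 1 ∨ k1 = -1) (hk2 : k2 = 1 ∨ k2 = -1) (ea : θ a = a' ^ σ)
    {γ1 γ2 : L'} (e1 : γ1⁻¹ * θ (a⁻¹ * x) * γ1 = (a'⁻¹ * x') ^ σ)
    (f1 : γ1⁻¹ * θ l1 * γ1 = l1' ^ k1) (e2 : γ2⁻¹ * θ (x⁻¹ * c) * γ2 = (x'⁻¹ * c') ^ σ)
    (f2 : γ2⁻¹ * θ l2 * γ2 = l2' ^ k2) : s = s' ∧ k1 = σ ∧ k2 = σ := by
  obtain ⟨χ, ξ, -, a1, a2, a3, a4, a5, a6, a7, a8, a9, -⟩ := h.xi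
  obtain ⟨χ', ξ', -, b1, b2, b3, b4, b5, b6, b7, b8, b9, -⟩ := h'.xi
  obtain ⟨hx, -, t1, t2⟩ := h.signs a1
  obtain ⟨hx', -, t1', t2'⟩ := h'.signs b1
  obtain ⟨x1, x2⟩ := can_xi a4 a1 hx a5 a6
  obtain ⟨y1, y2⟩ := can_xi b4 b1 hx' b5 b6
  obtain ⟨p1, q1⟩ := can_pull b4 t1' e1
  obtain ⟨p2, q2⟩ := can_pull b4 t2' e2
  obtain ⟨p3, q3⟩ := can_pull b4 b2 f1
  obtain ⟨p4, q4⟩ := can_pull b4 b3 f2
  have ca : χ' (θ a) = -1 := by
    rw [ea]; rcases hσ with rfl | rfl <;> simp [b1]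
  have da : ξ' (θ a) = 0 := by
    rw [ea]; rcases hσ with rfl | rfl
    · simpa using b5
    · rw [zpow_neg_one, b4.inv, b5]; simp
  have hχ : ∀ g, χ' (θ g) = χ g := by
    have : normalClosure {a, w1 s a x l1, w2 s x c l2} ≤ ((χ'.comp θ.toMonoidHom) / χ).ker := by
      refine normalClosure_le_normal ?_
      rintro _ (rfl | rfl | rfl)
      · simp [ca, a1]
      · have e : χ' (θ (w1 s a x l1)) = 1 := by
          rw [w1, map_mul, map_pow, map_mul, map_pow, p1, p3]; simp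
        simp [e, (can_w1 (s := s) a4 t1 a2).1]
      · have e : χ' (θ (w2 s x c l2)) = 1 := by
          rw [w2, map_mul, map_inv, map_pow, map_mul, map_inv, map_pow, p2, p4]; simp
        simp [e, (can_w2 (s := s) a4 t2 a3).1]
    intro g
    have := this (hn ▸ mem_top g)
    simpa [div_eq_one] using this
  have hd : Der χ fun g => ξ' (θ g) := fun g k => by
    simp only [map_mul]
    rw [b4, hχ]
  have R := h.relR hd a1 a2 a3
  simp only [q1, q2, q3, q4, y1, y2, b7, b8, b9, smul_eq_mul] at R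
  have key : ∀ u v : ℤ, u * ((s : ℤ) * ξ' (θ (a⁻¹ * x)) + ξ' (θ l1)) + v * (-1) = 0 →
      u * (-((s : ℤ) * ξ' (θ (x⁻¹ * c))) + ξ' (θ l2)) + v * (-1) = 0 →
      u * ξ' (θ (a⁻¹ * x)) + v * 2 = 0 := by
    intro u v k1 k2
    obtain ⟨π, hπ, hker, hπa, -⟩ := h.pi
    have hd' : Der χ fun g => u * ξ' (θ g) + v * ξ g := fun g k => by
      have := hd g k
      simp only at this ⊢
      rw [this, a4]
      simp only [smul_eq_mul]; ring
    obtain ⟨c1, c2⟩ := can_w1 (s := s) hd' t1 a2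
    obtain ⟨c3, c4⟩ := can_w2 (s := s) hd' t2 a3
    obtain ⟨χ0, d0, hd0, z1, z2⟩ := hd'.descend hπ hker (by
      rintro _ (rfl | rfl)
      · refine ⟨c1, c2.trans ?_⟩
        simp only [x1, a7, a8, smul_eq_mul]
        linear_combination k1
      · refine ⟨c3, c4.trans ?_⟩
        simp only [x2, a7, a9, smul_eq_mul]
        linear_combination k2)
    obtain ⟨r, hr, hr'⟩ := der_exp hk (χ := χ0) (by rw [← hπa, z1, a1]) ℤ
    have := hr' d0 hd0 (by rw [← hπa, z2]; simp [da, a5]) (π (a⁻¹ * x))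
    rw [z2, x1, a7, smul_eq_mul] at this
    have r0 : r ≠ 0 := by rintro rfl; simp at hr
    simpa using (mul_eq_zero.1 this).resolve_left r0
  have key' := key (σ * (χ' γ1 : ℤ)) (2 * s - σ * k1 * (2 * s' + 1))
  simp only [q1, q2, q3, q4, y1, y2, b7, b8, b9, smul_eq_mul] at key'
  rcases Int.units_eq_one_or (χ' γ1) with u1 | u1 <;>
    rcases Int.units_eq_one_or (χ' γ2) with u2 | u2 <;>
    rcases hσ with rfl | rfl <;> rcases hk1 with rfl | rfl <;> rcases hk2 with rfl | rfl <;>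
    simp only [u1, u2, Units.val_one, Units.val_neg] at R key' <;>
    omega

theorem can_iso (h : LK R mK s a x c l1 l2) (h' : LK R mK' s a' x' c' l1' l2') (θ : L ≃* L')
    {σ : ℤ} (hσ : σ = 1 ∨ σ = -1) (ea : θ a = a' ^ σ)
    {γ1 γ2 : L'} (e1 : γ1⁻¹ * θ (a⁻¹ * x) * γ1 = (a'⁻¹ * x') ^ σ)
    (f1 : γ1⁻¹ * θ l1 * γ1 = l1' ^ σ) (e2 : γ2⁻¹ * θ (x⁻¹ * c) * γ2 = (x'⁻¹ * c') ^ σ)
    (f2 : γ2⁻¹ * θ l2 * γ2 = l2' ^ σ) : MIso mK mK' := by
  obtain ⟨π, hπ, hk, ha, -⟩ := h.pi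
  obtain ⟨π', hπ', hk', ha', -⟩ := h'.pi
  have g1 : θ (w1 s a x l1) = γ1 * w1 s a' x' l1' ^ σ * γ1⁻¹ := by
    have e : θ (a⁻¹ * x) = γ1 * (a'⁻¹ * x') ^ σ * γ1⁻¹ := by rw [← e1]; group
    have f : θ l1 = γ1 * l1' ^ σ * γ1⁻¹ := by rw [← f1]; group
    rw [w1, w1, map_mul, map_pow, e, f, conj_pow, (h'.c1.pow_left s).mul_zpow,
      ← zpow_natCast, ← zpow_natCast, zpow_comm]
    group
  have g2 : θ (w2 s x c l2) = γ2 * w2 s x' c' l2' ^ σ * γ2⁻¹ := by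
    have e : θ (x⁻¹ * c) = γ2 * (x'⁻¹ * c') ^ σ * γ2⁻¹ := by rw [← e2]; group
    have f : θ l2 = γ2 * l2' ^ σ * γ2⁻¹ := by rw [← f2]; group
    rw [w2, w2, map_mul, map_inv, map_pow, e, f, conj_pow, (h'.c2.pow_left s).inv_left.mul_zpow,
      inv_zpow, ← zpow_natCast, ← zpow_natCast, zpow_comm]
    group
  have m1 : π (w1 s a x l1) = 1 := (MonoidHom.mem_ker).1 (hk ▸ subset_normalClosure (by simp))
  have m2 : π (w2 s x c l2) = 1 := (MonoidHom.mem_ker).1 (hk ▸ subset_normalClosure (by simp))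
  have m1' : π' (w1 s a' x' l1') = 1 :=
    (MonoidHom.mem_ker).1 (hk' ▸ subset_normalClosure (by simp))
  have m2' : π' (w2 s x' c' l2') = 1 :=
    (MonoidHom.mem_ker).1 (hk' ▸ subset_normalClosure (by simp))
  have back : ∀ (w : L) (w' γ : L'), θ w = γ * w' ^ σ * γ⁻¹ → π w = 1 → π (θ.symm w') = 1 := by
    intro w w' γ e e'
    have : π (θ.symm (w' ^ σ)) = 1 := by
      rw [show w' ^ σ = γ⁻¹ * θ w * γ by rw [e]; group]
      simp [e']
    rcases hσ with rfl | rfl <;> simpa using this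
  obtain ⟨u, hu⟩ := descend hπ hk (π'.comp θ.toMonoidHom) (by simp [g1, m1']) (by simp [g2, m2'])
  obtain ⟨v, hv⟩ := descend hπ' hk' (π.comp θ.symm.toMonoidHom) (back _ _ _ g1 m1)
    (back _ _ _ g2 m2)
  let e : K ≃* K' := MonoidHom.toMulEquiv u v
    (MonoidHom.ext fun g => by obtain ⟨g, rfl⟩ := hπ g; simp [hu, hv])
    (MonoidHom.ext fun g => by obtain ⟨g, rfl⟩ := hπ' g; simp [hu, hv])
  refine ⟨e, ?_⟩
  have : e mK = mK' ^ σ := by
    show u mK = _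
    rw [← ha, hu, ← ha', ← map_zpow, ← ea]; rfl
  rw [this]
  rcases hσ with rfl | rfl
  · simpa using Mer.rfl' mK'
  · simpa using (Mer.rfl' mK').inv

end Slope

/-- alignment of one torus, in the link group -/
theorem can_align {L L' : Type} [Group L] [Group L'] {j : L →* G} {j' : L' →* G}
    (hj' : Function.Injective j') (θ : L ≃* L') (hθ : ∀ g, j' (θ g) = j g) {t l : L} {t' l' : L'}
    {a b a' b' : G} (hf' : Fig a' b' (j' t')) (el : j l = b * a * b⁻¹ * a⁻¹)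
    (el' : j' l' = b' * a' * b'⁻¹ * a'⁻¹) (φ : G →* Multiplicative ℤ) {σ : ℤ}
    (hσ : σ = 1 ∨ σ = -1) (v : val φ (j t) = σ * val φ (j' t')) (v0 : val φ (j' t') ≠ 0)
    (ψ : L' →* Multiplicative ℤ) (p1 : val ψ (θ t) = 0) (p2 : val ψ t' = 0) (p3 : val ψ l' = 1)
    (h : ∃ g ∈ j'.range, ∀ z ∈ PC a b (j t), g⁻¹ * z * g ∈ PC a' b' (j' t'))
    (h' : ∃ g ∈ j.range, ∀ z ∈ PC a' b' (j' t'), g⁻¹ * z * g ∈ PC a b (j t))
    (hf : Fig a b (j t)) :
    ∃ (γ : L') (k : ℤ), (k = 1 ∨ k = -1) ∧ γ⁻¹ * θ t * γ = t' ^ σ ∧ γ⁻¹ * θ l * γ = l' ^ k := by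
  obtain ⟨_, ⟨γ, rfl⟩, h⟩ := h
  obtain ⟨_, ⟨δ, rfl⟩, h'⟩ := h'
  have vl : val φ (j l) = 0 := by rw [el]; simp only [val_mul, val_inv]; ring
  have vl' : val φ (j' l') = 0 := by rw [el']; simp only [val_mul, val_inv]; ring
  obtain ⟨i, k, e⟩ := mem_PC hf' (h (j t) (subset_closure (by simp)))
  obtain ⟨i1, k1, e1⟩ := mem_PC hf' (h (j l) (subset_closure (by simp [el])))
  obtain ⟨i2, k2, e2⟩ := mem_PC hf (h' (j' l') (subset_closure (by simp [el'])))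
  rw [← el'] at e e1
  rw [← el] at e2
  have n := congrArg (val φ) e
  have n1 := congrArg (val φ) e1
  have n2 := congrArg (val φ) e2
  simp only [val_mul, val_inv, val_zpow, vl, vl', v] at n n1 n2
  obtain rfl : i = σ := mul_right_cancel₀ v0 (by linear_combination -n)
  obtain rfl : i1 = 0 := mul_right_cancel₀ v0 (by linear_combination -n1)
  obtain rfl : i2 = 0 := by
    have : i2 * i = 0 := mul_right_cancel₀ v0 (by linear_combination -n2)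
    rcases hσ with rfl | rfl <;> simpa using this
  have E : γ⁻¹ * θ t * γ = t' ^ i * l' ^ k := hj' (by simpa [hθ] using e)
  have E1 : γ⁻¹ * θ l * γ = l' ^ k1 := hj' (by simpa [hθ] using e1)
  have E2 : (θ δ)⁻¹ * l' * θ δ = θ l ^ k2 := hj' (by simpa [hθ] using e2)
  have m := congrArg (val ψ) E
  have m1 := congrArg (val ψ) E1
  have m2 := congrArg (val ψ) E2
  simp only [val_mul, val_inv, val_zpow, p1, p2, p3] at m m1 m2
  obtain rfl : k = 0 := by omega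
  have : k1 * k2 = 1 := by
    have : val ψ (θ l) = k1 := by omega
    rw [this] at m2
    linear_combination -m2
  exact ⟨γ, k1, Int.eq_one_or_neg_one_of_mul_eq_one this, by simpa using E, E1⟩

/-- row CAN2: the slopes are determined by the link group with its two tori -/
theorem can_slope (S S' : TD R m) (hA : S.j.range = S'.j.range)
    (h1 : ∃ g ∈ S'.j.range, ∀ z ∈ S.C1, g⁻¹ * z * g ∈ S'.C1)
    (h2 : ∃ g ∈ S'.j.range, ∀ z ∈ S.C2, g⁻¹ * z * g ∈ S'.C2)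
    (h1' : ∃ g ∈ S.j.range, ∀ z ∈ S'.C1, g⁻¹ * z * g ∈ S.C1)
    (h2' : ∃ g ∈ S.j.range, ∀ z ∈ S'.C2, g⁻¹ * z * g ∈ S.C2) :
    S.s = S'.s ∧ MIso S.mK S'.mK := by
  have hj := S.inj_mal.1
  have hj' := S'.inj_mal.1
  let θ : S.L ≃* S'.L := (MonoidHom.ofInjective hj).trans
    ((MulEquiv.subgroupCongr hA).trans (MonoidHom.ofInjective hj').symm)
  have hθ : ∀ g, S'.j (θ g) = S.j g := fun g => by
    simp [θ, MonoidHom.apply_ofInjective_symm, MonoidHom.ofInjective_apply]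
  obtain ⟨σ, hσ, ea⟩ : ∃ σ : ℤ, (σ = 1 ∨ σ = -1) ∧ S.j S.a = S'.j S'.a ^ σ := by
    rcases S.hm with e | e <;> rcases S'.hm with e' | e' <;> rw [e, e']
    exacts [⟨1, Or.inl rfl, by simp⟩, ⟨-1, Or.inr rfl, by simp⟩, ⟨-1, Or.inr rfl, by simp⟩,
      ⟨1, Or.inl rfl, by simp⟩]
  have ea' : θ S.a = S'.a ^ σ := hj' (by rw [hθ, ea, map_zpow])
  obtain ⟨φ, hφ⟩ := S.can_phi
  obtain ⟨v1, v2, v3⟩ := S.can_vals hφ
  obtain ⟨v1', v2', v3'⟩ := S'.can_vals hφ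
  have va : val φ (S.j S.a) = σ * val φ (S'.j S'.a) := by rw [ea, val_zpow]
  obtain ⟨ψ1, ψ2, p1, p2, -, p4, -, p6⟩ := S'.lk.psi
  have z : ∀ ψ : S'.L →* Multiplicative ℤ, val ψ S'.a = 0 →
      (∀ y, Mer S'.a y → val ψ y = 0) ∧ ∀ y, Mer S.a y → val ψ (θ y) = 0 := fun ψ h0 =>
    ⟨fun y hy => by have := hy.val_eq ψ; omega, fun y hy => by
      have := (hy.map θ.toMonoidHom).val_eq ψ
      have e : val ψ (θ S.a) = 0 := by rw [ea', val_zpow, h0, mul_zero]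
      simp only [MulEquiv.toMonoidHom_eq_coe, MonoidHom.coe_coe] at this
      omega⟩
  obtain ⟨z1, z2⟩ := z ψ1 p1
  obtain ⟨z3, z4⟩ := z ψ2 p4
  obtain ⟨γ1, k1, hk1, e1, f1⟩ := can_align hj' θ hθ S'.ch.f1 S.ch.e1 S'.ch.e1 φ hσ
    (by change val φ S.t1 = σ * val φ S'.t1; rw [v2, v2', va]; ring)
    (by change val φ S'.t1 ≠ 0; omega) ψ1
    (by rw [map_mul, map_inv, val_mul, val_inv, z2 _ (Mer.rfl' _), z2 _ S.lk.mx]; rfl)
    (by rw [val_mul, val_inv, p1, z1 _ S'.lk.mx]; rfl) p2 h1 h1' S.ch.f1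
  obtain ⟨γ2, k2, hk2, e2, f2⟩ := can_align hj' θ hθ S'.ch.f2 S.ch.e2 S'.ch.e2 φ hσ
    (by change val φ S.t2 = σ * val φ S'.t2; rw [v3, v3', va]; ring)
    (by change val φ S'.t2 ≠ 0; omega) ψ2
    (by rw [map_mul, map_inv, val_mul, val_inv, z4 _ (Or.inl S.mer_c), z4 _ S.lk.mx]; rfl)
    (by rw [val_mul, val_inv, z3 _ (Or.inl S'.mer_c), z3 _ S'.lk.mx]; rfl) p6 h2 h2' S.ch.f2
  obtain ⟨es, rfl, rfl⟩ := can_core S.lk S'.lk S.kn S.ngen θ hσ hk1 hk2 ea' e1 f1 e2 f2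
  exact ⟨es, can_iso S.lk (es ▸ S'.lk) θ hσ ea' e1 f1 e2 f2⟩

theorem canon (S S' : TD R m) (h1 : Into S.B1 S'.B1) (h1' : Into S'.B1 S.B1)
    (h2 : Into S.B2 S'.B2) (h2' : Into S'.B2 S.B2) : S.s = S'.s ∧ MIso S.mK S'.mK := by
  obtain ⟨a1, a2, a3⟩ := can_half S S' h1 h1' h2 h2'
  obtain ⟨b1, b2, b3⟩ := can_half S' S h1' h1 h2' h2
  exact can_slope S S' (le_antisymm a1 b1) a2 a3 b2 b3

end Pool.Agent.MP_b13154_gt.H69
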