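import Pool.Agent.MP_b13154_gt.H69.Defs

namespace Pool.Agent.MP_b13154_gt.H69

open Pool.Agent.MP_b13154_gt.H25 Subgroup

variable {n : ℕ}

section

variable {H : Type} [Group H]

theorem child_symm {s o : Bool} {b a b' a' : H} (h : Cr s o b a b' a') : Cr s o b' a' b a := by
  cases s <;> cases o <;> obtain ⟨rfl, rfl⟩ := h <;> constructor <;> group

/-- one half twist -/
def childTw : Bool → H × H → H × H
  | true, z => (z.1⁻¹ * z.2⁻¹ * z.1, z.1⁻¹)
  | false, z => (z.2⁻¹, z.2⁻¹ * z.1⁻¹ * z.2)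

theorem child_tw_iff {k : Bool} {u u' v v' : H} :
    Cr false k u u' v' v ↔ (u', v') = childTw k (u, v) := by
  cases k <;> simp only [Cr, childTw, Prod.mk.injEq]
  · exact ⟨fun ⟨h1, h2⟩ => by subst h1 h2; constructor <;> group,
      fun ⟨h1, h2⟩ => by subst h1 h2; constructor <;> group⟩
  · exact ⟨fun ⟨h1, h2⟩ => by subst h1 h2; constructor <;> group,
      fun ⟨h1, h2⟩ => by subst h1 h2; constructor <;> group⟩

/-- the conjugator of `s` full twists -/
def childW : Bool → ℕ → H → H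
  | true, s, t => t ^ s
  | false, s, t => (t ^ s)⁻¹

theorem child_tw_iter (k : Bool) (u v : H) (s : ℕ) : (childTw k)^[2 * s] (u, v) =
    (childW k s (u⁻¹ * v) * u * (childW k s (u⁻¹ * v))⁻¹,
      childW k s (u⁻¹ * v) * v * (childW k s (u⁻¹ * v))⁻¹) := by
  obtain ⟨t, rfl⟩ : ∃ t, v = u * t := ⟨u⁻¹ * v, by group⟩
  rw [inv_mul_cancel_left]
  induction s with
  | zero => cases k <;> simp [childW]
  | succ s ih =>
    rw [show 2 * (s + 1) = 2 * s + 1 + 1 by ring, Function.iterate_succ_apply',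
      Function.iterate_succ_apply', ih]
    cases k <;> simp only [childTw, childW, Prod.mk.injEq] <;> constructor <;> group

theorem child_tw_pred (k : Bool) (P : H → Prop) (hi : ∀ g, P g → P g⁻¹)
    (hc : ∀ g h, P g → P h → P (g⁻¹ * h * g)) {z : H × H} (h1 : P z.1) (h2 : P z.2) (i : ℕ) :
    P ((childTw k)^[i] z).1 ∧ P ((childTw k)^[i] z).2 := by
  induction i with
  | zero => exact ⟨h1, h2⟩
  | succ i ih =>
    rw [Function.iterate_succ_apply']
    cases k
    exacts [⟨hi _ ih.2, hc _ _ ih.2 (hi _ ih.1)⟩, ⟨hc _ _ ih.1 (hi _ ih.2), hi _ ih.1⟩]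

def childG (s i : ℕ) : ℕ := if i ≤ 16 then i else i + 4 * s

/-- colourings of one column: the doubled figure eight knot around `2 s` half twists -/
def ChildCol (k : Bool) (s : ℕ) (d : ℕ → H) : Prop :=
  TCol (fun i => d (childG s i)) ∧ ∀ i < 2 * s,
    Cr false k (d (16 + i)) (d (16 + i + 1)) (d (16 + (4 * s - i))) (d (16 + (4 * s - i) + 1))

def childA (s : ℕ) (d : ℕ → H) : H := aW fun i => d (childG s i)
def childB (s : ℕ) (d : ℕ → H) : H := bW fun i => d (childG s i)
def childL (s : ℕ) (d : ℕ → H) : H :=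
  childB s d * childA s d * (childB s d)⁻¹ * (childA s d)⁻¹

theorem child_it {k : Bool} {s : ℕ} {d : ℕ → H} (h : ChildCol k s d) : ∀ i ≤ 2 * s,
    (d (16 + i), d (17 + 4 * s - i)) = (childTw k)^[i] (d 16, d (17 + 4 * s)) := by
  intro i hi
  induction i with
  | zero => rfl
  | succ i ih =>
    rw [Function.iterate_succ_apply', ← ih (by omega), ← child_tw_iff,
      show 17 + 4 * s - (i + 1) = 16 + (4 * s - i) by omega,
      show 17 + 4 * s - i = 16 + (4 * s - i) + 1 by omega]
    exact h.2 i (by omega)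

theorem child_ana {k : Bool} {s : ℕ} {d : ℕ → H} (h : ChildCol k s d) :
    Fig (childA s d) (childB s d) ((d 0)⁻¹ * d (33 + 4 * s)) ∧
    d (16 + 2 * s) = (childW k s ((d 0)⁻¹ * d (33 + 4 * s)) * childL s d) * d 0 *
      (childW k s ((d 0)⁻¹ * d (33 + 4 * s)) * childL s d)⁻¹ ∧
    d (16 + 2 * s + 1) = (childW k s ((d 0)⁻¹ * d (33 + 4 * s)) * childL s d) * d (33 + 4 * s) *
      (childW k s ((d 0)⁻¹ * d (33 + 4 * s)) * childL s d)⁻¹ ∧
    (∀ S : Subgroup H, d 0 ∈ S → d (33 + 4 * s) ∈ S → childA s d ∈ S → childB s d ∈ S →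
      ∀ i ≤ 33 + 4 * s, d i ∈ S) ∧
    ∀ m, Mer m (d 0) → Mer m (d (33 + 4 * s)) → ∀ i ≤ 33 + 4 * s, Mer m (d i) := by
  obtain ⟨t1, t2, t3, t4, t5⟩ := tcol_ana h.1
  have g0 : childG s 0 = 0 := rfl
  have g1 : childG s 16 = 16 := rfl
  have g2 : childG s 17 = 17 + 4 * s := rfl
  have g3 : childG s 33 = 33 + 4 * s := rfl
  simp only [g0, g1, g2, g3] at t1 t2 t3 t4 t5
  change Fig (childA s d) (childB s d) _ at t1
  change _ = childL s d * _ * (childL s d)⁻¹ at t2 t3
  have e : (d 16)⁻¹ * d (17 + 4 * s) = (d 0)⁻¹ * d (33 + 4 * s) := by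
    have c : Commute ((d 0)⁻¹ * d (33 + 4 * s)) (childL s d) := t1.comm
    calc _ = childL s d * ((d 0)⁻¹ * d (33 + 4 * s)) * (childL s d)⁻¹ := by rw [t2, t3]; group
      _ = _ := by rw [← c.eq]; group
  have it := child_it h (2 * s) le_rfl
  rw [child_tw_iter, e, Prod.mk.injEq, show 17 + 4 * s - 2 * s = 16 + 2 * s + 1 by omega] at it
  have cov : ∀ P : H → Prop, (∀ g, P g → P g⁻¹) → (∀ g h, P g → P h → P (g⁻¹ * h * g)) →
      (∀ i < 34, P (d (childG s i))) → ∀ i ≤ 33 + 4 * s, P (d i) := by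
    intro P hi hc hP i hi'
    have q := fun i (hi2 : i ≤ 2 * s) => child_it h i hi2 ▸ child_tw_pred k P hi hc
      (z := (d 16, d (17 + 4 * s))) (hP 16 (by omega)) (hP 17 (by omega)) i
    by_cases p1 : i ≤ 16
    · have := hP i (by omega)
      rwa [childG, if_pos p1] at this
    by_cases p2 : i ≤ 16 + 2 * s
    · have := (q (i - 16) (by omega)).1
      rwa [show 16 + (i - 16) = i by omega] at this
    by_cases p3 : i ≤ 17 + 4 * s
    · have := (q (17 + 4 * s - i) (by omega)).2
      rwa [show 17 + 4 * s - (17 + 4 * s - i) = i by omega] at this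
    · have := hP (i - 4 * s) (by omega)
      rwa [childG, if_neg (by omega), show i - 4 * s + 4 * s = i by omega] at this
  refine ⟨t1, ?_, ?_, fun S h1 h2 h3 h4 => cov (· ∈ S) (fun _ => S.inv_mem)
    (fun _ _ p q => S.mul_mem (S.mul_mem (S.inv_mem p) q) p) (t4 S h1 h2 h3 h4),
    fun m h1 h2 => cov (Mer m) (fun _ => Mer.inv) (fun _ _ _ q => q.cj' _) (t5 m h1 h2)⟩
  · rw [it.1, t2]; group
  · rw [it.2, t3]; group

theorem child_congr {k : Bool} {s : ℕ} {d d' : ℕ → H} (h : ChildCol k s d)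
    (e : ∀ i ≤ 33 + 4 * s, d' i = d i) :
    ChildCol k s d' ∧ childA s d' = childA s d ∧ childB s d' = childB s d := by
  have e2 : ∀ i < 34, d' (childG s i) = d (childG s i) := fun i hi =>
    e _ (by simp only [childG]; split_ifs <;> omega)
  refine ⟨⟨fun r hr => ?_, fun i hi => ?_⟩, ?_, ?_⟩
  · have := (tT_facts r hr).1
    have k : ∀ r < 32, bT r < 34 ∧ bT r + 1 < 34 := by decide
    simp only [e2 _ (k r hr).1, e2 _ (k r hr).2, e2 _ (k _ this).1, e2 _ (k _ this).2]
    exact h.1 r hr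
  · rw [e _ (by omega), e _ (by omega), e _ (by omega), e _ (by omega)]
    exact h.2 i hi
  · simp only [childA, aW]
    rw [e2 0 (by omega), e2 33 (by omega), e2 9 (by omega), e2 22 (by omega)]
  · simp only [childB, bW]
    rw [e2 0 (by omega), e2 33 (by omega), e2 12 (by omega), e2 21 (by omega)]

theorem child_syn (k : Bool) (s : ℕ) {x y a b : H} (h : Fig a b (x⁻¹ * y)) :
    ∃ d : ℕ → H, ChildCol k s d ∧ d 0 = x ∧ d (33 + 4 * s) = y ∧ childA s d = a ∧
      childB s d = b := by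
  obtain ⟨C, c1, c2, c3, c4, c5⟩ := tcol_syn h
  let d : ℕ → H := fun i => if i ≤ 16 then C i else if i ≤ 16 + 2 * s then
    ((childTw k)^[i - 16] (C 16, C 17)).1 else if i ≤ 17 + 4 * s then
    ((childTw k)^[17 + 4 * s - i] (C 16, C 17)).2 else C (i - 4 * s)
  have e1 : (fun i => d (childG s i)) = C := by
    funext i
    simp only [d, childG]
    by_cases p1 : i ≤ 16
    · simp only [if_pos p1]
    · rw [if_neg p1, if_neg (by omega), if_neg (by omega)]
      by_cases p2 : i = 17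
      · subst p2
        rw [if_pos le_rfl, Nat.sub_self]
        rfl
      · rw [if_neg (by omega), Nat.add_sub_cancel]
  have e2 : ∀ i ≤ 2 * s, d (16 + i) = ((childTw k)^[i] (C 16, C 17)).1 := fun i hi => by
    simp only [d]
    rcases Nat.eq_zero_or_pos i with rfl | p
    · rw [if_pos le_rfl]; rfl
    · rw [if_neg (by omega), if_pos (by omega), Nat.add_sub_cancel_left]
  have e3 : ∀ i ≤ 2 * s, d (17 + 4 * s - i) = ((childTw k)^[i] (C 16, C 17)).2 := fun i hi => by
    simp only [d]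
    rw [if_neg (by omega), if_neg (by omega), if_pos (by omega),
      show 17 + 4 * s - (17 + 4 * s - i) = i by omega]
  refine ⟨d, ⟨e1 ▸ c1, fun i hi => ?_⟩, ?_, ?_, ?_, ?_⟩
  · rw [show 16 + (4 * s - i) + 1 = 17 + 4 * s - i by omega,
      show 16 + (4 * s - i) = 17 + 4 * s - (i + 1) by omega, add_assoc, e2 _ hi.le, e2 _ hi,
      e3 _ hi.le, e3 _ hi, child_tw_iff, Function.iterate_succ_apply']
  · exact (congrFun e1 0).trans (c2.trans (inv_inv x))
  · exact (congrFun e1 33).trans c3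
  · rw [childA, e1, c4]
  · rw [childB, e1, c5]

end

def childK (s j p : ℕ) : ℕ := if p < j then 66 + 8 * s + p else 68 + 8 * s + p
def childO (s : ℕ) : Bool → ℕ
  | true => 0
  | false => 33 + 4 * s
def childT (s j : ℕ) : Bool → Bool → ℕ
  | true, true => 16 + 2 * s
  | true, false => 66 + 8 * s + j + 1
  | false, true => 33 + 4 * s + (16 + 2 * s)
  | false, false => 66 + 8 * s + j

theorem child_D (K : Diag n) (j s : ℕ) (hj : j < 2 * n) (hs : ∀ p < j, K.s p = false) :
    ∃ D : Diag (n + 4 * s + 34), ∀ (H : Type) [Group H] (c : ℕ → H), D.LCol c ↔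
      Part K (childK s j) c ∧ ChildCol true s c ∧ ChildCol false s (fun i => c (33 + 4 * s + i)) ∧
      Cr true true (c (16 + 2 * s)) (c (16 + 2 * s + 1)) (c (66 + 8 * s + j + 1))
        (c (66 + 8 * s + j + 1 + 1)) ∧
      Cr true false (c (33 + 4 * s + (16 + 2 * s))) (c (33 + 4 * s + (16 + 2 * s) + 1))
        (c (66 + 8 * s + j)) (c (66 + 8 * s + j + 1)) := by
  obtain ⟨D, -, h⟩ := exists_D (n + 4 * s + 34) (α := ℕ ⊕ (Bool × ℕ) ⊕ (Bool × ℕ) ⊕ (Bool × Bool))
    (Sum.elim (· < 2 * n) (Sum.elim (·.2 < 32)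
      (Sum.elim (fun z => z.2 ≤ 4 * s ∧ z.2 ≠ 2 * s) fun _ => True)))
    (Sum.elim (childK s j) (Sum.elim (fun z => childO s z.1 + childG s (bT z.2))
      (Sum.elim (fun z => childO s z.1 + (16 + z.2)) fun z => childT s j z.1 z.2)))
    (Sum.map K.t (Sum.map (fun z => (z.1, tT z.2))
      (Sum.map (fun z => (z.1, 4 * s - z.2)) fun z => (z.1, !z.2))))
    (Sum.elim K.s (Sum.elim (fun z => sT z.2) (Sum.elim (fun _ => false) fun _ => true)))
    (Sum.elim K.o (Sum.elim (fun z => oT z.2) (Sum.elim (·.1) (·.1))))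
    (by
      rintro (y | ⟨_ | _, y⟩ | ⟨_ | _, y⟩ | ⟨_ | _, _ | _⟩)
        (z | ⟨_ | _, z⟩ | ⟨_ | _, z⟩ | ⟨_ | _, _ | _⟩) <;>
        simp only [Sum.elim_inl, Sum.elim_inr, childK, childO, childG, childT, bT, Sum.inl.injEq,
          Sum.inr.injEq, Prod.mk.injEq, reduceCtorEq, true_and, false_and, and_false,
          forall_const] <;>
        (try split_ifs) <;> omega)
    (by
      rintro (y | ⟨_ | _, y⟩ | ⟨_ | _, y⟩ | ⟨_ | _, _ | _⟩) <;>
        simp only [Sum.elim_inl, Sum.elim_inr, childK, childO, childG, childT, bT,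
          forall_const] <;>
        (try split_ifs) <;> omega)
    (fun P hP => by
      have col : ∀ k Q, Q < 33 + 4 * s → (∃ r < 32, childG s (bT r) = Q) ∨
          (∃ i, (i ≤ 4 * s ∧ i ≠ 2 * s) ∧ 16 + i = Q) ∨
          childT s j k true = childO s k + Q := fun k Q hQ => by
        by_cases h1 : Q < 16
        · exact Or.inl ⟨Q, by omega, by simp only [childG, bT]; split_ifs <;> omega⟩
        by_cases h2 : Q = 16 + 2 * s
        · exact Or.inr (Or.inr (by cases k <;> simp only [childT, childO] <;> omega))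
        by_cases h3 : Q ≤ 16 + 4 * s
        · exact Or.inr (Or.inl ⟨Q - 16, by omega, by omega⟩)
        · exact Or.inl ⟨Q - (4 * s + 1), by omega, by simp only [childG, bT]; split_ifs <;> omega⟩
      by_cases h1 : P < 66 + 8 * s
      · obtain ⟨k, Q, hQ, rfl⟩ : ∃ k Q, Q < 33 + 4 * s ∧ P = childO s k + Q := by
          by_cases h2 : P < 33 + 4 * s
          · exact ⟨true, P, h2, (zero_add _).symm⟩
          · exact ⟨false, P - (33 + 4 * s), by omega, by simp only [childO]; omega⟩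
        rcases col k Q hQ with ⟨r, hr, rfl⟩ | ⟨i, hi, rfl⟩ | e
        exacts [⟨.inr (.inl (k, r)), hr, rfl⟩, ⟨.inr (.inr (.inl (k, i))), hi, rfl⟩,
          ⟨.inr (.inr (.inr (k, true))), trivial, e⟩]
      by_cases h2 : P < 66 + 8 * s + j
      · exact ⟨.inl (P - (66 + 8 * s)), show _ < _ by omega,
          (if_pos (by omega)).trans (by omega)⟩
      by_cases h3 : P = 66 + 8 * s + j
      · exact ⟨.inr (.inr (.inr (false, false))), trivial, h3.symm⟩
      by_cases h4 : P = 66 + 8 * s + j + 1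
      · exact ⟨.inr (.inr (.inr (true, false))), trivial, h4.symm⟩
      · exact ⟨.inl (P - (68 + 8 * s)), show _ < _ by omega,
          (if_neg (by omega)).trans (by omega)⟩)
    (by
      rintro (y | y | y | y) hy
      exacts [K.t_lt hy, (tT_facts _ hy).1,
        show 4 * s - y.2 ≤ 4 * s ∧ 4 * s - y.2 ≠ 2 * s by
          have : y.2 ≤ 4 * s ∧ y.2 ≠ 2 * s := hy
          omega, trivial])
    (by
      rintro (y | ⟨k, y⟩ | ⟨k, y⟩ | ⟨k, y⟩) hy
      · simp [K.t_t hy, K.t_ne hy, K.s_t hy, K.o_t hy]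
      · simp [tT_facts y hy]
      · have : y ≤ 4 * s ∧ y ≠ 2 * s := hy
        simp only [Sum.map_inr, Sum.map_inl, Sum.elim_inr, Sum.elim_inl, Sum.inr.injEq,
          Sum.inl.injEq, Prod.mk.injEq, true_and, ne_eq, and_true]
        omega
      · simp)
    (by
      have k1 : ∀ y < 2 * n, K.s y = true → j ≤ y ∧ j ≤ K.t y := fun y hy h => by
        constructor <;> by_contra hc
        · rw [hs y (by omega)] at h; exact absurd h (by decide)
        · rw [← K.s_t hy, hs _ (by omega)] at h; exact absurd h (by decide)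
      have k2 : ∀ y < 32, sT y = true → (y < 16 ↔ tT y < 16) := fun y hy =>
        (tT_facts y hy).2.2.2.2.2
      have k3 : ∀ y < 32, tT y < 32 := fun y hy => (tT_facts y hy).1
      rintro (y | ⟨k, y⟩ | ⟨k, y⟩ | ⟨k, y⟩) (z | ⟨l, z⟩ | ⟨l, z⟩ | ⟨l, z⟩) hy hz h <;>
        simp only [Sum.elim_inl, Sum.elim_inr, Sum.map_inl, Sum.map_inr] at hy hz h ⊢
      · have := K.pl hy hz h
        simp only [childK]; split_ifs <;> omega
      · have := k3 z hz
        cases l <;> simp only [childK, childO, childG, bT] <;> split_ifs <;> omega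
      · cases l <;> simp only [childK, childO] <;> split_ifs <;> omega
      · have := k1 y hy h
        cases l <;> cases z <;> simp only [childK, childT, Bool.not_true, Bool.not_false] <;>
          split_ifs <;> omega
      · have := k3 y hy
        cases k <;> simp only [childK, childO, childG, bT] <;> split_ifs <;> omega
      · have := tT_pl y hy z hz h
        have := k3 y hy
        have := k3 z hz
        cases k <;> cases l <;> simp only [childO, childG, bT] <;> split_ifs <;> omega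
      · have := k3 y hy
        cases k <;> cases l <;> simp only [childO, childG, bT] <;> split_ifs <;> omega
      · have := k3 y hy
        have := k2 y hy h
        cases k <;> cases l <;> cases z <;>
          simp only [childO, childG, childT, bT, Bool.not_true, Bool.not_false] <;>
          split_ifs <;> omega
      · cases k <;> simp only [childK, childO] <;> split_ifs <;> omega
      · have := k3 z hz
        cases k <;> cases l <;> simp only [childO, childG, bT] <;> split_ifs <;> omega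
      · cases k <;> cases l <;> simp only [childO] <;> omega
      · exact absurd h (by decide)
      · have := k1 z hz h.symm
        cases k <;> cases y <;> simp only [childK, childT, Bool.not_true, Bool.not_false] <;>
          split_ifs <;> omega
      · have := k3 z hz
        have := k2 z hz h.symm
        cases k <;> cases l <;> cases y <;>
          simp only [childO, childG, childT, bT, Bool.not_true, Bool.not_false] <;>
          split_ifs <;> omega
      · exact absurd h (by decide)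
      · cases k <;> cases l <;> cases y <;> cases z <;>
          simp only [childT, Bool.not_true, Bool.not_false] <;> omega)
  refine ⟨D, fun H _ c => (h H c).trans ?_⟩
  have e : ∀ r, childG s (bT r) + 1 = childG s (bT r + 1) := fun r => by
    simp only [childG, bT]
    split_ifs <;> omega
  have tw : ∀ (k : Bool) (d : ℕ → H), (∀ i, i ≤ 4 * s ∧ i ≠ 2 * s → Cr false k (d (16 + i))
      (d (16 + i + 1)) (d (16 + (4 * s - i))) (d (16 + (4 * s - i) + 1))) ↔ ∀ i < 2 * s,
      Cr false k (d (16 + i)) (d (16 + i + 1)) (d (16 + (4 * s - i)))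
        (d (16 + (4 * s - i) + 1)) := fun k d =>
    ⟨fun q i hi => q i (by omega), fun q i hi => by
      by_cases p : i < 2 * s
      · exact q i p
      · have := child_symm (q (4 * s - i) (by omega))
        rwa [show 4 * s - (4 * s - i) = i by omega] at this⟩
  simp only [Sum.forall, Prod.forall, Bool.forall_bool, Sum.elim_inl, Sum.elim_inr, Sum.map_inl,
    Sum.map_inr, H25.Part, ChildCol, TCol, childO, childT, zero_add, forall_const, Bool.not_true,
    Bool.not_false, ← e]
  exact ⟨fun ⟨a, ⟨b, b'⟩, ⟨f, f'⟩, ⟨_, t⟩, _, t'⟩ => ⟨a, ⟨b', (tw _ c).1 f'⟩,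
      ⟨b, (tw _ fun i => c (33 + 4 * s + i)).1 f⟩, t', t⟩,
    fun ⟨a, ⟨b', f'⟩, ⟨b, f⟩, t', t⟩ => ⟨a, ⟨b, b'⟩,
      ⟨(tw _ fun i => c (33 + 4 * s + i)).2 f, (tw _ c).2 f'⟩, ⟨child_symm t, t⟩,
      child_symm t', t'⟩⟩

def childS (s j i : ℕ) : ℕ := if i ≤ j then 66 + 8 * s + i else 68 + 8 * s + i

theorem child_part {H : Type} [Group H] {K : Diag n} {j s : ℕ} {c e : ℕ → H} {β : H}
    (h : ∀ i ≤ 2 * n, c (childS s j i) = e i)
    (hβ : c (66 + 8 * s + j + 1 + 1) = β) :
    H25.Part K (childK s j) c ↔ ∀ p < 2 * n, Cr (K.s p) (K.o p) (if p = j then β else e p)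
      (e (p + 1)) (if K.t p = j then β else e (K.t p)) (e (K.t p + 1)) := by
  have k : ∀ p < 2 * n, c (childK s j p) = (if p = j then β else e p) ∧
      c (childK s j p + 1) = e (p + 1) := fun p hp => by
    constructor
    · split_ifs with q
      · rw [← hβ]; congr 1; simp only [childK]; split_ifs <;> omega
      · rw [← h p hp.le]; congr 1; simp only [childK, childS]; split_ifs <;> omega
    · rw [← h _ hp]; congr 1; simp only [childK, childS]; split_ifs <;> omega
  exact forall₂_congr fun p hp => by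
    rw [(k p hp).1, (k p hp).2, (k _ (K.t_lt hp)).1, (k _ (K.t_lt hp)).2]

/-- row CHILD: the diagram with the tangle `1/q + (-1/q)` and two doubled figure eight knots -/
theorem exists_child (K : Diag n) (j s : ℕ) (h0 : 0 < j) (hj : j < 2 * n)
    (hs : ∀ p < j, K.s p = false) : ∃ (D : Diag (n + 4 * s + 34)) (e : ℕ → D.grp)
    (β x a1 b1 a2 b2 : D.grp),
    ACol K j s e β x (b1 * a1 * b1⁻¹ * a1⁻¹) (b2 * a2 * b2⁻¹ * a2⁻¹) ∧
    Fig a1 b1 ((e (2 * n))⁻¹ * x) ∧ Fig a2 b2 (x⁻¹ * e 0) ∧ e (2 * n) = D.mer ∧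
    (∀ S : Subgroup D.grp, (∀ i ≤ 2 * n, e i ∈ S) → β ∈ S → x ∈ S → a1 ∈ S → b1 ∈ S → a2 ∈ S →
      b2 ∈ S → S = ⊤) ∧
    ((∀ i ≤ 2 * n, Mer D.mer (e i)) → Mer D.mer x → D.IsKnot) ∧
    ∀ (H : Type) [Group H] (e' : ℕ → H) (β' x' a1' b1' a2' b2' : H),
      ACol K j s e' β' x' (b1' * a1' * b1'⁻¹ * a1'⁻¹) (b2' * a2' * b2'⁻¹ * a2'⁻¹) →
      Fig a1' b1' ((e' (2 * n))⁻¹ * x') → Fig a2' b2' (x'⁻¹ * e' 0) →
      ∃ F : D.grp →* H, (∀ i ≤ 2 * n, F (e i) = e' i) ∧ F β = β' ∧ F x = x' ∧ F a1 = a1' ∧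
        F b1 = b1' ∧ F a2 = a2' ∧ F b2 = b2' := by
  obtain ⟨D, h⟩ := child_D K j s hj hs
  obtain ⟨pK, p1, p2, ⟨q1, q1'⟩, q2, q2'⟩ := (h _ _).1 D.x_lcol
  obtain ⟨u1, u2, u3, u4, u5⟩ := child_ana p1
  obtain ⟨v1, v2, v3, v4, v5⟩ := child_ana p2
  have g0 : D.x (childS s j (2 * n)) = D.x 0 := by
    rw [D.x_zero, ← D.x_close]; congr 1; simp only [childS]; split_ifs <;> omega
  have g1 : D.x (childS s j 0) = D.x (33 + 4 * s + (33 + 4 * s)) := by
    congr 1; simp only [childS]; split_ifs <;> omega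
  have g2 : childS s j j = 66 + 8 * s + j := if_pos le_rfl
  simp only [add_zero] at v1 v2 v3 v4 v5
  have cov : ∀ P : D.grp → Prop, (∀ g, P g → P g⁻¹) → (∀ i ≤ 33 + 4 * s, P (D.x i)) →
      (∀ i ≤ 33 + 4 * s, P (D.x (33 + 4 * s + i))) → (∀ i ≤ 2 * n, P (D.x (childS s j i))) →
      P (D.x (66 + 8 * s + j + 1 + 1)) → ∀ i ≤ 2 * (n + 4 * s + 34), P (D.x i) := by
    intro P hi a1 a2 a3 a4 i hi'
    by_cases r1 : i ≤ 33 + 4 * s
    · exact a1 i r1
    by_cases r2 : i ≤ 66 + 8 * s
    · have := a2 (i - (33 + 4 * s)) (by omega)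
      rwa [show 33 + 4 * s + (i - (33 + 4 * s)) = i by omega] at this
    by_cases r3 : i ≤ 66 + 8 * s + j
    · have := a3 (i - (66 + 8 * s)) (by omega)
      rwa [childS, if_pos (by omega), show 66 + 8 * s + (i - (66 + 8 * s)) = i by omega] at this
    by_cases r4 : i = 66 + 8 * s + j + 1
    · rw [r4, q1]; exact hi _ (a1 _ (by omega))
    by_cases r5 : i = 66 + 8 * s + j + 1 + 1
    · rwa [r5]
    · have := a3 (i - (68 + 8 * s)) (by omega)
      rwa [childS, if_neg (by omega), show 68 + 8 * s + (i - (68 + 8 * s)) = i by omega] at this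
  refine ⟨D, fun i => D.x (childS s j i), D.x (66 + 8 * s + j + 1 + 1), D.x (33 + 4 * s),
    childA s D.x, childB s D.x, childA s fun i => D.x (33 + 4 * s + i),
    childB s fun i => D.x (33 + 4 * s + i), ⟨(child_part (fun _ _ => rfl) rfl).1 pK, ?_, ?_,
      ?_, ?_, ?_⟩, ?_, ?_, g0.trans D.x_zero, fun S a1 a2 a3 a4 a5 a6 a7 => D.gen S ?_,
    fun a1 a2 => D.isKnot_iff.2 ?_, fun H _ e' β' x' a1' b1' a2' b2' hc f1 f2 => ?_⟩
  · simp only [g0]; exact u1.comm
  · simp only [g1]; exact v1.comm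
  · simp only [g0, g1]
    exact u2.symm.trans ((inv_injective (q1.symm.trans q2)).trans v3)
  · simp only [g0]
    rw [q1', u3, u2]
    simp only [w1, childW, childL]; group
  · simp only [g1, g2]
    rw [q2']
    change (D.x (33 + 4 * s + (16 + 2 * s + 1)))⁻¹ * _ * D.x (33 + 4 * s + (16 + 2 * s + 1)) = _
    rw [v3, v2]
    simp only [w2, childW, childL]; group
  · simp only [g0]; exact u1
  · simp only [g1]; exact v1
  · exact cov (· ∈ S) (fun _ => S.inv_mem) (u4 S (g0 ▸ a1 _ le_rfl) a3 a4 a5)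
      (v4 S a3 (g1 ▸ a1 0 (Nat.zero_le _)) a6 a7) a1 a2
  · have m1 := u5 D.mer (g0 ▸ a1 _ le_rfl) a2
    refine cov (Mer D.mer) (fun _ => Mer.inv) m1 (v5 _ a2 (g1 ▸ a1 0 (Nat.zero_le _))) a1 ?_
    rw [q1']
    exact (m1 _ (by omega)).inv.cj' _
  obtain ⟨d1, c1, c2, c3, c4, c5⟩ := child_syn true s f1
  obtain ⟨d2, k1, k2, k3, k4, k5⟩ := child_syn false s f2
  obtain ⟨-, c6, c7, -⟩ := child_ana c1
  obtain ⟨-, k6, k7, -⟩ := child_ana k1
  rw [c2, c3, childL, c4, c5] at c6
  rw [c2, c3, childL, c4, c5] at c7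
  rw [k2, k3, childL, k4, k5] at k6
  rw [k2, k3, childL, k4, k5] at k7
  let c : ℕ → H := fun i => if i ≤ 33 + 4 * s then d1 i else if i ≤ 66 + 8 * s then
    d2 (i - (33 + 4 * s)) else if i ≤ 66 + 8 * s + j then e' (i - (66 + 8 * s)) else
    if i = 66 + 8 * s + j + 1 then (d1 (16 + 2 * s))⁻¹ else if i = 66 + 8 * s + j + 1 + 1 then β'
    else e' (i - (68 + 8 * s))
  have e1 : ∀ i ≤ 33 + 4 * s, c i = d1 i := fun i hi => if_pos hi
  have e2 : ∀ i ≤ 33 + 4 * s, c (33 + 4 * s + i) = d2 i := fun i hi => by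
    rcases Nat.eq_zero_or_pos i with rfl | p
    · rw [add_zero, e1 _ le_rfl, c3, k2]
    · simp only [c]
      rw [if_neg (by omega), if_pos (by omega), Nat.add_sub_cancel_left]
  have e3 : ∀ i ≤ 2 * n, c (childS s j i) = e' i := fun i hi => by
    rcases Nat.eq_zero_or_pos i with rfl | p
    · rw [← k3, ← e2 _ le_rfl]; congr 1; simp only [childS]; split_ifs <;> omega
    · simp only [c, childS]
      split_ifs <;> first | omega | (congr 1; omega)
  have e4 : c (66 + 8 * s + j + 1) = (d1 (16 + 2 * s))⁻¹ := by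
    simp only [c]
    split_ifs <;> first | omega | rfl
  have e5 : c (66 + 8 * s + j + 1 + 1) = β' := by
    simp only [c]
    split_ifs <;> first | omega | rfl
  obtain ⟨r1, r2, r3⟩ := child_congr c1 e1
  obtain ⟨r4, r5, r6⟩ := child_congr k1 e2
  have hc' : D.LCol c := by
    refine (h H c).2 ⟨(child_part e3 e5).2 hc.cr, r1, r4, ⟨?_, ?_⟩, ?_, ?_⟩
    · rw [e4, e1 _ (by omega)]
    · rw [e5, e1 _ (by omega), e1 _ (by omega), c7, c6, hc.b1]
      simp only [w1, childW]; group
    · rw [e4, add_assoc (33 + 4 * s), e2 _ (by omega), c6, k7]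
      exact congrArg (·⁻¹) hc.rel
    · rw [← g2, e3 _ hj.le, add_assoc (33 + 4 * s), e2 _ (by omega), e2 _ (by omega), k7, k6, hc.b2]
      simp only [w2, childW]; group
  obtain ⟨F, hF⟩ := D.lift hc'
  have fA : ∀ o ≤ 33 + 4 * s, F (childA s fun i => D.x (o + i)) = childA s (fun i => c (o + i)) ∧
      F (childB s fun i => D.x (o + i)) = childB s fun i => c (o + i) := fun o ho => by
    have : ∀ i < 34, F (D.x (o + childG s i)) = c (o + childG s i) := fun i hi =>
      hF _ (by simp only [childG]; split_ifs <;> omega)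
    constructor
    · simp only [childA, aW, map_mul, map_inv]
      rw [this 0 (by omega), this 33 (by omega), this 9 (by omega), this 22 (by omega)]
    · simp only [childB, bW, map_mul, map_inv]
      rw [this 0 (by omega), this 33 (by omega), this 12 (by omega), this 21 (by omega)]
  have f0 := fA 0 (Nat.zero_le _)
  simp only [zero_add] at f0
  refine ⟨F, fun i hi => (hF _ ?_).trans (e3 i hi), (hF _ (by omega)).trans e5,
    (hF _ (by omega)).trans ((e1 _ le_rfl).trans c3), f0.1.trans (r2.trans c4),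
    f0.2.trans (r3.trans c5), (fA _ le_rfl).1.trans (r5.trans k4),
    (fA _ le_rfl).2.trans (r6.trans k5)⟩
  simp only [childS]; split_ifs <;> omega

end Pool.Agent.MP_b13154_gt.H69
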