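import Pool.Agent.MP_b13154_gt.H69.Can

namespace Pool.Agent.MP_b13154_gt.H69

open Pool.Agent.MP_b13154_gt.H25 Subgroup

variable {R : Type} [AddCommGroup R] {G : Type} [Group G] {m : G}

/-- `κ` is a normalised 3-colouring lying in a small set `3 ^ e D` -/
def Small (ι : ZMod 3 →+ R) (χ : G →* ℤˣ) (m : G) (κ : G → ZMod 3) : Prop :=
  ∃ (e : ℕ) (F : Finset (G → R)), F.card ≤ 9 ∧
    (∀ d : G → R, Der χ d → d m = 0 → (fun g => (3 : ℤ) ^ e • d g) ∈ F) ∧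
    ∃ d : G → R, Der χ d ∧ d m = 0 ∧ ∀ g, ι (κ g) = (3 : ℤ) ^ e • d g

/-- crossed homomorphisms for the action defined by `κ` are determined by seven values -/
def Seven (χ : G →* ℤˣ) (κ : G → ZMod 3) : Prop :=
  ∃ (ρ : G →* (V4 ≃ₗ[ZMod 2] V4)) (z : Fin 7 → G), (∀ g, χ g = 1 → κ g = 0 → ρ g = 1) ∧
    (∀ g, χ g = 1 → κ g ≠ 0 → ρ g = sig ∨ ρ g = sig⁻¹) ∧
    ∀ δ, Cro ρ δ → (∀ i, δ (z i) = 0) → ∀ g, δ g = 0

theorem cnt_ext {H : Type} [CommGroup H] (h : normalClosure {m} = ⊤) {f g : G →* H}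
    (e : f m = g m) : f = g := by
  have : normalClosure {m} ≤ (f / g).ker := normalClosure_le_normal (by
    rintro _ rfl
    simp [MonoidHom.mem_ker, e])
  ext x
  have := this (h ▸ mem_top x)
  simpa [MonoidHom.mem_ker, div_eq_one] using this

section DerOps

variable {χ : G →* ℤˣ} {d d' : G → R}

theorem cnt_add (h : Der χ d) (h' : Der χ d') : Der χ fun g => d g + d' g := fun g k => by
  simp only [h g k, h' g k, smul_add]; abel

theorem cnt_map {R' : Type} [AddCommGroup R'] (h : Der χ d) (f : R →+ R') :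
    Der χ fun g => f (d g) := fun g k => by simp only [h g k, map_add, map_zsmul]

theorem cnt_smul (h : Der χ d) (n : ℤ) : Der χ fun g => n • d g :=
  cnt_map h (zsmulAddGroupHom n)

theorem cnt_sub (h : Der χ d) (h' : Der χ d') : Der χ fun g => d g - d' g := fun g k => by
  simp only [h g k, h' g k, smul_sub]; abel

theorem cnt_int {ξ : G → ℤ} (h : Der χ ξ) (y : R) : Der χ fun g => ξ g • y :=
  cnt_map h (zmultiplesHom R y)

theorem cnt_comp {L : Type} [Group L] (h : Der χ d) (f : L →* G) {χ' : L →* ℤˣ}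
    (e : ∀ g, χ (f g) = χ' g) : Der χ' fun g => d (f g) := fun g k => by
  simp only [map_mul, h (f g) (f k), e]

theorem cnt_even (h : Der χ d) {g : G} (hg : χ g = 1) (k : G) : d (g * k) = d g + d k := by
  simp [h g k, hg]

theorem cnt_w1 (h : Der χ d) {a x : G} (ht : χ (a⁻¹ * x) = 1) (s : ℕ) (l : G) :
    d (w1 s a x l) = (s : ℤ) • d (a⁻¹ * x) + d l := by
  rw [w1, cnt_even h (by rw [map_pow, ht, one_pow]), ← zpow_natCast, h.zpow ht]

theorem cnt_w2 (h : Der χ d) {x c : G} (ht : χ (x⁻¹ * c) = 1) (s : ℕ) (l : G) :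
    d (w2 s x c l) = -((s : ℤ) • d (x⁻¹ * c)) + d l := by
  rw [w2, cnt_even h (by rw [map_inv, map_pow, ht, one_pow, inv_one]), ← zpow_natCast,
    ← zpow_neg, h.zpow ht, neg_smul]

theorem cnt_rel (h : Der χ d) {a x c l1 l2 : G} {s : ℕ} (ha : χ a = -1) (hc : χ c = -1)
    (h1 : χ (a⁻¹ * x) = 1) (h2 : χ (x⁻¹ * c) = 1) (k1 : χ l1 = 1) (k2 : χ l2 = 1)
    (rel : w1 s a x l1 * a * (w1 s a x l1)⁻¹ = w2 s x c l2 * c * (w2 s x c l2)⁻¹) :
    (2 * s + 1 : ℤ) • (d (a⁻¹ * x) + d (x⁻¹ * c)) + (2 : ℤ) • (d l1 - d l2) = 0 := by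
  have e := congrArg d rel
  rw [h.conj_odd ha (by simp only [w1, map_mul χ (_ ^ _), map_pow, h1, k1, one_pow, mul_one]),
    h.conj_odd hc (by
      simp only [w2, map_mul χ ((_ ^ _)⁻¹), map_inv, map_pow, h2, k2, one_pow, mul_one, inv_one]),
    cnt_w1 h h1, cnt_w2 h h2] at e
  have e2 : d (a⁻¹ * x) + d (x⁻¹ * c) = d a - d c := by
    rw [← cnt_even h h1, show a⁻¹ * x * (x⁻¹ * c) = a⁻¹ * c by group, h, h.inv, map_inv, ha]
    simp [sub_eq_add_neg]
  linear_combination (norm := module) e + e2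

theorem cnt_three {ι : ZMod 3 →+ R} (hR : Pru R ι) {s : ℕ} (hs : s % 9 = 1) {y : R}
    (hy : (2 * s + 1 : ℤ) • y = 0) : ∃ c, y = ι c := by
  obtain ⟨r, hr, h3⟩ : ∃ r : ℤ, (2 * s + 1 : ℤ) = r * 3 ∧ ¬ 3 ∣ r := ⟨6 * (s / 9) + 1, by omega, by omega⟩
  refine hR.ker y ((hR.unit h3).1 ?_)
  simpa only [hr, mul_smul, smul_zero] using hy

end DerOps

section CroOps

variable {ρ : G →* (V4 ≃ₗ[ZMod 2] V4)} {δ : G → V4}

theorem cnt_one (h : Cro ρ δ) : δ 1 = 0 := by simpa using h 1 1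

/-- the zero set of a crossed homomorphism -/
def cntZ (h : Cro ρ δ) : Subgroup G where
  carrier := {g | δ g = 0}
  one_mem' := cnt_one h
  mul_mem' := fun {x y} hx hy => by
    simp only [Set.mem_ofPred_eq] at *
    rw [h, hx, hy]; simp
  inv_mem' := fun {x} hx => by
    simp only [Set.mem_ofPred_eq] at *
    have := h x⁻¹ x
    rw [inv_mul_cancel, cnt_one h, hx] at this
    simpa using this.symm

theorem cnt_conj (h : Cro ρ δ) {s : G} (hs : ρ s = 1) (h0 : δ s = 0) (g : G) :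
    δ (g * s * g⁻¹) = 0 := by
  rw [mul_assoc, h, h s, h0, hs, zero_add, LinearEquiv.coe_one, id, ← h, mul_inv_cancel, cnt_one h]

end CroOps

theorem cnt_refl (B : Subgroup G) : Into B B := ⟨1, by simp⟩

theorem cnt_trans {B B' B'' : Subgroup G} (h : Into B B') (h' : Into B' B'') : Into B B'' := by
  obtain ⟨g, hg⟩ := h
  obtain ⟨k, hk⟩ := h'
  exact ⟨g * k, fun b hb => by simpa only [mul_inv_rev, mul_assoc] using hk _ (hg b hb)⟩

/-- row KAP (b) -/
theorem TD.small (S : TD R m) {ι : ZMod 3 →+ R} (hR : Pru R ι) {χ : G →* ℤˣ} (hχ : χ m = -1) :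
    ∃ κ : G → ZMod 3, Der χ κ ∧ χ S.t1 = 1 ∧ χ S.t2 = 1 ∧ κ S.t1 ≠ 0 ∧ κ S.t2 ≠ 0 ∧
      Small ι χ m κ ∧ Seven χ κ := by
  classical
  obtain ⟨χL, ξ, O, ca, cl1, cl2, hξ, xa, xc, xx, xl1, xl2, xO, hgen, hO⟩ := S.lk.xi
  obtain ⟨π, hπ, hker, πa, -, -, htop⟩ := S.lk.pi
  have hs := S.hs
  have cx : χL S.x = -1 := by
    obtain ⟨g, e | e⟩ := S.lk.mx.conj <;> simp [e, ca]
  have cc : χL S.c = -1 := by
    obtain ⟨g, e⟩ := isConj_iff.1 S.mer_c.symm
    simp [← e, ca]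
  have c1 : χL (S.a⁻¹ * S.x) = 1 := by simp [ca, cx]
  have c2 : χL (S.x⁻¹ * S.c) = 1 := by simp [cc, cx]
  have x1 : ξ (S.a⁻¹ * S.x) = 2 := by rw [hξ, hξ.inv, xa, xx, map_inv, ca]; simp
  have x2 : ξ (S.x⁻¹ * S.c) = -2 := by rw [hξ, hξ.inv, xc, xx, cx]; simp
  have ext : ∀ {R' : Type} [AddCommGroup R'] {d : S.L → R'}, Der χL d → d S.l1 = 0 →
      d S.l2 = 0 → ∃ d' : G → R', Der χ d' ∧ (∀ g, χ (S.j g) = χL g) ∧ ∀ g, d' (S.j g) = d g := by
    intro R' _ d hd h3 h4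
    obtain ⟨χ', d', k1, k2, k3, -⟩ := S.ch.der hd cl1 cl2 h3 h4
    obtain rfl : χ' = χ := cnt_ext S.normal (by
      have := k2 S.a
      rcases S.hm with e | e <;> rw [e, ca] at this
      · rw [this, hχ]
      · rw [hχ, ← inv_inv (χ' m), ← map_inv, this]; rfl)
    exact ⟨d', k1, k2, k3⟩
  have q3 : ((-(2 * S.s + 1 : ℤ) : ℤ) : ZMod 3) = 0 :=
    (ZMod.intCast_zmod_eq_zero_iff_dvd _ 3).2 (by omega)
  obtain ⟨κ, hκ, cj, kj⟩ := ext (cnt_map hξ (Int.castAddHom (ZMod 3))) (by rw [xl1]; exact q3)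
    (by rw [xl2]; exact q3)
  replace kj : ∀ g, κ (S.j g) = (ξ g : ZMod 3) := kj
  have t1 : χ (S.j (S.a⁻¹ * S.x)) = 1 := (cj _).trans c1
  have t2 : χ (S.j (S.x⁻¹ * S.c)) = 1 := (cj _).trans c2
  have mz : ∀ {R' : Type} [AddCommGroup R'] {d : G → R'}, Der χ d →
      (d m = 0 ↔ d (S.j S.a) = 0) := by
    intro R' _ d hd
    rcases S.hm with e | e <;> rw [e]
    rw [hd.inv, hχ]; simp
  have zero : ∀ d : G → R, Der χ d → (∀ g, d (S.j g) = 0) → ∀ g, d g = 0 := by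
    intro d hd h0
    obtain ⟨-, -, e1, e2⟩ := hd.fig S.ch.f1 t1
    obtain ⟨-, -, e3, e4⟩ := hd.fig S.ch.f2 t2
    refine hd.eq_zero (S := (S.j.range : Set G) ∪ {S.a1, S.b1, S.a2, S.b2})
      (by rw [Subgroup.closure_union, Subgroup.closure_eq, S.ch.gen]) ?_
    rintro _ (⟨g, rfl⟩ | rfl | rfl | rfl | rfl)
    exacts [h0 g, e1, e2, e3, e4]
  have lz : ∀ d : G → R, Der χ d → d (S.j S.l1) = 0 ∧ d (S.j S.l2) = 0 := by
    intro d hd
    obtain ⟨f1, f2, e1, e2⟩ := hd.fig S.ch.f1 t1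
    obtain ⟨f3, f4, e3, e4⟩ := hd.fig S.ch.f2 t2
    rw [S.ch.e1, S.ch.e2]
    constructor <;> simp [hd _ _, hd.inv, *]
  have cw : χL (w1 S.s S.a S.x S.l1) = 1 ∧ χL (w2 S.s S.x S.c S.l2) = 1 := by
    simp only [w1, w2, map_mul χL (_ ^ _), map_mul χL ((_ ^ _)⁻¹), map_inv, map_pow, c1, c2, cl1,
      cl2, one_pow, mul_one, inv_one, and_self]
  have desc : ∀ d : S.L → R, Der χL d → d (w1 S.s S.a S.x S.l1) = 0 →
      d (w2 S.s S.x S.c S.l2) = 0 → ∃ (χ' : S.K →* ℤˣ) (d' : S.K → R), Der χ' d' ∧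
        (∀ g, χ' (π g) = χL g) ∧ ∀ g, d' (π g) = d g := fun d hd h1 h2 =>
    hd.descend hπ hker (by rintro _ (rfl | rfl); exacts [⟨cw.1, h1⟩, ⟨cw.2, h2⟩])
  obtain ⟨χK, -, -, cK, -⟩ := desc (fun _ => 0) (fun _ _ => by simp) rfl rfl
  obtain ⟨e, he, he'⟩ := htop χK (by rw [← πa, cK, ca])
  have xw1 : ξ (w1 S.s S.a S.x S.l1) = -1 := by rw [cnt_w1 hξ c1, x1, xl1, smul_eq_mul]; ring
  have xw2 : ξ (w2 S.s S.x S.c S.l2) = -1 := by rw [cnt_w2 hξ c2, x2, xl2, smul_eq_mul]; ring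
  have fin : ∀ (d : G → R) (c : ZMod 3), Der χ d → (∀ g, d (S.j g) = ξ g • ι c) →
      ∀ g, d g = ι (c * κ g) := fun d c hd h0 g =>
    sub_eq_zero.1 (zero _ (cnt_sub hd (cnt_map hκ (ι.comp (AddMonoidHom.mulLeft c))))
      (fun g => by
        rw [h0, ← map_zsmul, sub_eq_zero]
        simp [kj, mul_comm]) g)
  have D0 : ∀ d : G → R, Der χ d → d m = 0 → d S.t1 + d S.t2 = 0 →
      ∃ c, ∀ g, (3 : ℤ) ^ e • d g = ι (c * κ g) := by
    intro d hd hm h0
    have dL := cnt_comp hd S.j cj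
    obtain ⟨l1, l2⟩ := lz d hd
    obtain ⟨χ', d', k1, k2, k3⟩ := desc _ (cnt_add dL (cnt_int hξ ((S.s : ℤ) • d S.t1)))
      (by rw [cnt_w1 dL c1, xw1, l1]; simp [TD.t1])
      (by
        rw [cnt_w2 dL c2, xw2, l2]
        have : d (S.j (S.x⁻¹ * S.c)) = -d S.t1 := eq_neg_of_add_eq_zero_right h0
        rw [this]; simp)
    obtain rfl : χ' = χK := MonoidHom.ext fun g => by
      obtain ⟨g, rfl⟩ := hπ g
      rw [k2, cK]
    have k4 := fun g => he d' k1 (by rw [← πa, k3, (mz hd).1 hm, xa]; simp) (π g)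
    simp only [k3] at k4
    obtain ⟨c, hc⟩ := cnt_three hR hs (y := -((3 : ℤ) ^ e • (S.s : ℤ) • d S.t1)) (by
      have := k4 S.l1
      rw [l1, xl1] at this
      linear_combination (norm := module) this)
    exact ⟨c, fin _ c (cnt_smul hd _) fun g => by
      rw [← hc]
      linear_combination (norm := module) k4 g⟩
  refine ⟨κ, hκ, t1, t2, by rw [TD.t1, kj, x1]; decide, by rw [TD.t2, kj, x2]; decide,
    ⟨e, ?_⟩, ?_⟩
  · have ch : ∀ c : ZMod 3, ∃ d0 : G → R, ∀ d : G → R, Der χ d → d m = 0 →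
        d S.t1 + d S.t2 = ι c → Der χ d0 ∧ d0 m = 0 ∧ d0 S.t1 + d0 S.t2 = ι c := by
      intro c
      by_cases h : ∃ d : G → R, Der χ d ∧ d m = 0 ∧ d S.t1 + d S.t2 = ι c
      · obtain ⟨d, hd⟩ := h
        exact ⟨d, fun _ _ _ _ => hd⟩
      · exact ⟨0, fun d a b c => (h ⟨d, a, b, c⟩).elim⟩
    choose d0 hd0 using ch
    refine ⟨Finset.univ.image fun p : ZMod 3 × ZMod 3 =>
      fun g => (3 : ℤ) ^ e • d0 p.1 g + ι (p.2 * κ g), Finset.card_image_le.trans (by simp),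
      fun d hd hm => ?_, ?_⟩
    · obtain ⟨l1, l2⟩ := lz d hd
      have := cnt_rel (cnt_comp hd S.j cj) ca cc c1 c2 cl1 cl2 S.lk.rel
      rw [l1, l2, sub_self, smul_zero, add_zero] at this
      obtain ⟨c, hc⟩ := cnt_three hR hs this
      obtain ⟨k1, k2, k3⟩ := hd0 c d hd hm hc
      obtain ⟨c', hc'⟩ := D0 _ (cnt_sub hd k1) (by rw [hm, k2, sub_self]) (by
        have hc : d S.t1 + d S.t2 = ι c := hc
        linear_combination (norm := module) hc - k3)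
      refine Finset.mem_image.2 ⟨(c, c'), Finset.mem_univ _, funext fun g => ?_⟩
      rw [← hc']
      module
    rcases Nat.eq_zero_or_pos e with rfl | hpos
    · exact ⟨_, cnt_map hκ ι, by rw [(mz hκ).2 (by rw [kj, xa]; rfl), map_zero], by simp⟩
    obtain ⟨dK, k1, k2, k3⟩ := he'.resolve_left hpos.ne'
    obtain ⟨e, rfl⟩ : ∃ e', e = e' + 1 := ⟨e - 1, by omega⟩
    have dL := cnt_comp k1 π cK
    have z1 : dK (π (w1 S.s S.a S.x S.l1)) = 0 := by
      rw [(MonoidHom.mem_ker.1 (hker ▸ subset_normalClosure (by simp)) : π _ = 1), k1.one]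
    have z2 : dK (π (w2 S.s S.x S.c S.l2)) = 0 := by
      rw [(MonoidHom.mem_ker.1 (hker ▸ subset_normalClosure (by simp)) : π _ = 1), k1.one]
    have z3 := cnt_rel dL ca cc c1 c2 cl1 cl2 S.lk.rel
    rw [cnt_w1 dL c1] at z1
    rw [cnt_w2 dL c2] at z2
    obtain ⟨r, hr, h3⟩ : ∃ r : ℤ, (2 * S.s + 1 : ℤ) = r * 3 ∧ ¬ 3 ∣ r :=
      ⟨6 * (S.s / 9) + 1, by omega, by omega⟩
    obtain ⟨y', hy'⟩ := (hR.unit h3).2 (dK (π S.l1))
    obtain ⟨y, rfl⟩ := hR.div y'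
    have hy : (2 * S.s + 1 : ℤ) • y = dK (π S.l1) := by rw [hr, mul_smul]; exact hy'
    obtain ⟨d, j1, -, j3⟩ := ext (cnt_add dL (cnt_int hξ y))
      (by rw [xl1, ← hy]; module)
      (by
        rw [xl2]
        linear_combination (norm := module) -hy - (2 * S.s + 1 : ℤ) • z1 + (2 * S.s + 1 : ℤ) • z2 +
          (S.s : ℤ) • z3)
    obtain ⟨c, hc⟩ := cnt_three hR hs (y := (3 : ℤ) ^ (e + 1) • y) (by
      rw [smul_comm, hy, he dK k1 k2])
    have j4 := fin _ c (cnt_smul j1 ((3 : ℤ) ^ (e + 1))) fun g => by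
      rw [j3, smul_add, he dK k1 k2, ← hc, zero_add, smul_comm]
    have hm : d m = 0 := (mz j1).2 (by rw [j3, πa, k2, xa]; simp)
    have c0 : c ≠ 0 := by
      rintro rfl
      refine k3 ((hR.unit (r := S.s) (by omega)).1 ?_)
      rw [map_zero] at hc
      rw [hr] at hy
      simp only [Nat.add_sub_cancel, smul_zero]
      linear_combination (norm := module) (3 : ℤ) ^ e • z1 + (3 : ℤ) ^ e • hy - r • hc
    rcases (by decide : ∀ c : ZMod 3, c ≠ 0 → c = 1 ∨ c = -1) c c0 with rfl | rfl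
    · exact ⟨d, j1, hm, fun g => by rw [j4, one_mul]⟩
    · exact ⟨_, cnt_smul j1 (-1), by simp [hm], fun g => by rw [smul_comm, j4]; simp⟩
  obtain ⟨ρ, τ, hτ, r1, r2, r3⟩ := exists_rho hκ
  refine ⟨ρ, ![S.j S.a, S.j S.x, S.j S.c, S.a1, S.b1, S.a2, S.b2], r1, r3, fun δ hδ h0 g => ?_⟩
  have m3 : S.a1 ∈ cntZ hδ := h0 3
  have m4 : S.b1 ∈ cntZ hδ := h0 4
  have m5 : S.a2 ∈ cntZ hδ := h0 5
  have m6 : S.b2 ∈ cntZ hδ := h0 6
  have hc : closure {S.a, S.x, S.c, S.l1, S.l2} ≤ (cntZ hδ).comap S.j := by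
    rw [closure_le]
    rintro _ (rfl | rfl | rfl | rfl | rfl)
    exacts [h0 0, h0 1, h0 2,
      mem_comap.2 (S.ch.e1 ▸ mul_mem (mul_mem (mul_mem m4 m3) (inv_mem m4)) (inv_mem m3)),
      mem_comap.2 (S.ch.e2 ▸ mul_mem (mul_mem (mul_mem m6 m5) (inv_mem m6)) (inv_mem m5))]
  have act : ∀ g : O, ∀ v, ρ (S.j g) v = v ∨ ρ (S.j g) v = (v.2, v.1) := fun g v => by
    have k0 : κ (S.j g) = 0 := by rw [kj, xO _ g.2]; rfl
    rcases Int.units_eq_one_or (χ (S.j g)) with e | e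
    exacts [Or.inl (by rw [r1 _ e k0]; rfl), Or.inr (by rw [r2 _ e k0, hτ])]
  have hom : ∀ p : V4 →+ ZMod 2, (∀ g k : O, p (ρ (S.j g) (δ (S.j k))) = p (δ (S.j k))) →
      ∀ g : O, p (δ (S.j g)) = 0 := fun p hp g =>
    DFunLike.congr_fun (hO (MonoidHom.mk' (fun g => Multiplicative.ofAdd (p (δ (S.j g))))
      fun g k => by rw [← ofAdd_add, coe_mul, map_mul, hδ, map_add, hp]) fun g hg => by
        have : δ (S.j g) = 0 := hc hg
        simp [this]) g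
  have p1 := hom (AddMonoidHom.fst _ _ + AddMonoidHom.snd _ _) fun g k => by
    rcases act g (δ (S.j k)) with e | e <;> simp [e, add_comm]
  have p2 : ∀ g : O, (δ (S.j g)).2 = (δ (S.j g)).1 := fun g => by
    have : (δ (S.j g)).1 + (δ (S.j g)).2 = 0 := p1 g
    revert this
    generalize δ (S.j g) = v
    revert v
    decide
  have p3 := hom (AddMonoidHom.fst _ _) fun g k => by
    rcases act g (δ (S.j k)) with e | e <;> simp [e, p2]
  have hL : (⊤ : Subgroup S.L) ≤ (cntZ hδ).comap S.j :=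
    hgen ▸ sup_le (fun g hg => Prod.ext (p3 ⟨g, hg⟩) ((p2 ⟨g, hg⟩).trans (p3 ⟨g, hg⟩))) hc
  have : (⊤ : Subgroup G) ≤ cntZ hδ := S.ch.gen ▸ sup_le
    (by rintro _ ⟨g, rfl⟩; exact hL (mem_top g))
    (by rw [closure_le]; rintro _ (rfl | rfl | rfl | rfl); exacts [m3, m4, m5, m6])
  exact this (mem_top g)

/-- row CNT (a): the sets `3 ^ e D` are nested -/
theorem small_card {ι : ZMod 3 →+ R} (hR : Pru R ι) {χ : G →* ℤˣ} (F : Finset (G → ZMod 3))
    (h : ∀ κ ∈ F, Small ι χ m κ) : F.card ≤ 9 := by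
  choose! e E hE hin d hd hm he using h
  rcases F.eq_empty_or_nonempty with rfl | hne
  · simp
  obtain ⟨k0, h0, hmin⟩ := F.exists_min_image e hne
  refine (Finset.card_le_card_of_injOn (fun κ g => ι (κ g)) (fun κ hκ => ?_)
    fun κ _ κ' _ hh => funext fun g => hR.inj (congrFun hh g)).trans (hE k0 h0)
  obtain ⟨n, hn⟩ := Nat.exists_eq_add_of_le (hmin κ hκ)
  have := hin k0 h0 _ (cnt_smul (hd κ hκ) ((3 : ℤ) ^ n)) (by simp [hm κ hκ])
  simpa only [he κ hκ, hn, pow_add, mul_smul, Finset.mem_coe] using this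

/-- row CNT (b): pieces seen by `κ` -/
theorem seen_card {χ : G →* ℤˣ} {κ : G → ZMod 3} (hκ : Der χ κ) (h7 : Seven χ κ) {ι : Type}
    [Fintype ι] (A : ι → Subgroup G) (a b t : ι → G) (h : ∀ i, Piece (A i) (a i) (b i) (t i))
    (φ : G →* Multiplicative ℤ) (ht : ∀ i, val φ (t i) = 2 ∨ val φ (t i) = -2)
    (hχ : ∀ i, χ (t i) = 1) (hs : ∀ i, κ (t i) ≠ 0)
    (hinj : ∀ i k, Into (PB (a i) (b i) (t i)) (PB (a k) (b k) (t k)) →
      Into (PB (a k) (b k) (t k)) (PB (a i) (b i) (t i)) → i = k) : Fintype.card ι ≤ 14 := by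
  classical
  obtain ⟨ρ, z, r1, r2, hz⟩ := h7
  have f := fun i => hκ.fig (h i).fig (hχ i)
  have ra : ∀ i, ρ (a i) = 1 := fun i => r1 _ (f i).1 (f i).2.2.1
  choose δ hδ h0 ha using fun i => piece_cro (h i) ρ (ra i) (r1 _ (f i).2.1 (f i).2.2.2)
    (r2 _ (hχ i) (hs i))
  have hli : LinearIndependent (ZMod 2) fun i => fun j => δ i (z j) := by
    rw [Fintype.linearIndependent_iff]
    intro c hc
    have hz := hz (fun g => ∑ i, c i • δ i g) (fun g k => by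
      simp only [hδ _ g k, smul_add, Finset.sum_add_distrib, map_sum, map_smul]) fun j => by
        simpa only [Finset.sum_apply, Pi.smul_apply, Pi.zero_apply] using congrFun hc j
    by_contra hne
    push Not at hne
    obtain ⟨j, hj, hmax⟩ := (Finset.univ.filter fun i => c i ≠ 0).exists_maximalFor
      (fun i => {k | Into (PB (a k) (b k) (t k)) (PB (a i) (b i) (t i))})
      (hne.imp fun i hi => by simpa using hi)
    have := hz (a j)
    rw [Finset.sum_eq_single j (fun i _ hij => ?_) (by simp)] at this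
    · exact ha j ((smul_eq_zero.1 this).resolve_left (by simpa using hj))
    by_cases hi : c i = 0
    · simp [hi]
    rcases piece_ell (h j) (h i) φ (ht j) (ht i) with ⟨g, hg⟩ | e
    · have := cnt_conj (hδ i) (by simp [ra]) (h0 i _ (hg (a j) (subset_closure (by simp)))) g
      rw [show g * (g⁻¹ * a j * g) * g⁻¹ = a j by group] at this
      simp [this]
    · exact absurd (hinj _ _ (hmax (by simpa using hi) (fun k hk => cnt_trans hk e) (cnt_refl _)) e)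
        hij
  simpa [Module.finrank_pi_fintype, Module.finrank_prod] using hli.fintype_card_le_finrank

/-- row CNT (c): bounded in-degree -/
theorem td_count {ι : ZMod 3 →+ R} (hR : Pru R ι) {I : Type} [Fintype I] (S : I → TD R m)
    (h : ∀ i k, (S i).s = (S k).s → MIso (S i).mK (S k).mK → i = k) : Fintype.card I ≤ 1764 := by
  classical
  rcases isEmpty_or_nonempty I with hI | ⟨⟨i0⟩⟩
  · simp
  have ph : ∀ i, ∃ φ : G →* Multiplicative ℤ, val φ m = 1 ∧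
      (val φ (S i).t1 = 2 ∨ val φ (S i).t1 = -2) ∧ (val φ (S i).t2 = 2 ∨ val φ (S i).t2 = -2) := by
    intro i
    obtain ⟨φ, e1, e2, e3⟩ := (S i).phi
    rcases (S i).hm with e | e
    · exact ⟨φ, e ▸ e1, by simp [TD.t1, e1, e2], by simp [TD.t2, e2, e3]⟩
    · have hv : ∀ g, val φ⁻¹ g = -val φ g := fun g => by simp [val]
      refine ⟨φ⁻¹, ?_, by simp [TD.t1, hv, e1, e2], by simp [TD.t2, hv, e2, e3]⟩
      rw [e, val_inv] at e1
      rw [hv, e1]
  choose φ p0 p1 p2 using ph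
  have pe : ∀ i, φ i = φ i0 := fun i => cnt_ext (S i0).normal
    (Multiplicative.toAdd.injective ((p0 i).trans (p0 i0).symm))
  simp only [pe] at p1 p2
  choose κ k1 k2 k3 k4 k5 k6 k7 using fun i => (S i).small hR
    (χ := (zpowersHom ℤˣ (-1)).comp (φ i0)) (by
      have : (φ i0 m).toAdd = 1 := p0 i0
      simp [this])
  have h9 := small_card hR (Finset.univ.image κ) fun _ hk => by
    obtain ⟨i, -, rfl⟩ := Finset.mem_image.1 hk
    exact k6 i
  refine (Finset.card_le_mul_card_image (f := κ) Finset.univ 196 fun _ hk => ?_).trans (by omega)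
  obtain ⟨i1, -, rfl⟩ := Finset.mem_image.1 hk
  let J := {i // κ i = κ i1} × Bool
  let A : J → Subgroup G := fun p => cond p.2 (S p.1).A1 (S p.1).A2
  let a : J → G := fun p => cond p.2 (S p.1).a1 (S p.1).a2
  let b : J → G := fun p => cond p.2 (S p.1).b1 (S p.1).b2
  let t : J → G := fun p => cond p.2 (S p.1).t1 (S p.1).t2
  let s : Setoid J := ⟨fun p q => Into (PB (a p) (b p) (t p)) (PB (a q) (b q) (t q)) ∧
    Into (PB (a q) (b q) (t q)) (PB (a p) (b p) (t p)), fun _ => ⟨cnt_refl _, cnt_refl _⟩,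
    And.symm, fun x y => ⟨cnt_trans x.1 y.1, cnt_trans y.2 x.2⟩⟩
  have all : ∀ p : J, Piece (A p) (a p) (b p) (t p) ∧
      (val (φ i0) (t p) = 2 ∨ val (φ i0) (t p) = -2) ∧
      (zpowersHom ℤˣ (-1)).comp (φ i0) (t p) = 1 ∧ κ i1 (t p) ≠ 0 := by
    rintro ⟨⟨i, hi⟩, _ | _⟩
    exacts [⟨(S i).piece2, p2 i, k3 i, fun e => k5 i ((congrFun hi _).trans e)⟩,
      ⟨(S i).piece1, p1 i, k2 i, fun e => k4 i ((congrFun hi _).trans e)⟩]
  have h14 := seen_card (ι := Quotient s) (k1 i1) (k7 i1) (fun q => A q.out) (fun q => a q.out)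
    (fun q => b q.out) (fun q => t q.out) (fun q => (all _).1) (φ i0) (fun q => (all _).2.1)
    (fun q => (all _).2.2.1) (fun q => (all _).2.2.2)
    fun q q' e e' => Quotient.out_equiv_out.1 ⟨e, e'⟩
  have := Fintype.card_le_of_injective
    (fun i : {i // κ i = κ i1} => ((⟦(i, true)⟧, ⟦(i, false)⟧) : Quotient s × Quotient s))
    fun i k e => by
      obtain ⟨e1, e2⟩ := Prod.mk.inj e
      obtain ⟨a1, a2⟩ := Quotient.exact e1
      obtain ⟨a3, a4⟩ := Quotient.exact e2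
      obtain ⟨c1, c2⟩ := canon (S i) (S k) a1 a2 a3 a4
      exact Subtype.ext (h _ _ c1 c2)
  rw [Fintype.card_subtype, Fintype.card_prod] at this
  exact this.trans (Nat.mul_le_mul h14 h14)

end Pool.Agent.MP_b13154_gt.H69
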