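import Pool.Agent.MP_b13154_gt.Mg.H25_Dia

/-!
Definitions for the bounded gap theorem: amalgams with malnormal edge group, derivations, link
data of the tangle `1/q + (-1/q)`, children.
-/

namespace Pool.Agent.MP_b13154_gt.H69

open Pool.Agent.MP_b13154_gt.H25 Subgroup

section

variable {G : Type} [Group G]

/-- the figure eight piece and its peripheral subgroup -/
def PB (a b t : G) : Subgroup G := closure {a, b, t}
def PC (a b t : G) : Subgroup G := closure {t, b * a * b⁻¹ * a⁻¹}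

/-- `C` is malnormal in `B` -/
def Mal (B C : Subgroup G) : Prop := ∀ g ∈ B, ∀ c ∈ C, c ≠ 1 → g * c * g⁻¹ ∈ C → g ∈ C

/-- an amalgam whose edge group is malnormal in the second factor -/
structure Am (A B C : Subgroup G) : Prop where
  gen : A ⊔ B = ⊤
  cA : C ≤ A
  cB : C ≤ B
  up : HasUP A B C
  mal : Mal B C

/-- `B` is conjugate into `B'` -/
def Into (B B' : Subgroup G) : Prop := ∃ g, ∀ b ∈ B, g⁻¹ * b * g ∈ B'

/-- crossed homomorphisms -/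
def Cro (ρ : G →* (V4 ≃ₗ[ZMod 2] V4)) (δ : G → V4) : Prop :=
  ∀ g h, δ (g * h) = δ g + ρ g (δ h)

/-- derivations for a sign character (Fox colourings) -/
def Der {R : Type} [AddCommGroup R] (χ : G →* ℤˣ) (d : G → R) : Prop :=
  ∀ g h, d (g * h) = d g + (χ g : ℤ) • d h

/-- generated by finitely many meridians -/
def Kn (m : G) : Prop :=
  ∃ (k : ℕ) (x : Fin k → G), closure (Set.range x) = ⊤ ∧ ∀ i, Mer m (x i)

/-- `z` has top order for colourings with values in `R` -/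
def Top (R : Type) [AddCommGroup R] (m z : G) : Prop :=
  ∀ χ : G →* ℤˣ, χ m = -1 → ∃ e : ℕ,
    (∀ d : G → R, Der χ d → d m = 0 → ∀ g, (3 : ℤ) ^ e • d g = 0) ∧
    (e = 0 ∨ ∃ d : G → R, Der χ d ∧ d m = 0 ∧ (3 : ℤ) ^ (e - 1) • d z ≠ 0)

def w1 (s : ℕ) (a x l1 : G) : G := (a⁻¹ * x) ^ s * l1
def w2 (s : ℕ) (x c l2 : G) : G := ((x⁻¹ * c) ^ s)⁻¹ * l2

end

/-- the Pruefer 3-group -/
structure Pru (R : Type) [AddCommGroup R] (ι : ZMod 3 →+ R) : Prop where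
  inj : Function.Injective ι
  tor : ∀ x : R, ∃ j : ℕ, (3 : ℤ) ^ j • x = 0
  div : ∀ x : R, ∃ y, (3 : ℤ) • y = x
  ker : ∀ x : R, (3 : ℤ) • x = 0 → ∃ c, x = ι c

/-- link data: the group `L` of the twisted knot together with the two crossing circles -/
structure LK (R : Type) [AddCommGroup R] {K L : Type} [Group K] [Group L] (mK : K) (s : ℕ)
    (a x c l1 l2 : L) : Prop where
  c1 : Commute (a⁻¹ * x) l1
  c2 : Commute (x⁻¹ * c) l2
  rel : w1 s a x l1 * a * (w1 s a x l1)⁻¹ = w2 s x c l2 * c * (w2 s x c l2)⁻¹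
  mx : Mer a x
  pi : ∃ π : L →* K, Function.Surjective π ∧
    π.ker = normalClosure {w1 s a x l1, w2 s x c l2} ∧ π a = mK ∧ IsConj (π x)⁻¹ mK ∧
    π x ∉ zpowers mK ∧ Top R mK (π (a⁻¹ * x))
  psi : ∃ ψ1 ψ2 : L →* Multiplicative ℤ, val ψ1 a = 0 ∧ val ψ1 l1 = 1 ∧ val ψ1 l2 = 0 ∧
    val ψ2 a = 0 ∧ val ψ2 l1 = 0 ∧ val ψ2 l2 = 1
  xi : ∃ (χ : L →* ℤˣ) (ξ : L → ℤ) (O : Subgroup L), χ a = -1 ∧ χ l1 = 1 ∧ χ l2 = 1 ∧ Der χ ξ ∧
    ξ a = 0 ∧ ξ c = 0 ∧ ξ x = -2 ∧ ξ l1 = -(2 * s + 1) ∧ ξ l2 = -(2 * s + 1) ∧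
    (∀ g ∈ O, ξ g = 0) ∧ O ⊔ closure {a, x, c, l1, l2} = ⊤ ∧
    ∀ f : O →* Multiplicative (ZMod 2),
      (∀ g : O, g.1 ∈ closure ({a, x, c, l1, l2} : Set L) → f g = 1) → f = 1

/-- `G` is obtained from the link group by gluing two figure eight groups -/
structure CH {L G : Type} [Group L] [Group G] (a x c l1 l2 : L) (j : L →* G)
    (a1 b1 a2 b2 : G) : Prop where
  f1 : Fig a1 b1 (j (a⁻¹ * x))
  f2 : Fig a2 b2 (j (x⁻¹ * c))
  e1 : j l1 = b1 * a1 * b1⁻¹ * a1⁻¹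
  e2 : j l2 = b2 * a2 * b2⁻¹ * a2⁻¹
  gen : j.range ⊔ closure {a1, b1, a2, b2} = ⊤
  up : ∀ (H : Type) [Group H] (f : L →* H) (a1' b1' a2' b2' : H), Fig a1' b1' (f (a⁻¹ * x)) →
    f l1 = b1' * a1' * b1'⁻¹ * a1'⁻¹ → Fig a2' b2' (f (x⁻¹ * c)) →
    f l2 = b2' * a2' * b2'⁻¹ * a2'⁻¹ →
    ∃ F : G →* H, (∀ g, F (j g) = f g) ∧ F a1 = a1' ∧ F b1 = b1' ∧ F a2 = a2' ∧ F b2 = b2'

/-- a description of the marked group `(G, m)` as a child of the prime marked group `(K, mK)` -/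
structure TD (R : Type) [AddCommGroup R] {G : Type} [Group G] (m : G) where
  K : Type
  [gK : Group K]
  mK : K
  s : ℕ
  L : Type
  [gL : Group L]
  a : L
  x : L
  c : L
  l1 : L
  l2 : L
  j : L →* G
  a1 : G
  b1 : G
  a2 : G
  b2 : G
  good : Good mK
  kn : Kn mK
  hs : s % 9 = 1
  lk : LK R mK s a x c l1 l2
  ch : CH a x c l1 l2 j a1 b1 a2 b2
  hm : j a = m ∨ j a = m⁻¹

attribute [instance] TD.gK TD.gL

namespace TD

variable {R : Type} [AddCommGroup R] {G : Type} [Group G] {m : G} (S : TD R m)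

def t1 : G := S.j (S.a⁻¹ * S.x)
def t2 : G := S.j (S.x⁻¹ * S.c)
def B1 : Subgroup G := PB S.a1 S.b1 S.t1
def B2 : Subgroup G := PB S.a2 S.b2 S.t2
def C1 : Subgroup G := PC S.a1 S.b1 S.t1
def C2 : Subgroup G := PC S.a2 S.b2 S.t2
def A1 : Subgroup G := S.j.range ⊔ S.B2
def A2 : Subgroup G := S.j.range ⊔ S.B1

end TD

/-- colourings of the link diagram: `e i` the segments of `K`, with segment `0` cut into
`e (2 n)` and `e 0`, segment `j` into `e j` and `β` -/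
structure ACol {n : ℕ} (K : Diag n) (j s : ℕ) {H : Type} [Group H] (e : ℕ → H)
    (β x l1 l2 : H) : Prop where
  cr : ∀ p < 2 * n, Cr (K.s p) (K.o p) (if p = j then β else e p) (e (p + 1))
    (if K.t p = j then β else e (K.t p)) (e (K.t p + 1))
  c1 : Commute ((e (2 * n))⁻¹ * x) l1
  c2 : Commute (x⁻¹ * e 0) l2
  rel : w1 s (e (2 * n)) x l1 * e (2 * n) * (w1 s (e (2 * n)) x l1)⁻¹ =
    w2 s x (e 0) l2 * e 0 * (w2 s x (e 0) l2)⁻¹
  b1 : β = w1 s (e (2 * n)) x l1 * ((e (2 * n))⁻¹ * x⁻¹ * e (2 * n)) * (w1 s (e (2 * n)) x l1)⁻¹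
  b2 : e j = w2 s x (e 0) l2 * ((e 0)⁻¹ * x⁻¹ * e 0) * (w2 s x (e 0) l2)⁻¹

/-- the universal colouring of the link diagram -/
structure ULink {n : ℕ} (K : Diag n) (j s : ℕ) {L : Type} [Group L] (e : ℕ → L)
    (β x l1 l2 : L) : Prop where
  col : ACol K j s e β x l1 l2
  gen : ∀ S : Subgroup L, (∀ i ≤ 2 * n, e i ∈ S) → β ∈ S → x ∈ S → l1 ∈ S → l2 ∈ S → S = ⊤
  up : ∀ (H : Type) [Group H] (e' : ℕ → H) (β' x' l1' l2' : H), ACol K j s e' β' x' l1' l2' →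
    ∃ f : L →* H, (∀ i ≤ 2 * n, f (e i) = e' i) ∧ f β = β' ∧ f x = x' ∧ f l1 = l1' ∧ f l2 = l2'

/-- a site of a diagram -/
structure Site (R : Type) [AddCommGroup R] {n : ℕ} (K : Diag n) (j : ℕ) : Prop where
  pos : 0 < j
  lt : j < 2 * n
  side : ∀ p < j, K.s p = false
  ess : K.x j ∉ zpowers K.mer
  conj : IsConj (K.x j) K.mer
  top : Top R K.mer ((K.x j)⁻¹ * K.mer⁻¹)

end Pool.Agent.MP_b13154_gt.H69
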