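import Pool.Agent.MP_b13154_gt.H69.Defs

namespace Pool.Agent.MP_b13154_gt.H69

open Pool.Agent.MP_b13154_gt.H25 Subgroup

variable {G K : Type} [Group G] [Group K] {R : Type} [AddCommGroup R] {χ : G →* ℤˣ} {d : G → R}

/-! row DER -/

theorem Der.one (h : Der χ d) : d 1 = 0 := by
  simpa using h 1 1

theorem Der.inv (h : Der χ d) (g : G) : d g⁻¹ = -((χ g : ℤ) • d g) := by
  have h1 := h g⁻¹ g
  rw [inv_mul_cancel, h.one, map_inv, Int.units_inv_eq_self] at h1
  exact eq_neg_of_add_eq_zero_left h1.symm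

theorem Der.zpow (h : Der χ d) {g : G} (hg : χ g = 1) (k : ℤ) : d (g ^ k) = k • d g := by
  have e : ∀ k : ℤ, d (g ^ (k + 1)) = d (g ^ k) + d g := fun k => by
    rw [zpow_add_one, h, map_zpow, hg, one_zpow, Units.val_one, one_smul]
  induction k using Int.induction_on with
  | zero => simp [h.one]
  | succ k ih => rw [e, ih, add_smul, one_smul]
  | pred k ih =>
    have := e (-k - 1)
    rw [sub_add_cancel, ih] at this
    rw [sub_smul, one_smul, this, add_sub_cancel_right]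

theorem der_sq (u : ℤˣ) : (u : ℤ) * u = 1 := by
  rw [← Units.val_mul, Int.units_mul_self, Units.val_one]

/-- conjugation of an even element -/
theorem Der.conj (h : Der χ d) {t : G} (ht : χ t = 1) (g : G) :
    d (g * t * g⁻¹) = (χ g : ℤ) • d t := by
  rw [h, h, h.inv, map_mul, ht, mul_one, smul_neg, smul_smul, der_sq, one_smul]
  abel

/-- conjugation of an odd element by an even one -/
theorem Der.conj_odd (h : Der χ d) {z w : G} (hz : χ z = -1) (hw : χ w = 1) :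
    d (w * z * w⁻¹) = d z + (2 : ℤ) • d w := by
  rw [h, h, h.inv, map_mul, hz, hw, two_smul]
  simp only [Units.val_one, one_smul, one_mul, Units.val_neg, neg_smul, neg_neg]
  abel

theorem Der.fig (h : Der χ d) {a b t : G} (hf : Fig a b t) (ht : χ t = 1) :
    χ a = 1 ∧ χ b = 1 ∧ d a = 0 ∧ d b = 0 := by
  have h1 := congrArg χ hf.1
  have h2 := congrArg χ hf.2
  simp only [map_mul, map_inv, ht, one_mul, inv_one, mul_one, left_eq_mul] at h1 h2
  rw [h1, mul_one] at h2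
  have h3 := congrArg d hf.1
  have h4 := congrArg d hf.2
  rw [h.conj h2, h, ht, h2] at h3
  rw [h.conj h1, h, h, ht, h1, h2] at h4
  simp only [Units.val_one, one_smul, left_eq_add] at h3 h4
  rw [h3, add_zero] at h4
  exact ⟨h2, h1, h4, h3⟩

theorem Der.eq_zero (h : Der χ d) {S : Set G} (hS : closure S = ⊤) (h0 : ∀ s ∈ S, d s = 0)
    (g : G) : d g = 0 := by
  induction (hS ▸ mem_top g : g ∈ closure S) using closure_induction with
  | mem x hx => exact h0 x hx
  | one => exact h.one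
  | mul x y _ _ h1 h2 => rw [h, h1, h2, smul_zero, add_zero]
  | inv x _ h1 => rw [h.inv, h1, smul_zero, neg_zero]

/-- descent to a quotient -/
theorem Der.descend (h : Der χ d) {π : G →* K} (hπ : Function.Surjective π) {S : Set G}
    (hk : π.ker = normalClosure S) (h0 : ∀ s ∈ S, χ s = 1 ∧ d s = 0) :
    ∃ (χ' : K →* ℤˣ) (d' : K → R), Der χ' d' ∧ (∀ g, χ' (π g) = χ g) ∧ ∀ g, d' (π g) = d g := by
  let N : Subgroup G :=
    { carrier := {g | χ g = 1 ∧ d g = 0}
      mul_mem' := fun {x y} h1 h2 => ⟨by rw [map_mul, h1.1, h2.1, mul_one],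
        by rw [h, h1.2, h2.2, smul_zero, add_zero]⟩
      one_mem' := ⟨map_one _, h.one⟩
      inv_mem' := fun {x} h1 => ⟨by rw [map_inv, h1.1, inv_one],
        by rw [h.inv, h1.2, smul_zero, neg_zero]⟩ }
  have : N.Normal := ⟨fun n hn g => ⟨by rw [map_mul, map_mul, hn.1, mul_one, map_inv, mul_inv_cancel],
    by rw [h.conj hn.1, hn.2, smul_zero]⟩⟩
  have h1 : ∀ x y, π x = π y → χ y = χ x ∧ d y = d x := fun x y e => by
    have h2 : x⁻¹ * y ∈ N := normalClosure_le_normal (N := N) h0 (by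
      rw [← hk, MonoidHom.mem_ker, map_mul, map_inv, e, inv_mul_cancel])
    rw [← mul_inv_cancel_left x y, map_mul, h, h2.1, h2.2, mul_one, smul_zero, add_zero]
    exact ⟨rfl, rfl⟩
  choose σ hσ using hπ
  have h2 : ∀ x y, π (σ x * σ y) = π (σ (x * y)) := fun x y => by rw [map_mul, hσ, hσ, hσ]
  exact ⟨MonoidHom.mk' (fun k => χ (σ k)) fun x y => (h1 _ _ (h2 x y)).1.trans (map_mul _ _ _),
    fun k => d (σ k), fun x y => (h1 _ _ (h2 x y)).2.trans (h _ _),
    fun g => (h1 _ _ (hσ _).symm).1, fun g => (h1 _ _ (hσ _).symm).2⟩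

theorem Kn.normal {m : G} (h : Kn m) : normalClosure {m} = ⊤ := by
  obtain ⟨k, x, h1, h2⟩ := h
  rw [eq_top_iff, ← h1, closure_le]
  rintro _ ⟨i, rfl⟩
  have hm : m ∈ normalClosure {m} := subset_normalClosure rfl
  obtain ⟨g, e | e⟩ := (h2 i).conj <;> rw [e]
  exacts [normalClosure_normal.conj_mem _ hm g, normalClosure_normal.conj_mem _ (inv_mem hm) g]

/-- an odd integer kills all normalised colourings -/
theorem der_exp {m : G} (h : Kn m) (hχ : χ m = -1) (R : Type) [AddCommGroup R] :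
    ∃ r : ℤ, Odd r ∧ ∀ d : G → R, Der χ d → d m = 0 → ∀ g, r • d g = 0 := by
  obtain ⟨k, x, h1, h2⟩ := h
  let δ : G → {d : G → R // Der χ d ∧ d m = 0} → R := fun g d => d.1 g
  have hδ : Der χ δ := fun g h => funext fun d => d.2.1 g h
  have hm : δ m = 0 := funext fun d => d.2.2
  let N : Submodule ℤ ({d : G → R // Der χ d ∧ d m = 0} → R) :=
    Submodule.span ℤ (Set.range fun i => δ (x i))
  have h3 : ∀ g, δ g ∈ N := fun g => by
    induction (h1 ▸ mem_top g : g ∈ closure (Set.range x)) using closure_induction with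
    | mem y hy => obtain ⟨i, rfl⟩ := hy; exact Submodule.subset_span ⟨i, rfl⟩
    | one => rw [hδ.one]; exact N.zero_mem
    | mul y z _ _ e1 e2 => rw [hδ]; exact N.add_mem e1 (N.smul_mem _ e2)
    | inv y _ e1 => rw [hδ.inv]; exact N.neg_mem (N.smul_mem _ e1)
  have h4 : ∀ g z, χ z = -1 → δ z = 0 → δ (g * z * g⁻¹) = (2 : ℤ) • δ g := fun g z e1 e2 => by
    rw [hδ, hδ, hδ.inv, map_mul, e1, e2, smul_zero, add_zero, mul_neg_one, Units.val_neg, neg_smul,
      smul_neg, neg_neg, smul_smul, der_sq, one_smul, two_smul]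
  obtain ⟨r, e1, e2⟩ := Submodule.exists_sub_one_mem_and_smul_eq_zero_of_fg_of_le_smul
    (Ideal.span {(2 : ℤ)}) N (Submodule.fg_span (Set.finite_range _)) (by
      refine Submodule.span_le.2 ?_
      rintro _ ⟨i, rfl⟩
      obtain ⟨g, e | e⟩ := (h2 i).conj <;> simp only [e]
      · rw [h4 g m hχ hm]
        exact Submodule.smul_mem_smul (Ideal.mem_span_singleton_self _) (h3 g)
      · rw [h4 g m⁻¹ (by rw [map_inv, hχ]; rfl) (by rw [hδ.inv, hm, smul_zero, neg_zero])]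
        exact Submodule.smul_mem_smul (Ideal.mem_span_singleton_self _) (h3 g))
  obtain ⟨c, hc⟩ := Ideal.mem_span_singleton.1 e1
  exact ⟨r, ⟨c, by omega⟩, fun d hd h0 g => congrFun (e2 _ (h3 g)) ⟨d, hd, h0⟩⟩

theorem exists_pru : ∃ (R : Type) (_ : AddCommGroup R) (ι : ZMod 3 →+ R), Pru R ι := by
  let P : AddSubgroup UnitAddCircle :=
    { carrier := {x | ∃ j : ℕ, (3 : ℤ) ^ j • x = 0}
      add_mem' := by
        rintro x y ⟨i, hi⟩ ⟨j, hj⟩
        refine ⟨i + j, ?_⟩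
        rw [smul_add, pow_add, mul_smul, mul_smul, hj, smul_comm, hi, smul_zero, smul_zero, add_zero]
      zero_mem' := ⟨0, smul_zero _⟩
      neg_mem' := by
        rintro x ⟨i, hi⟩
        exact ⟨i, by rw [smul_neg, hi, neg_zero]⟩ }
  refine ⟨P, inferInstance, ZMod.toAddCircle.codRestrict P fun c => ⟨1, ?_⟩, fun a b h =>
    ZMod.toAddCircle_injective 3 (congrArg Subtype.val h), fun x => ?_, fun x => ?_, fun x h => ?_⟩
  · rw [← map_zsmul, show (3 : ℤ) ^ 1 • c = 0 by revert c; decide, map_zero]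
  · obtain ⟨j, hj⟩ := x.2
    exact ⟨j, Subtype.ext hj⟩
  · obtain ⟨x, j, hj⟩ := x
    induction x using QuotientAddGroup.induction_on with
    | H r =>
      have e : (3 : ℤ) • ((r / 3 : ℝ) : UnitAddCircle) = r := by
        rw [← AddCircle.coe_zsmul]; congr 1; simp; ring
      exact ⟨⟨(r / 3 : ℝ), j + 1, by rw [pow_succ, mul_smul, e, hj]⟩, Subtype.ext e⟩
  · have h1 : (3 : ℕ) • x.1 = 0 := by
      rw [← natCast_zsmul]; exact congrArg Subtype.val h
    obtain ⟨c, -, hc⟩ := (AddCircle.nsmul_eq_zero_iff (by norm_num)).1 h1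
    refine ⟨(c : ZMod 3), Subtype.ext ?_⟩
    rw [← hc, mul_one]
    exact (ZMod.toAddCircle_natCast c).symm

theorem Pru.unit {ι : ZMod 3 →+ R} (h : Pru R ι) {r : ℤ} (hr : ¬ 3 ∣ r) :
    Function.Bijective fun x : R => r • x := by
  have h1 : ∀ x : R, ∃ u : ℤ, (u * r) • x = x := fun x => by
    obtain ⟨j, hj⟩ := h.tor x
    obtain ⟨v, u, e⟩ : IsCoprime ((3 : ℤ) ^ j) r :=
      ((Int.prime_three.irreducible.coprime_iff_not_dvd).2 hr).pow_left
    refine ⟨u, ?_⟩
    rw [eq_sub_of_add_eq' e, sub_smul, one_smul, mul_smul, hj, smul_zero, sub_zero]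
  refine ⟨fun x y e => ?_, fun x => ?_⟩
  · obtain ⟨u, hu⟩ := h1 (x - y)
    rw [mul_smul, smul_sub, show r • x = r • y from e, sub_self, smul_zero] at hu
    exact sub_eq_zero.1 hu.symm
  · obtain ⟨u, hu⟩ := h1 x
    exact ⟨u • x, (smul_smul _ _ _).trans (by rw [mul_comm, hu])⟩

/-- the action on the multiplicative copy of a module -/
def der_phi (Q M : Type) [Group Q] [AddCommGroup M] [DistribMulAction Q M] :
    Q →* MulAut (Multiplicative M) :=
  MonoidHom.mk' (fun u => AddEquiv.toMultiplicative (DistribMulAction.toAddEquiv M u)) fun u v =>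
    MulEquiv.ext fun x => congrArg Multiplicative.ofAdd (mul_smul u v x.toAdd)

section CH

variable {L : Type} [Group L] {a x c l1 l2 : L} {j : L →* G} {a1 b1 a2 b2 : G}

/-- extension of sign characters and derivations over the two pieces -/
theorem CH.der (h : CH a x c l1 l2 j a1 b1 a2 b2) {χ : L →* ℤˣ} {d : L → R} (hd : Der χ d)
    (h1 : χ l1 = 1) (h2 : χ l2 = 1) (h3 : d l1 = 0) (h4 : d l2 = 0) :
    ∃ (χ' : G →* ℤˣ) (d' : G → R), Der χ' d' ∧ (∀ g, χ' (j g) = χ g) ∧ (∀ g, d' (j g) = d g) ∧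
      χ' a1 = 1 ∧ χ' b1 = 1 ∧ χ' a2 = 1 ∧ χ' b2 = 1 := by
  let f : L →* Multiplicative R ⋊[der_phi ℤˣ R] ℤˣ :=
    MonoidHom.mk' (fun g => ⟨Multiplicative.ofAdd (d g), χ g⟩) fun g k =>
      SemidirectProduct.ext (congrArg Multiplicative.ofAdd (hd g k)) (map_mul χ g k)
  have e : ∀ l, χ l = 1 → d l = 0 → f l = 1 * 1 * 1⁻¹ * 1⁻¹ := fun l e1 e2 => by
    rw [inv_one, mul_one, mul_one, mul_one]
    exact SemidirectProduct.ext (congrArg Multiplicative.ofAdd e2) e1
  have e0 : ∀ t : Multiplicative R ⋊[der_phi ℤˣ R] ℤˣ, Fig 1 1 t := fun t => ⟨by simp, by simp⟩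
  obtain ⟨F, f0, f1, f2, f3, f4⟩ := h.up _ f 1 1 1 1 (e0 _) (e _ h1 h3) (e0 _) (e _ h2 h4)
  refine ⟨SemidirectProduct.rightHom.comp F, fun g => (F g).left.toAdd, fun g k => ?_,
    fun g => congrArg SemidirectProduct.right (f0 g),
    fun g => congrArg (fun z => z.left.toAdd) (f0 g), congrArg SemidirectProduct.right f1,
    congrArg SemidirectProduct.right f2, congrArg SemidirectProduct.right f3,
    congrArg SemidirectProduct.right f4⟩
  simp only [map_mul]
  rfl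

end CH

/-- the crossed homomorphism supported on a piece, for any action in which `t` has order 3 -/
theorem piece_cro {A : Subgroup G} {a b t : G} (h : Piece A a b t)
    (ρ : G →* (V4 ≃ₗ[ZMod 2] V4)) (ha : ρ a = 1) (hb : ρ b = 1)
    (ht : ρ t = sig ∨ ρ t = sig⁻¹) :
    ∃ δ, Cro ρ δ ∧ (∀ g ∈ A, δ g = 0) ∧ δ a ≠ 0 := by
  obtain ⟨a0, b0, h1, h2, h3⟩ : ∃ a b : V4, ρ t a = a + b ∧ ρ t b = b + (a + b) ∧ a ≠ 0 := by
    rcases ht with e | e <;> rw [e]
    · exact ⟨(1, 0), (1, 1), by decide⟩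
    · exact ⟨(1, 0), (0, 1), by decide⟩
  let i : Multiplicative V4 →* Multiplicative V4 ⋊[der_phi (V4 ≃ₗ[ZMod 2] V4) V4] _ :=
    SemidirectProduct.inl
  have hc : ∀ v : V4, .inr (ρ t) * i (.ofAdd v) * (.inr (ρ t))⁻¹ = i (.ofAdd (ρ t v)) := fun v => by
    rw [← map_inv]
    exact (SemidirectProduct.inl_aut _ _).symm
  obtain ⟨F, f1, f2, f3⟩ := h.up _ (SemidirectProduct.inr.comp (ρ.comp A.subtype))
    (i (.ofAdd a0)) (i (.ofAdd b0)) ⟨(hc a0).trans (by rw [h1, ofAdd_add, map_mul]),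
      (hc b0).trans (by rw [h2, ofAdd_add, ofAdd_add, map_mul, map_mul])⟩ (by
      rw [← map_inv i, ← map_inv i, ← map_mul i, ← map_mul i, ← map_mul i, mul_inv_cancel_comm,
        mul_inv_cancel, map_one]
      simp [ha, hb])
  have e1 : ∀ g ∈ A, F g = .inr (ρ g) := fun g hg => f1 ⟨g, hg⟩
  have e2 : SemidirectProduct.rightHom.comp F = ρ := by
    refine MonoidHom.eq_of_eqOn_dense (s := A ∪ {a, b, t})
      (by rw [Subgroup.closure_union, closure_eq, h.gen]) ?_
    rintro g (hg | rfl | rfl | rfl)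
    · simp [e1 g hg]
    · simp [f2, ha, i]
    · simp [f3, hb, i]
    · simp [e1 _ h.tA]
  refine ⟨fun g => (F g).left.toAdd, fun g k => ?_, fun g hg => by simp [e1 g hg],
    by simpa [f2, i] using h3⟩
  simp only [map_mul, ← e2]
  rfl

/-- the action of `S₃ = GL₂(F₂)` defined by a 3-colouring -/
theorem exists_rho {κ : G → ZMod 3} (h : Der χ κ) : ∃ (ρ : G →* (V4 ≃ₗ[ZMod 2] V4))
    (τ : V4 ≃ₗ[ZMod 2] V4), (∀ v, τ v = (v.2, v.1)) ∧ (∀ g, χ g = 1 → κ g = 0 → ρ g = 1) ∧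
    (∀ g, χ g = -1 → κ g = 0 → ρ g = τ) ∧
    ∀ g, χ g = 1 → κ g ≠ 0 → ρ g = sig ∨ ρ g = sig⁻¹ := by
  let τ : V4 ≃ₗ[ZMod 2] V4 := LinearEquiv.prodComm _ _ _
  let r : ZMod 3 → ℤˣ → (V4 ≃ₗ[ZMod 2] V4) := fun k u =>
    (if k = 0 then 1 else if k = 1 then sig else sig⁻¹) * if u = 1 then 1 else τ
  have hr : ∀ (u v : ℤˣ) (k l : ZMod 3) (w : V4),
      r (k + (u : ℤ) • l) (u * v) w = r k u (r l v w) := by
    intro u v
    rcases Int.units_eq_one_or u with rfl | rfl <;> rcases Int.units_eq_one_or v with rfl | rfl <;>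
      decide
  refine ⟨MonoidHom.mk' (fun g => r (κ g) (χ g)) fun g k => LinearEquiv.ext fun w => ?_, τ,
    fun _ => rfl, fun g e1 e2 => ?_, fun g e1 e2 => ?_, fun g e1 e2 => ?_⟩
  · rw [h, map_mul, hr]; rfl
  · simp [r, e1, e2]
  · simp [r, e1, e2]
  · by_cases e3 : κ g = 1 <;> simp [r, e1, e2, e3]

end Pool.Agent.MP_b13154_gt.H69
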