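import Pool.Agent.MP_b13154_gt.H69.Defs

namespace Pool.Agent.MP_b13154_gt.H69

open Pool.Agent.MP_b13154_gt.H25 Subgroup

def fa : FreeGroup Bool := FreeGroup.of false
def fb : FreeGroup Bool := FreeGroup.of true
def fl : FreeGroup Bool := fb * fa * fb⁻¹ * fa⁻¹

/-- the monodromy of the figure eight knot -/
def phi : FreeGroup Bool →* FreeGroup Bool :=
  FreeGroup.lift fun z => if z then fb * (fa * fb) else fa * fb

namespace Grow

/-- the inverse of the monodromy -/
def psi : FreeGroup Bool →* FreeGroup Bool :=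
  FreeGroup.lift fun z => if z then fb * fa⁻¹ else fa * fa * fb⁻¹

theorem phi_a : phi fa = fa * fb := by simp [phi, fa]
theorem phi_b : phi fb = fb * (fa * fb) := by simp [phi, fb]
theorem psi_a : psi fa = fa * fa * fb⁻¹ := by simp [psi, fa]
theorem psi_b : psi fb = fb * fa⁻¹ := by simp [psi, fb]

theorem hom_ext {H : Type} [Group H] {f g : FreeGroup Bool →* H} (ha : f fa = g fa)
    (hb : f fb = g fb) (w : FreeGroup Bool) : f w = g w :=
  DFunLike.congr_fun (FreeGroup.ext_hom f g fun z => by cases z; exacts [ha, hb]) w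

theorem psi_phi (w : FreeGroup Bool) : psi (phi w) = w :=
  hom_ext (f := psi.comp phi) (g := MonoidHom.id _) (by simp [phi_a, psi_a, psi_b])
    (by simp [phi_b, psi_a, psi_b]) w

theorem phi_psi (w : FreeGroup Bool) : phi (psi w) = w :=
  hom_ext (f := phi.comp psi) (g := MonoidHom.id _) (by simp [psi_a, phi_a, phi_b]; group)
    (by simp [psi_b, phi_a, phi_b]; group) w

theorem phi_l : phi fl = fl := by
  simp only [fl, map_mul, map_inv, phi_a, phi_b]; group

theorem iter_l (k : ℕ) (p : ℤ) : phi^[k] (fl ^ p) = fl ^ p := by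
  induction k with
  | zero => rfl
  | succ k ih => rw [Function.iterate_succ_apply', ih, map_zpow, phi_l]

/-- positive words -/
def pos (V : List Bool) : FreeGroup Bool := FreeGroup.mk (V.map fun x => (x, true))

theorem pos_nil : pos [] = 1 := rfl

theorem pos_append (V U : List Bool) : pos (V ++ U) = pos V * pos U := by
  simp [pos, FreeGroup.mul_mk]

theorem pos_cons (x : Bool) (U : List Bool) : pos (x :: U) = FreeGroup.of x * pos U :=
  pos_append [x] U

/-- the substitution on positive words -/
def sub : List Bool → List Bool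
  | [] => []
  | false :: V => false :: true :: sub V
  | true :: V => true :: false :: true :: sub V

theorem phi_pos (V : List Bool) : phi (pos V) = pos (sub V) := by
  induction V with
  | nil => simp [pos_nil, sub]
  | cons x V ih =>
    cases x
    · rw [pos_cons, map_mul, ih, sub, pos_cons, pos_cons, ← mul_assoc]
      exact congrArg (· * _) phi_a
    · rw [pos_cons, map_mul, ih, sub, pos_cons, pos_cons, pos_cons, ← mul_assoc, ← mul_assoc,
        mul_assoc (FreeGroup.of true)]
      exact congrArg (· * _) phi_b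

theorem sub_ab : ∀ V : List Bool, V ≠ [] → ∃ W, sub V = W ++ [false, true]
  | [], h => absurd rfl h
  | [false], _ => ⟨[], rfl⟩
  | [true], _ => ⟨[true], rfl⟩
  | false :: y :: V, _ => by
    obtain ⟨W, hW⟩ := sub_ab (y :: V) (by simp)
    exact ⟨false :: true :: W, by rw [sub, hW]; rfl⟩
  | true :: y :: V, _ => by
    obtain ⟨W, hW⟩ := sub_ab (y :: V) (by simp)
    exact ⟨true :: false :: true :: W, by rw [sub, hW]; rfl⟩

/-- the substitution without its last three letters -/
def tr : List Bool → List Bool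
  | [] => []
  | [_] => []
  | [false, false] => [false]
  | [true, false] => [true, false]
  | false :: V => false :: true :: tr V
  | true :: V => true :: false :: true :: tr V

theorem tr_spec : ∀ V : List Bool, 2 ≤ V.length → sub V = tr V ++ [true, false, true] ∧
    tr V ≠ [] ∧ (tr V).head? = V.head? ∧ (tr V).getLast? = V.getLast? ∧ false ∈ tr V ∧
      (2 ≤ (tr V).length → true ∈ tr V) ∧ (true ∈ V → 2 * V.length ≤ (tr V).length + 2)
  | [], h => by simp at h
  | [_], h => by simp at h
  | [x, y], _ => by cases x <;> cases y <;> simp [tr, sub]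
  | x :: y :: z :: V, _ => by
    obtain ⟨h1, h2, h3, h4, h5, h6, h7⟩ := tr_spec (y :: z :: V) (by simp)
    have h8 := congrArg List.length h1
    have h9 : ∀ V : List Bool, 2 * V.length ≤ (sub V).length := fun V => by
      induction V with
      | nil => simp
      | cons x V ih => cases x <;> simp [sub] <;> omega
    have h10 := h9 (y :: z :: V)
    obtain ⟨u, T, hT⟩ := List.exists_cons_of_ne_nil h2
    cases x
    · rw [show tr (false :: y :: z :: V) = false :: true :: tr (y :: z :: V) by simp [tr], sub, h1]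
      refine ⟨rfl, by simp, rfl, ?_, by simp, by simp, fun h => ?_⟩
      · rw [List.getLast?_cons_cons (a := false) (b := y), ← h4, hT]
        simp only [List.getLast?_cons_cons]
      · have := h7 (by simpa using h)
        simp only [List.length_cons] at this ⊢
        omega
    · rw [show tr (true :: y :: z :: V) = true :: false :: true :: tr (y :: z :: V) by simp [tr],
        sub, h1]
      refine ⟨rfl, by simp, rfl, ?_, by simp, by simp, fun _ => ?_⟩
      · rw [List.getLast?_cons_cons (a := true) (b := y), ← h4, hT]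
        simp only [List.getLast?_cons_cons]
      · simp only [List.length_cons, List.length_append, List.length_nil] at h8 h10 ⊢
        omega

abbrev Bl : Type := List (List Bool × List Bool)

/-- the part of a word after its first negative block -/
def tl : Bl → List Bool → FreeGroup Bool
  | [], Q => pos Q
  | x :: L, Q => pos x.1 * ((pos x.2)⁻¹ * tl L Q)

def len : Bl → List Bool → ℕ
  | [], Q => Q.length
  | x :: L, Q => x.1.length + x.2.length + len L Q

def Good : List Bool → Bl → List Bool → Prop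
  | P, [], Q => ∀ z, P.head? = some z → Q.head? ≠ some z
  | P, x :: L, Q => (∀ z, P.head? = some z → x.1.head? ≠ some z) ∧
      x.1.getLast? ≠ x.2.getLast? ∧ Good x.2 L Q

theorem pos_mul_tl (W : List Bool) (L : Bl) (Q : List Bool) :
    ∃ L' Q', pos W * tl L Q = tl L' Q' ∧ L'.length = L.length := by
  cases L with
  | nil => exact ⟨[], W ++ Q, (pos_append _ _).symm, rfl⟩
  | cons x L => exact ⟨(W ++ x.1, x.2) :: L, Q, by simp [tl, pos_append, mul_assoc], rfl⟩

/-- a pair of blocks with positive or negative value can be merged -/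
theorem merge (L : Bl) (Q : List Bool) : ∀ P : List Bool,
    (∃ x ∈ L, ∃ W, pos x.1 * (pos x.2)⁻¹ = pos W ∨ pos x.1 * (pos x.2)⁻¹ = (pos W)⁻¹) →
    ∃ P' L' Q', (pos P)⁻¹ * tl L Q = (pos P')⁻¹ * tl L' Q' ∧ L'.length < L.length := by
  induction L with
  | nil => simp
  | cons x L ih =>
    rintro P ⟨y, hy, W, hW⟩
    rcases List.mem_cons.1 hy with rfl | hy
    · rcases hW with h | h
      · obtain ⟨L', Q', h1, h2⟩ := pos_mul_tl W L Q
        exact ⟨P, L', Q', by rw [tl, ← mul_assoc (pos y.1), h, h1], by simp [h2]⟩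
      · exact ⟨W ++ P, L, Q, by rw [tl, ← mul_assoc (pos y.1), h, pos_append]; group, by simp⟩
    · obtain ⟨P', L', Q', h1, h2⟩ := ih x.2 ⟨y, hy, W, hW⟩
      exact ⟨P, (x.1, P') :: L', Q', by rw [tl, h1, tl], by simpa using h2⟩

theorem cancel {P V : List Bool} (h : ¬ ∀ z, P.head? = some z → V.head? ≠ some z) :
    ∃ z P' V', P = z :: P' ∧ V = z :: V' := by
  push Not at h
  obtain ⟨z, h1, h2⟩ := h
  obtain ⟨P', rfl⟩ := List.head?_eq_some_iff.1 h1
  obtain ⟨V', rfl⟩ := List.head?_eq_some_iff.1 h2
  exact ⟨z, P', V', rfl, rfl⟩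

/-- a representation that is not reduced can be shortened -/
theorem shorten (L : Bl) (Q : List Bool) : ∀ P : List Bool, (∀ x ∈ L, x.1 ≠ []) → ¬ Good P L Q →
    ∃ P' L' Q', (pos P)⁻¹ * tl L Q = (pos P')⁻¹ * tl L' Q' ∧ L'.length = L.length ∧
      P'.length + len L' Q' < P.length + len L Q := by
  induction L with
  | nil =>
    intro P _ h
    obtain ⟨z, P', Q', rfl, rfl⟩ := cancel h
    exact ⟨P', [], Q', by simp only [tl, pos_cons]; group, rfl, by simp [len]; omega⟩
  | cons x L ih =>
    obtain ⟨V, U⟩ := x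
    intro P hL h
    by_cases h1 : ∀ z, P.head? = some z → V.head? ≠ some z
    · by_cases h2 : V.getLast? = U.getLast?
      · obtain ⟨V', z, rfl⟩ := (List.eq_nil_or_concat' V).resolve_left (hL _ List.mem_cons_self)
        obtain ⟨U', rfl⟩ := List.getLast?_eq_some_iff.1 (h2.symm.trans List.getLast?_concat)
        exact ⟨P, (V', U') :: L, Q, by simp only [tl, pos_append]; group, rfl,
          by simp [len]; omega⟩
      · obtain ⟨P', L', Q', h3, h4, h5⟩ := ih U (fun x hx => hL x (List.mem_cons_of_mem _ hx))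
          fun h3 => h ⟨h1, h2, h3⟩
        exact ⟨P, (V, P') :: L', Q', by rw [tl, h3, tl], by simp [h4], by simp [len]; omega⟩
    · obtain ⟨z, P', V', rfl, rfl⟩ := cancel h1
      exact ⟨P', (V', U) :: L, Q, by simp only [tl, pos_cons]; group, rfl, by simp [len]; omega⟩

theorem phi_tl (L : Bl) (Q : List Bool) :
    phi (tl L Q) = tl (L.map (Prod.map sub sub)) (sub Q) := by
  induction L with
  | nil => exact phi_pos Q
  | cons x L ih => simp [tl, phi_pos, ih]

theorem short {V U : List Bool} (hU : U ≠ []) (h : V.length = 1) :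
    ∃ W, pos (sub V) * (pos (sub U))⁻¹ = pos W ∨ pos (sub V) * (pos (sub U))⁻¹ = (pos W)⁻¹ := by
  obtain ⟨x, rfl⟩ := List.length_eq_one_iff.1 h
  cases x
  · obtain ⟨W, hW⟩ := sub_ab U hU
    exact ⟨W, .inr (by rw [hW, pos_append]; simp [sub])⟩
  · match U, hU with
    | [false], _ => exact ⟨[true], .inl (by simp only [sub, pos_cons, pos_nil]; group)⟩
    | [true], _ => exact ⟨[], .inl (by simp [pos_nil])⟩
    | y :: z :: U, _ =>
      exact ⟨tr (y :: z :: U),
        .inr (by rw [(tr_spec (y :: z :: U) (by simp)).1, pos_append]; simp [sub])⟩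

/-- all blocks have at least two letters -/
def Long (L : Bl) : Prop := ∀ x ∈ L, 2 ≤ x.1.length ∧ 2 ≤ x.2.length

theorem drop {P Q : List Bool} {L : Bl} (h0 : ∀ x ∈ L, x.1 ≠ [] ∧ x.2 ≠ []) (h : ¬ Long L) :
    ∃ P' L' Q', phi ((pos P)⁻¹ * tl L Q) = (pos P')⁻¹ * tl L' Q' ∧ L'.length < L.length := by
  simp only [Long, not_forall] at h
  obtain ⟨x, hx, h⟩ := h
  have h1 := List.length_pos_iff.2 (h0 x hx).1
  have h2 := List.length_pos_iff.2 (h0 x hx).2
  rw [map_mul, map_inv, phi_pos, phi_tl, ← List.length_map (Prod.map sub sub)]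
  refine merge _ _ _ ⟨_, List.mem_map_of_mem hx, ?_⟩
  by_cases h3 : x.1.length = 1
  · exact short (h0 x hx).2 h3
  · obtain ⟨W, hW⟩ := short (V := x.2) (h0 x hx).1 (by omega)
    refine ⟨W, hW.symm.imp (fun h => ?_) fun h => ?_⟩
    · simpa using congrArg (·⁻¹) h
    · simpa using congrArg (·⁻¹) h

theorem head_sub (P : List Bool) : (sub P).head? = P.head? := by
  match P with
  | [] => rfl
  | false :: _ => rfl
  | true :: _ => rfl

theorem step (L : Bl) (Q : List Bool) (hL : Long L) :
    phi (tl L Q) = tl (L.map (Prod.map tr tr)) (sub Q) ∧ ∀ P P' : List Bool, P'.head? = P.head? →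
      Good P L Q → Good P' (L.map (Prod.map tr tr)) (sub Q) := by
  induction L with
  | nil => exact ⟨phi_pos Q, fun P P' h1 h2 => by simpa [Good, h1, head_sub] using h2⟩
  | cons x L ih =>
    obtain ⟨h1, h2⟩ := ih fun y hy => hL y (List.mem_cons_of_mem _ hy)
    obtain ⟨a1, -, a3, a4, -⟩ := tr_spec x.1 (hL x List.mem_cons_self).1
    obtain ⟨b1, -, b3, b4, -⟩ := tr_spec x.2 (hL x List.mem_cons_self).2
    refine ⟨?_, fun P P' h3 h4 => ⟨?_, ?_, h2 _ _ b3 h4.2.2⟩⟩
    · simp only [tl, map_mul, map_inv, phi_pos, h1, a1, b1, pos_append, List.map_cons,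
        Prod.map_fst, Prod.map_snd]
      group
    · simpa [h3, a3] using h4.1
    · simpa [a4, b4] using h4.2.1

/-- both letters occur in every block -/
def Both (L : Bl) : Prop := ∀ x ∈ L, (false ∈ x.1 ∧ true ∈ x.1) ∧ false ∈ x.2 ∧ true ∈ x.2

theorem two_le {V : List Bool} (h : false ∈ V ∧ true ∈ V) : 2 ≤ V.length := by
  match V, h with
  | [], h => simp at h
  | [x], h => cases x <;> simp at h
  | _ :: _ :: _, _ => simp

theorem Both.long {L : Bl} (h : Both L) : Long L := fun x hx =>
  ⟨two_le (h x hx).1, two_le (h x hx).2⟩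

theorem both_of {L : Bl} (h : Long L) (h' : Long (L.map (Prod.map tr tr))) :
    Both (L.map (Prod.map tr tr)) := fun x hx => by
  have h1 := h' x hx
  obtain ⟨y, hy, rfl⟩ := List.mem_map.1 hx
  obtain ⟨-, -, -, -, a5, a6, -⟩ := tr_spec y.1 (h y hy).1
  obtain ⟨-, -, -, -, b5, b6, -⟩ := tr_spec y.2 (h y hy).2
  exact ⟨⟨a5, a6 h1.1⟩, b5, b6 h1.2⟩

/-- some iterate has a reduced word all of whose inner blocks contain both letters -/
theorem nice (n : ℕ) : ∀ (m : ℕ) (P : List Bool) (L : Bl) (Q : List Bool), L.length = n →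
    P.length + len L Q = m → ∃ k P' L' Q', phi^[k] ((pos P)⁻¹ * tl L Q) = (pos P')⁻¹ * tl L' Q' ∧
      Good P' L' Q' ∧ Both L' := by
  induction n using Nat.strong_induction_on with
  | _ n ih =>
    intro m
    induction m using Nat.strong_induction_on with
    | _ m im =>
      rintro P L Q rfl rfl
      by_cases h0 : ∀ x ∈ L, x.1 ≠ [] ∧ x.2 ≠ []
      swap
      · obtain ⟨P', L', Q', h1, h2⟩ := merge L Q P (by
          push Not at h0
          obtain ⟨x, hx, h⟩ := h0
          by_cases h1 : x.1 = []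
          · exact ⟨x, hx, x.2, .inr (by simp [h1, pos_nil])⟩
          · exact ⟨x, hx, x.1, .inl (by simp [h h1, pos_nil])⟩)
        exact h1 ▸ ih _ h2 _ P' L' Q' rfl rfl
      by_cases h1 : Good P L Q
      swap
      · obtain ⟨P', L', Q', h2, h3, h4⟩ := shorten L Q P (fun x hx => (h0 x hx).1) h1
        exact h2 ▸ im _ h4 P' L' Q' h3 rfl
      by_cases h2 : Long L
      swap
      · obtain ⟨P', L', Q', h3, h4⟩ := drop (P := P) (Q := Q) h0 h2
        obtain ⟨k, h5⟩ := ih _ h4 _ P' L' Q' rfl rfl
        exact ⟨k + 1, by rwa [Function.iterate_succ_apply, h3]⟩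
      obtain ⟨h3, h4⟩ := step L Q h2
      have h5 : phi ((pos P)⁻¹ * tl L Q) = (pos (sub P))⁻¹ * tl (L.map (Prod.map tr tr)) (sub Q) :=
        by rw [map_mul, map_inv, phi_pos, h3]
      by_cases h6 : Long (L.map (Prod.map tr tr))
      · exact ⟨1, _, _, _, h5, h4 _ _ (head_sub P) h1, both_of h2 h6⟩
      · obtain ⟨P', L', Q', h7, h8⟩ := drop (P := sub P) (Q := sub Q) (fun x hx => by
          obtain ⟨y, hy, rfl⟩ := List.mem_map.1 hx
          exact ⟨(tr_spec _ (h2 y hy).1).2.1, (tr_spec _ (h2 y hy).2).2.1⟩) h6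
        obtain ⟨k, h9⟩ := ih _ (by simpa using h8) _ P' L' Q' rfl rfl
        exact ⟨k + 1 + 1, by rwa [Function.iterate_succ_apply, Function.iterate_succ_apply, h5, h7]⟩

theorem rep (w : FreeGroup Bool) : ∃ P L Q, w = (pos P)⁻¹ * tl L Q := by
  obtain ⟨W, rfl⟩ : ∃ W, FreeGroup.mk W = w := ⟨_, FreeGroup.mk_toWord⟩
  induction W with
  | nil => exact ⟨[], [], [], by simp [tl, pos_nil, FreeGroup.one_eq_mk]⟩
  | cons x W ih =>
    obtain ⟨P, L, Q, h⟩ := ih
    obtain ⟨x, s⟩ := x
    rw [← List.singleton_append, ← FreeGroup.mul_mk, h]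
    cases s
    · exact ⟨P ++ [x], L, Q, by rw [pos_append, mul_inv_rev, mul_assoc]; rfl⟩
    · exact ⟨[], ([x], P) :: L, Q, by rw [pos_nil, inv_one, one_mul]; rfl⟩

/-- the word of a representation -/
def wd : Bl → List Bool → List (Bool × Bool)
  | [], Q => Q.map fun x => (x, true)
  | x :: L, Q => x.1.map (fun x => (x, true)) ++
      (FreeGroup.invRev (x.2.map fun x => (x, true)) ++ wd L Q)

theorem mk_wd (L : Bl) (Q : List Bool) : FreeGroup.mk (wd L Q) = tl L Q := by
  induction L with
  | nil => rfl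
  | cons x L ih => rw [wd, ← FreeGroup.mul_mk, ← FreeGroup.mul_mk, ← FreeGroup.inv_mk, ih]; rfl

theorem length_wd (L : Bl) (Q : List Bool) : (wd L Q).length = len L Q := by
  induction L with
  | nil => simp [wd, len]
  | cons x L ih => simp [wd, len, ih, add_assoc]

theorem red_same (s : Bool) (V : List Bool) : FreeGroup.IsReduced (V.map fun x => (x, s)) := by
  rw [FreeGroup.IsReduced, List.isChain_map]
  exact List.Pairwise.isChain (List.pairwise_of_forall fun _ _ _ => rfl)

theorem invRev_map (V : List Bool) :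
    FreeGroup.invRev (V.map fun x => (x, true)) = V.reverse.map fun x => (x, false) := by
  simp [FreeGroup.invRev, Function.comp_def]

theorem red (L : Bl) (Q : List Bool) : ∀ P : List Bool, Long L → Good P L Q →
    FreeGroup.IsReduced (FreeGroup.invRev (P.map fun x => (x, true)) ++ wd L Q) := by
  induction L with
  | nil =>
    intro P _ h
    rw [invRev_map]
    refine List.IsChain.append (red_same _ _) (red_same _ _) ?_
    simp only [wd, List.getLast?_map, List.head?_map, List.getLast?_reverse, Option.mem_def,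
      Option.map_eq_some_iff]
    rintro _ ⟨a, ha, rfl⟩ _ ⟨b, hb, rfl⟩ (rfl : a = b)
    exact absurd hb (h a ha)
  | cons x L ih =>
    intro P hL h
    obtain ⟨h1, h2⟩ := hL x List.mem_cons_self
    obtain ⟨V, U⟩ := x
    have h3 := ih U (fun y hy => hL y (List.mem_cons_of_mem _ hy)) h.2.2
    obtain ⟨v, V', hV⟩ := List.exists_cons_of_length_pos (two_pos.trans_le h1)
    obtain ⟨U', u, rfl⟩ := (List.eq_nil_or_concat' U).resolve_left (by rintro rfl; simp at h2)
    rw [invRev_map, wd]
    refine List.IsChain.append (red_same _ _) (List.IsChain.append (red_same _ _) h3 ?_) ?_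
    · simp only [invRev_map, List.getLast?_map, Option.mem_def, Option.map_eq_some_iff]
      rintro _ ⟨a, ha, rfl⟩ b hb hab
      have := h.2.1
      simp only [List.reverse_append, List.reverse_singleton, List.map_cons,
        List.cons_append, List.head?_cons, Option.some.injEq] at hb
      subst hb
      simp only at hab
      simp [ha, hab] at this
    · simp only [List.getLast?_map, List.getLast?_reverse, Option.mem_def, Option.map_eq_some_iff]
      rintro _ ⟨a, ha, rfl⟩ b hb hab
      have := h.1 a ha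
      subst hV
      simp only [List.map_cons, List.cons_append, List.head?_cons, Option.some.injEq] at hb
      subst hb
      simp only at hab
      simp [hab] at this

theorem norm_eq {P Q : List Bool} {L : Bl} (hL : Long L) (h : Good P L Q) :
    FreeGroup.norm ((pos P)⁻¹ * tl L Q) = P.length + len L Q := by
  rw [pos, FreeGroup.inv_mk, ← mk_wd, FreeGroup.mul_mk, FreeGroup.norm, FreeGroup.toWord_mk,
    (red L Q P hL h).reduce_eq]
  simp [length_wd]

theorem len_sub (V : List Bool) : 2 * V.length ≤ (sub V).length := by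
  induction V with
  | nil => simp
  | cons x V ih => cases x <;> simp [sub] <;> omega

theorem len_step (L : Bl) (Q : List Bool) (h : Both L) : Both (L.map (Prod.map tr tr)) ∧
    2 * len L Q ≤ len (L.map (Prod.map tr tr)) (sub Q) + 4 * L.length := by
  have k : ∀ V : List Bool, false ∈ V ∧ true ∈ V → 2 * V.length ≤ (tr V).length + 2 := fun V h =>
    (tr_spec V (two_le h)).2.2.2.2.2.2 h.2
  refine ⟨both_of h.long fun x hx => ?_, ?_⟩
  · obtain ⟨y, hy, rfl⟩ := List.mem_map.1 hx
    have := k _ (h y hy).1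
    have := k _ (h y hy).2
    have := h.long y hy
    simp only [Prod.map_fst, Prod.map_snd]
    omega
  · induction L with
    | nil => simpa [len] using len_sub Q
    | cons x L ih =>
      have := ih fun y hy => h y (List.mem_cons_of_mem _ hy)
      have := k _ (h x List.mem_cons_self).1
      have := k _ (h x List.mem_cons_self).2
      simp only [len, List.map_cons, Prod.map_fst, Prod.map_snd, List.length_cons]
      omega

theorem grows (j : ℕ) {P Q : List Bool} {L : Bl} (h1 : Good P L Q) (h2 : Both L)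
    (h3 : 4 * L.length < P.length + len L Q) : ∃ P' L' Q',
      phi^[j] ((pos P)⁻¹ * tl L Q) = (pos P')⁻¹ * tl L' Q' ∧ Good P' L' Q' ∧ Both L' ∧
        4 * L'.length + 2 ^ j ≤ P'.length + len L' Q' := by
  induction j with
  | zero => exact ⟨P, L, Q, rfl, h1, h2, h3⟩
  | succ j ih =>
    obtain ⟨P', L', Q', a1, a2, a3, a4⟩ := ih
    obtain ⟨b1, b2⟩ := step L' Q' a3.long
    obtain ⟨c1, c2⟩ := len_step L' Q' a3
    have := len_sub P'
    refine ⟨sub P', _, sub Q', ?_, b2 _ _ (head_sub _) a2, c1, ?_⟩
    · rw [Function.iterate_succ_apply', a1, map_mul, map_inv, phi_pos, b1]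
    · rw [List.length_map, pow_succ]; omega

theorem flat (L : Bl) (Q : List Bool) : ∀ P : List Bool, Good P L Q → Both L →
    4 * L.length ≤ len L Q ∧ (len L Q ≤ 4 * L.length → tl L Q ∈ zpowers fl) := by
  induction L with
  | nil =>
    refine fun P _ _ => ⟨by simp, fun h => ?_⟩
    obtain rfl : Q = [] := by simpa [len] using h
    exact one_mem _
  | cons x L ih =>
    intro P h1 h2
    obtain ⟨a1, a2⟩ := ih x.2 h1.2.2 fun y hy => h2 y (List.mem_cons_of_mem _ hy)
    obtain ⟨b1, b2⟩ := h2.long x List.mem_cons_self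
    obtain ⟨c1, c2⟩ := h2 x List.mem_cons_self
    have c3 := h1.2.1
    obtain ⟨V, U⟩ := x
    simp only [len, List.length_cons] at *
    refine ⟨by omega, fun h => ?_⟩
    rw [tl, ← mul_assoc]
    refine mul_mem ?_ (a2 (by omega))
    obtain ⟨a, b, rfl⟩ := List.length_eq_two.1 (by omega : V.length = 2)
    obtain ⟨c, d, rfl⟩ := List.length_eq_two.1 (by omega : U.length = 2)
    cases a <;> cases b <;> cases c <;> cases d <;> simp at c1 c2 c3
    · exact ⟨-1, by simp [pos_cons, pos_nil, fl, fa, fb, mul_assoc]⟩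
    · exact ⟨1, by simp [pos_cons, pos_nil, fl, fa, fb, mul_assoc]⟩

end Grow

open Grow in
/-- row GROW: only powers of the boundary word grow linearly -/
theorem growth (w : FreeGroup Bool) (i C : ℕ) (hi : 0 < i)
    (h : ∀ k, FreeGroup.norm (phi^[i * k] w) ≤ C * (k + 1)) : w ∈ zpowers fl := by
  obtain ⟨P0, L0, Q0, h0⟩ := rep w
  obtain ⟨k0, P, L, Q, h1, h2, h3⟩ := nice _ _ P0 L0 Q0 rfl rfl
  rw [← h0] at h1
  obtain ⟨h4, h5⟩ := flat L Q P h2 h3
  by_cases h6 : 4 * L.length < P.length + len L Q
  · exfalso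
    have h7 : ∀ k, k0 ≤ k → 2 ^ (k - k0) ≤ C * (k + 1) := fun k hk => by
      have e : k ≤ i * k := Nat.le_mul_of_pos_left k hi
      obtain ⟨P', L', Q', a1, a2, a3, a4⟩ := grows (i * k - k0) h2 h3 h6
      rw [← h1, ← Function.iterate_add_apply, Nat.sub_add_cancel (hk.trans e)] at a1
      have a5 := h k
      rw [a1, norm_eq a3.long a2] at a5
      have := Nat.pow_le_pow_right two_pos (by omega : k - k0 ≤ i * k - k0)
      omega
    have h8 := h7 (k0 + 2 * (C + k0 + 2)) (by omega)
    rw [Nat.add_sub_cancel_left, two_mul, pow_add] at h8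
    have h9 := Nat.lt_two_pow_self (n := C + k0 + 1)
    rw [pow_succ 2 (C + k0 + 1)] at h8
    nlinarith
  · obtain rfl : P = [] := List.length_eq_zero_iff.1 (by omega)
    obtain ⟨p, hp⟩ := mem_zpowers_iff.1 (h5 (by simpa using h6))
    rw [pos_nil, inv_one, one_mul, ← hp, ← iter_l k0 p] at h1
    exact ⟨p, ((Function.LeftInverse.injective psi_phi).iterate k0 h1).symm⟩

end Pool.Agent.MP_b13154_gt.H69
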