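import Pool.Agent.MP_b13154_gt.H69.Der

namespace Pool.Agent.MP_b13154_gt.H69

open Pool.Agent.MP_b13154_gt.H25 Subgroup

variable {R : Type} [AddCommGroup R] {n : ℕ}

theorem link_w1 {G H : Type} [Group G] [Group H] (f : G →* H) (s : ℕ) (a x l : G) :
    f (w1 s a x l) = w1 s (f a) (f x) (f l) := by
  simp only [w1, map_mul, map_pow, map_inv]

theorem link_w2 {G H : Type} [Group G] [Group H] (f : G →* H) (s : ℕ) (x c l : G) :
    f (w2 s x c l) = w2 s (f x) (f c) (f l) := by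
  simp only [w2, map_mul, map_pow, map_inv]

theorem link_congr {K : Diag n} {j s : ℕ} {H : Type} [Group H] {e e' : ℕ → H} {β x l1 l2 : H}
    (h : ACol K j s e β x l1 l2) (he : ∀ i, i ≤ 2 * n ∨ i = j → e' i = e i) :
    ACol K j s e' β x l1 l2 := by
  have e0 := he 0 (Or.inl (Nat.zero_le _))
  have eN := he (2 * n) (Or.inl le_rfl)
  refine ⟨fun p hp => ?_, by rw [eN]; exact h.c1, by rw [e0]; exact h.c2,
    by rw [e0, eN]; exact h.rel, by rw [eN]; exact h.b1,
    by rw [e0, he j (Or.inr rfl)]; exact h.b2⟩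
  have := K.t_lt hp
  rw [he p (by omega), he (p + 1) (by omega), he (K.t p) (by omega), he (K.t p + 1) (by omega)]
  exact h.cr p hp

/-- row LINK (a) -/
theorem exists_ulink (K : Diag n) (j s : ℕ) : ∃ (L : Type) (_ : Group L) (e : ℕ → L)
    (β x l1 l2 : L), ULink K j s e β x l1 l2 := by
  classical
  let F := FreeGroup (ℕ ⊕ Fin 4)
  let e : ℕ → F := fun i => FreeGroup.of (.inl i)
  let g : Fin 4 → F := fun i => FreeGroup.of (.inr i)
  let P : ∀ (H : Type) [Group H], (F →* H) → Prop := fun H _ f =>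
    ACol K j s (fun i => f (e i)) (f (g 0)) (f (g 1)) (f (g 2)) (f (g 3)) ∧
      ∀ i, ¬ (i ≤ 2 * n ∨ i = j) → f (e i) = 1
  let N : Subgroup F :=
    { carrier := {r | ∀ (H : Type) [Group H] (f : F →* H), P H f → f r = 1}
      one_mem' := fun H _ f _ => map_one f
      mul_mem' := fun ha hb H _ f hf => by rw [map_mul, ha H f hf, hb H f hf, one_mul]
      inv_mem' := fun ha H _ f hf => by rw [map_inv, ha H f hf, inv_one] }
  have : N.Normal := ⟨fun r hr u H _ f hf => by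
    rw [map_mul, map_mul, hr H f hf, map_inv, mul_one, mul_inv_cancel]⟩
  let q : F →* F ⧸ N := QuotientGroup.mk' N
  have k1 : ∀ r : F, (∀ (H : Type) [Group H] (f : F →* H), P H f → f r = 1) → q r = 1 :=
    fun r hr => (QuotientGroup.eq_one_iff r).2 hr
  have k2 : ∀ u v : F, (∀ (H : Type) [Group H] (f : F →* H), P H f → f u = f v) → q u = q v :=
    fun u v h => by
      have := k1 (u * v⁻¹) fun H _ f hf => by rw [map_mul, map_inv, h H f hf, mul_inv_cancel]
      rwa [map_mul, map_inv, mul_inv_eq_one] at this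
  have col : ACol K j s (fun i => q (e i)) (q (g 0)) (q (g 1)) (q (g 2)) (q (g 3)) := by
    refine ⟨fun p hp => ?_, ?_, ?_, ?_, ?_, ?_⟩
    · rw [← apply_ite q, ← apply_ite q]
      refine (Diag.cross_map q _ _ _ _ _ _).1 fun r hr => k1 r fun H _ f hf => ?_
      refine (Diag.cross_map f _ _ _ _ _ _).2 ?_ r hr
      rw [apply_ite f, apply_ite f]
      exact hf.1.cr p hp
    · have := k2 ((e (2 * n))⁻¹ * g 1 * g 2) (g 2 * ((e (2 * n))⁻¹ * g 1)) fun H _ f hf => by
        rw [map_mul, map_mul, map_mul, map_mul, map_inv]; exact hf.1.c1.eq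
      rw [map_mul, map_mul, map_mul, map_mul, map_inv] at this
      exact this
    · have := k2 ((g 1)⁻¹ * e 0 * g 3) (g 3 * ((g 1)⁻¹ * e 0)) fun H _ f hf => by
        rw [map_mul, map_mul, map_mul, map_mul, map_inv]; exact hf.1.c2.eq
      rw [map_mul, map_mul, map_mul, map_mul, map_inv] at this
      exact this
    · have := k2 (w1 s (e (2 * n)) (g 1) (g 2) * e (2 * n) * (w1 s (e (2 * n)) (g 1) (g 2))⁻¹)
        (w2 s (g 1) (e 0) (g 3) * e 0 * (w2 s (g 1) (e 0) (g 3))⁻¹) fun H _ f hf => by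
        simpa only [map_mul, map_inv, link_w1, link_w2] using hf.1.rel
      simpa only [map_mul, map_inv, link_w1, link_w2] using this
    · have := k2 (g 0) (w1 s (e (2 * n)) (g 1) (g 2) * ((e (2 * n))⁻¹ * (g 1)⁻¹ * e (2 * n)) *
        (w1 s (e (2 * n)) (g 1) (g 2))⁻¹) fun H _ f hf => by
        simpa only [map_mul, map_inv, link_w1, link_w2] using hf.1.b1
      simpa only [map_mul, map_inv, link_w1, link_w2] using this
    · have := k2 (e j) (w2 s (g 1) (e 0) (g 3) * ((e 0)⁻¹ * (g 1)⁻¹ * e 0) *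
        (w2 s (g 1) (e 0) (g 3))⁻¹) fun H _ f hf => by
        simpa only [map_mul, map_inv, link_w1, link_w2] using hf.1.b2
      simpa only [map_mul, map_inv, link_w1, link_w2] using this
  refine ⟨F ⧸ N, inferInstance, fun i => q (e i), q (g 0), q (g 1), q (g 2), q (g 3), col,
    fun S h0 h1 h2 h3 h4 => ?_, fun H _ e' β' x' l1' l2' h => ?_⟩
  · have : S.comap q = ⊤ := by
      rw [eq_top_iff, ← FreeGroup.closure_range_of, closure_le]
      rintro _ ⟨i | i, rfl⟩
      · show q (e i) ∈ S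
        by_cases hi : i ≤ 2 * n
        · exact h0 i hi
        by_cases hj : i = j
        · have c0 := h0 0 (Nat.zero_le _)
          have hw : w2 s (q (g 1)) (q (e 0)) (q (g 3)) ∈ S :=
            S.mul_mem (S.inv_mem (S.pow_mem (S.mul_mem (S.inv_mem h2) c0) _)) h4
          rw [hj, col.b2]
          exact S.mul_mem (S.mul_mem hw (S.mul_mem (S.mul_mem (S.inv_mem c0) (S.inv_mem h2)) c0))
            (S.inv_mem hw)
        · rw [k1 (e i) fun H _ f hf => hf.2 i (by tauto)]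
          exact S.one_mem
      · show q (g i) ∈ S
        fin_cases i
        exacts [h1, h2, h3, h4]
    rw [eq_top_iff]
    intro y _
    obtain ⟨u, rfl⟩ := QuotientGroup.mk'_surjective N y
    exact (this ▸ mem_top u : u ∈ S.comap q)
  · let f : F →* H := FreeGroup.lift
      (Sum.elim (fun i => if i ≤ 2 * n ∨ i = j then e' i else 1) ![β', x', l1', l2'])
    have f1 : ∀ i, f (e i) = if i ≤ 2 * n ∨ i = j then e' i else 1 := fun i => FreeGroup.lift_apply_of
    have f2 : ∀ i, f (g i) = ![β', x', l1', l2'] i := fun i => FreeGroup.lift_apply_of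
    have hf : P H f := ⟨by
      rw [f2, f2, f2, f2]
      exact link_congr h fun i hi => by rw [f1, if_pos hi], fun i hi => by rw [f1, if_neg hi]⟩
    refine ⟨QuotientGroup.lift N f fun r hr => hr H f hf, fun i hi => ?_, f2 0, f2 1, f2 2, f2 3⟩
    exact (f1 i).trans (if_pos (Or.inl hi))

theorem link_ext {K : Diag n} {j s : ℕ} {L H : Type} [Group L] [Group H] {e : ℕ → L}
    {β x l1 l2 : L} (h : ULink K j s e β x l1 l2) {f g : L →* H}
    (h0 : ∀ i ≤ 2 * n, f (e i) = g (e i)) (h1 : f β = g β) (h2 : f x = g x) (h3 : f l1 = g l1)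
    (h4 : f l2 = g l2) (y : L) : f y = g y :=
  (h.gen (f.eqLocus g) h0 h1 h2 h3 h4 ▸ mem_top y : y ∈ f.eqLocus g)

theorem link_mer {K : Diag n} {j s : ℕ} {L : Type} [Group L] {e : ℕ → L} {β x l1 l2 : L}
    (h : ACol K j s e β x l1 l2) (hK : K.IsKnot) : ∀ i ≤ 2 * n, Mer (e (2 * n)) (e i) := by
  have hb : Mer x β := by rw [h.b1]; exact ((Mer.rfl' x).inv.cj' _).cj _
  have hj : Mer x (e j) := by rw [h.b2]; exact ((Mer.rfl' x).inv.cj' _).cj _
  have k : ∀ p, Mer (e p) (if p = j then β else e p) := fun p => by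
    split_ifs with hp
    · rw [hp]; exact hj.symm'.trans' hb
    · exact Mer.rfl' _
  refine K.knot_pred hK _ (fun p hp => ?_) ?_
  · have := (h.cr p hp).mer
    exact ⟨fun h => ((h.trans' (k p)).trans' this.1).trans' (k _).symm', fun h => h.trans' this.2⟩
  · have h1 : Mer (e (2 * n)) _ := (Mer.rfl' _).cj (w1 s (e (2 * n)) x l1)
    rw [h.rel] at h1
    exact h1.trans' ((Mer.rfl' _).cj _).symm'

theorem link_pi {K : Diag n} {j s : ℕ} {L : Type} [Group L] {e : ℕ → L} {β x l1 l2 : L}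
    (h : ULink K j s e β x l1 l2) (hj : j < 2 * n) : ∃ π : L →* K.grp, Function.Surjective π ∧
      π.ker = normalClosure {w1 s (e (2 * n)) x l1, w2 s x (e 0) l2} ∧ π (e (2 * n)) = K.mer ∧
      π x = K.mer * (K.x j)⁻¹ * K.mer⁻¹ := by
  have x0 := K.x_zero
  have xN := K.x_close
  have u1 : ∀ {H : Type} [Group H] (a x : H), w1 s a x ((a⁻¹ * x) ^ s)⁻¹ = 1 := fun a x => by
    simp only [w1, mul_inv_cancel]
  have u2 : ∀ {H : Type} [Group H] (x c : H), w2 s x c ((x⁻¹ * c) ^ s) = 1 := fun a x => by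
    simp only [w2, inv_mul_cancel]
  obtain ⟨π, p0, p1, p2, p3, p4⟩ := h.up K.grp K.x (K.x j) (K.mer * (K.x j)⁻¹ * K.mer⁻¹)
    ((K.mer⁻¹ * (K.mer * (K.x j)⁻¹ * K.mer⁻¹)) ^ s)⁻¹
    (((K.mer * (K.x j)⁻¹ * K.mer⁻¹)⁻¹ * K.mer) ^ s)
    ⟨fun p hp => by
      have k : ∀ p, (if p = j then K.x j else K.x p) = K.x p := fun p => by
        split_ifs with hp
        · rw [hp]
        · rfl
      rw [k, k]; exact K.x_lcol p hp,
     by rw [xN]; exact ((Commute.refl _).pow_right _).inv_right,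
     by rw [x0]; exact (Commute.refl _).pow_right _,
     by rw [x0, xN, u1, u2],
     by rw [xN, u1]; group,
     by rw [x0, u2]; group⟩
  have pN : π (e (2 * n)) = K.mer := (p0 _ le_rfl).trans xN
  have pc : π (e 0) = K.mer := (p0 _ (Nat.zero_le _)).trans x0
  refine ⟨π, ?_, le_antisymm ?_ (normalClosure_le_normal ?_), pN, p2⟩
  · rw [← MonoidHom.range_eq_top]
    exact K.gen _ fun i hi => ⟨e i, p0 i hi⟩
  · set W := normalClosure ({w1 s (e (2 * n)) x l1, w2 s x (e 0) l2} : Set L) with hW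
    let q : L →* L ⧸ W := QuotientGroup.mk' W
    have q1 : q (w1 s (e (2 * n)) x l1) = 1 :=
      (QuotientGroup.eq_one_iff _).2 (subset_normalClosure (Or.inl rfl))
    have q2 : q (w2 s x (e 0) l2) = 1 :=
      (QuotientGroup.eq_one_iff _).2 (subset_normalClosure (Or.inr rfl))
    have r1 : q (e (2 * n)) = q (e 0) := by
      simpa only [map_mul, map_inv, q1, q2, one_mul, inv_one, mul_one] using congrArg q h.col.rel
    have r2 : q β = (q (e 0))⁻¹ * (q x)⁻¹ * q (e 0) := by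
      simpa only [map_mul, map_inv, q1, r1, one_mul, inv_one, mul_one] using congrArg q h.col.b1
    have r3 : q (e j) = (q (e 0))⁻¹ * (q x)⁻¹ * q (e 0) := by
      simpa only [map_mul, map_inv, q2, one_mul, inv_one, mul_one] using congrArg q h.col.b2
    obtain ⟨g, hg⟩ := K.lift (c := fun i => q (e i)) fun p hp => by
      have k : ∀ p, q (if p = j then β else e p) = q (e p) := fun p => by
        split_ifs with hp
        · rw [hp, r2, r3]
        · rfl
      have := (h.col.cr p hp).map q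
      rwa [k, k] at this
    have gm : g K.mer = q (e 0) := x0 ▸ hg 0 (Nat.zero_le _)
    have gx : g (K.mer * (K.x j)⁻¹ * K.mer⁻¹) = q x := by
      rw [map_mul, map_mul, map_inv, map_inv, gm, hg j hj.le, r3]; group
    have key : ∀ y, (g.comp π) y = q y := link_ext h
      (fun i hi => by rw [MonoidHom.comp_apply, p0 i hi, hg i hi])
      (by rw [MonoidHom.comp_apply, p1, hg j hj.le, r2, r3])
      (by rw [MonoidHom.comp_apply, p2, gx])
      (by
        rw [MonoidHom.comp_apply, p3, map_inv, map_pow, map_mul, map_inv, gx, gm]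
        rw [link_w1, w1, r1] at q1
        exact inv_eq_of_mul_eq_one_right q1)
      (by
        rw [MonoidHom.comp_apply, p4, map_pow, map_mul, map_inv, gx, gm]
        rw [link_w2, w2] at q2
        exact inv_mul_eq_one.1 q2)
    intro y hy
    have := key y
    rw [MonoidHom.comp_apply, MonoidHom.mem_ker.1 hy, map_one] at this
    exact (QuotientGroup.eq_one_iff y).1 this.symm
  · rintro _ (rfl | rfl)
    · show π _ = 1
      rw [link_w1, pN, p2, p3, u1]
    · show π _ = 1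
      rw [link_w2, pc, p2, p4, u2]

theorem link_psi {K : Diag n} {j s : ℕ} {L : Type} [Group L] {e : ℕ → L} {β x l1 l2 : L}
    (h : ULink K j s e β x l1 l2) (u v : ℤ) : ∃ ψ : L →* Multiplicative ℤ,
      val ψ (e (2 * n)) = 0 ∧ val ψ l1 = u ∧ val ψ l2 = v := by
  obtain ⟨ψ, p0, -, -, p3, p4⟩ := h.up (Multiplicative ℤ) (fun _ => 1) 1 1
    (Multiplicative.ofAdd u) (Multiplicative.ofAdd v)
    ⟨fun p hp => by
      have := Cr.of_comm (s := K.s p) (o := K.o p) (Commute.refl (1 : Multiplicative ℤ))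
      simpa only [ite_self, inv_one] using this,
     Commute.all _ _, Commute.all _ _, by simp, by simp, by simp⟩
  exact ⟨ψ, by rw [val, p0 _ le_rfl]; rfl, by rw [val, p3]; rfl, by rw [val, p4]; rfl⟩

open DihedralGroup in
theorem link_dih : ∃ (χ : DihedralGroup 0 →* ℤˣ) (ξ : DihedralGroup 0 → ℤ), Der χ ξ ∧
    (∀ i, χ (r i) = 1) ∧ (∀ i, χ (sr i) = -1) ∧ (∀ i : ℤ, ξ (r i) = i) ∧
    ∀ i : ℤ, ξ (sr i) = -i := by
  let χ0 : DihedralGroup 0 → ℤˣ := fun g => match g with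
    | r _ => 1
    | sr _ => -1
  let ξ : DihedralGroup 0 → ℤ := fun g => match g with
    | r i => (i : ℤ)
    | sr i => -(i : ℤ)
  refine ⟨MonoidHom.mk' χ0 ?_, ξ, ?_, fun _ => rfl, fun _ => rfl, fun _ => rfl, fun _ => rfl⟩
  · rintro (a | a) (b | b) <;> simp [χ0]
  · rintro (a | a) (b | b)
    · show (a + b : ℤ) = a + ((1 : ℤˣ) : ℤ) • (b : ℤ)
      simp
    · show -(b - a : ℤ) = a + ((1 : ℤˣ) : ℤ) • -(b : ℤ)
      simp; ring
    · show -(a + b : ℤ) = -a + ((-1 : ℤˣ) : ℤ) • (b : ℤ)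
      simp; ring
    · show (b - a : ℤ) = -a + ((-1 : ℤˣ) : ℤ) • -(b : ℤ)
      simp; ring

theorem link_cr2 {L : Type} [Group L] {O : Subgroup L} (f : O →* Multiplicative (ZMod 2))
    {s o : Bool} {b a b' a' : L} (h : Cr s o b a b' a') (h1 : b ∈ O) (h2 : a ∈ O) (h3 : b' ∈ O)
    (h4 : a' ∈ O) : f ⟨b', h3⟩ = f ⟨b, h1⟩ ∧ f ⟨a', h4⟩ = f ⟨a, h2⟩ := by
  have hi : ∀ z : Multiplicative (ZMod 2), z⁻¹ = z := by decide
  have := ((Cr.of_map (b := ⟨b, h1⟩) (a := ⟨a, h2⟩) (b' := ⟨b', h3⟩) (a' := ⟨a', h4⟩) O.subtype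
    O.subtype_injective h).map f).mer
  simpa only [Mer, isConj_iff_eq, hi, or_self] using this

open DihedralGroup in
theorem link_xi {K : Diag n} {j s : ℕ} {L : Type} [Group L] {e : ℕ → L} {β x l1 l2 : L}
    (h : ULink K j s e β x l1 l2) (hK : K.IsKnot) :
    ∃ (χ : L →* ℤˣ) (ξ : L → ℤ) (O : Subgroup L), χ (e (2 * n)) = -1 ∧ χ l1 = 1 ∧ χ l2 = 1 ∧
    Der χ ξ ∧ ξ (e (2 * n)) = 0 ∧ ξ (e 0) = 0 ∧ ξ x = -2 ∧ ξ l1 = -(2 * s + 1) ∧
    ξ l2 = -(2 * s + 1) ∧ (∀ g ∈ O, ξ g = 0) ∧ O ⊔ closure {e (2 * n), x, e 0, l1, l2} = ⊤ ∧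
    ∀ f : O →* Multiplicative (ZMod 2),
      (∀ g : O, g.1 ∈ closure ({e (2 * n), x, e 0, l1, l2} : Set L) → f g = 1) → f = 1 := by
  obtain ⟨χ, ξ, hd, c1, c2, d1, d2⟩ := link_dih
  have v1 : w1 s (sr 0 : DihedralGroup 0) (sr 2) (r (-(2 * s + 1))) = r (-1) := by
    simp only [w1, inv_sr, sr_mul_sr, r_pow, r_mul_r]
    congr 1; ring
  have v2 : w2 s (sr 2 : DihedralGroup 0) (sr 0) (r (-(2 * s + 1))) = r (-1) := by
    simp only [w2, inv_sr, sr_mul_sr, r_pow, r_mul_r, inv_r]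
    congr 1; ring
  have v3 : (sr 0 : DihedralGroup 0) = r (-1) * ((sr 0)⁻¹ * (sr 2)⁻¹ * sr 0) * (r (-1))⁻¹ := by
    simp only [inv_sr, sr_mul_sr, r_mul_sr, sr_mul_r, inv_r]
    congr 1
  obtain ⟨f, p0, p1, p2, p3, p4⟩ := h.up (DihedralGroup 0) (fun _ => sr 0) (sr 0) (sr 2)
    (r (-(2 * s + 1))) (r (-(2 * s + 1)))
    ⟨fun p hp => by
      have := Cr.of_comm (s := K.s p) (o := K.o p) (Commute.refl (sr 0 : DihedralGroup 0))
      simpa only [ite_self, inv_sr] using this,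
     by simp only [Commute, SemiconjBy, inv_sr, sr_mul_sr, r_mul_r, add_comm],
     by simp only [Commute, SemiconjBy, inv_sr, sr_mul_sr, r_mul_r, add_comm],
     by rw [v1, v2], by rw [v1]; exact v3, by rw [v2]; exact v3⟩
  let O : Subgroup L := closure ({g | ∃ i ≤ 2 * n, g = e i} ∪ {β})
  have o1 : ∀ i ≤ 2 * n, e i ∈ O := fun i hi => subset_closure (Or.inl ⟨i, hi, rfl⟩)
  have o2 : β ∈ O := subset_closure (Or.inr rfl)
  set C := closure ({e (2 * n), x, e 0, l1, l2} : Set L) with hC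
  have m1 : e (2 * n) ∈ C := subset_closure (by simp)
  have m2 : x ∈ C := subset_closure (by simp)
  have m3 : e 0 ∈ C := subset_closure (by simp)
  have m4 : l1 ∈ C := subset_closure (by simp)
  have m5 : l2 ∈ C := subset_closure (by simp)
  refine ⟨χ.comp f, fun g => ξ (f g), O, ?_, ?_, ?_, fun g g' => ?_, ?_, ?_, ?_, ?_, ?_,
    fun g hg => ?_, ?_, fun F hF => ?_⟩
  · rw [MonoidHom.comp_apply, p0 _ le_rfl, c2]
  · rw [MonoidHom.comp_apply, p3, c1]
  · rw [MonoidHom.comp_apply, p4, c1]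
  · simp only [map_mul, MonoidHom.comp_apply]
    exact hd _ _
  · simp only [p0 _ le_rfl]; exact d2 0
  · simp only [p0 _ (Nat.zero_le _)]; exact d2 0
  · simp only [p2]; exact d2 2
  · simp only [p3]; exact d1 _
  · simp only [p4]; exact d1 _
  · have : f g = r 0 ∨ f g = sr 0 := by
      induction hg using closure_induction with
      | mem y hy =>
        rcases hy with ⟨i, hi, rfl⟩ | rfl
        exacts [Or.inr (p0 i hi), Or.inr p1]
      | one => exact Or.inl (map_one f)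
      | mul y z _ _ hy hz =>
        rw [map_mul]
        rcases hy with hy | hy <;> rcases hz with hz | hz <;> rw [hy, hz] <;> simp
      | inv y _ hy =>
        rw [map_inv]
        rcases hy with hy | hy <;> rw [hy] <;> simp
    rcases this with h | h <;> simp only [h]
    exacts [d1 0, d2 0]
  · exact h.gen _ (fun i hi => mem_sup_left (o1 i hi)) (mem_sup_left o2) (mem_sup_right m2)
      (mem_sup_right m4) (mem_sup_right m5)
  · have hw1 : w1 s (e (2 * n)) x l1 ∈ C :=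
      C.mul_mem (C.pow_mem (C.mul_mem (C.inv_mem m1) m2) _) m4
    have hw2 : w2 s x (e 0) l2 ∈ C :=
      C.mul_mem (C.inv_mem (C.pow_mem (C.mul_mem (C.inv_mem m2) m3) _)) m5
    have n1 : β ∈ C := by
      rw [h.col.b1]
      exact C.mul_mem (C.mul_mem hw1 (C.mul_mem (C.mul_mem (C.inv_mem m1) (C.inv_mem m2)) m1))
        (C.inv_mem hw1)
    have n2 : e j ∈ C := by
      rw [h.col.b2]
      exact C.mul_mem (C.mul_mem hw2 (C.mul_mem (C.mul_mem (C.inv_mem m3) (C.inv_mem m2)) m3))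
        (C.inv_mem hw2)
    have k1 : ∀ p ≤ 2 * n, (if p = j then β else e p) ∈ O := fun p hp => by
      split_ifs
      exacts [o2, o1 p hp]
    have k2 : ∀ p (hp : p ≤ 2 * n), F ⟨_, k1 p hp⟩ = F ⟨_, o1 p hp⟩ := fun p hp => by
      by_cases hj : p = j
      · rw [hF ⟨_, o1 p hp⟩ (hj ▸ n2), hF ⟨_, k1 p hp⟩ (by simpa only [if_pos hj] using n1)]
      · simp only [if_neg hj]
    have k3 := K.knot_pred hK (fun i => ∀ hi : i ≤ 2 * n, F ⟨e i, o1 i hi⟩ = 1) (fun p hp => by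
      have ht := K.t_lt hp
      have := link_cr2 F (h.col.cr p hp) (k1 p hp.le) (o1 _ hp) (k1 _ ht.le) (o1 _ ht)
      rw [k2 _ ht.le, k2 _ hp.le] at this
      exact ⟨fun h _ => this.1.trans (h hp.le), fun h _ => this.2.trans (h hp)⟩)
      fun _ => hF _ m3
    ext ⟨g, hg⟩
    show F ⟨g, hg⟩ = 1
    induction hg using closure_induction with
    | mem y hy =>
      rcases hy with ⟨i, hi, rfl⟩ | rfl
      exacts [k3 i hi hi, hF _ n1]
    | one => exact map_one F
    | mul y z hy' hz' hy hz =>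
      exact (map_mul F ⟨y, hy'⟩ ⟨z, hz'⟩).trans (by rw [hy, hz, one_mul])
    | inv y hy' hy => exact (map_inv F ⟨y, hy'⟩).trans (by rw [hy, inv_one])

/-- row LINK (b) -/
theorem ULink.lk {K : Diag n} {j s : ℕ} {L : Type} [Group L] {e : ℕ → L} {β x l1 l2 : L}
    (h : ULink K j s e β x l1 l2) (hK : K.IsKnot) (hS : Site R K j) :
    LK R K.mer s (e (2 * n)) x (e 0) l1 l2 ∧ ∀ i ≤ 2 * n, Mer (e (2 * n)) (e i) := by
  have hm := link_mer h.col hK
  refine ⟨⟨h.col.c1, h.col.c2, h.col.rel, ?_, ?_, ?_, link_xi h hK⟩, hm⟩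
  · have hj : Mer x (e j) := by rw [h.col.b2]; exact ((Mer.rfl' x).inv.cj' _).cj _
    exact (hm j hS.lt.le).trans' hj.symm'
  · obtain ⟨π, p1, p2, p3, p4⟩ := link_pi h hS.lt
    refine ⟨π, p1, p2, p3, ?_, fun hx => hS.ess ?_, ?_⟩
    · rw [p4]
      exact (isConj_iff.2 ⟨K.mer⁻¹, by group⟩).trans hS.conj
    · rw [p4] at hx
      have hz := mem_zpowers K.mer
      have := inv_mem (mul_mem (mul_mem (inv_mem hz) hx) hz)
      rwa [show (K.mer⁻¹ * (K.mer * (K.x j)⁻¹ * K.mer⁻¹) * K.mer)⁻¹ = K.x j by group] at this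
    · rw [map_mul, map_inv, p3, p4,
        show K.mer⁻¹ * (K.mer * (K.x j)⁻¹ * K.mer⁻¹) = (K.x j)⁻¹ * K.mer⁻¹ by group]
      exact hS.top
  · obtain ⟨ψ1, a1, a2, a3⟩ := link_psi h 1 0
    obtain ⟨ψ2, b1, b2, b3⟩ := link_psi h 0 1
    exact ⟨ψ1, ψ2, a1, a2, a3, b1, b2, b3⟩

end Pool.Agent.MP_b13154_gt.H69
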