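import Pool.Agent.MP_b13154_gt.H69.Der

namespace Pool.Agent.MP_b13154_gt.H69

open Pool.Agent.MP_b13154_gt.H25 Subgroup

variable {R : Type} [AddCommGroup R] {n : ℕ}

theorem diag_kn {K : Diag n} (h : K.IsKnot) : Kn K.mer :=
  ⟨2 * n + 1, PresentedGroup.of, PresentedGroup.closure_range_of _, h⟩

section

variable {G G' : Type} [Group G] [Group G'] {χ : G →* ℤˣ} {d : G → R} {m u : G}

theorem site_chi (h : Mer m u) (hm : χ m = -1) : χ u = -1 := by
  rcases h.map χ with h | h <;> rw [isConj_iff_eq.1 h, hm]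
  rfl

theorem site_inv (h : Der χ d) (hu : χ u = -1) : d u⁻¹ = d u := by
  rw [h.inv, hu]; simp

theorem site_val (h : Der χ d) (hu : χ u = -1) (hm : χ m = -1) : d (u⁻¹ * m⁻¹) = d u - d m := by
  rw [h, site_inv h hu, site_inv h hm, map_inv, hu]; simp [sub_eq_add_neg]

theorem site_smul (h : Der χ d) (r : ℤ) : Der χ fun g => r • d g := fun g g' => by
  simp only [h g g', smul_add, smul_comm r]

/-- subtracting half of a principal derivation -/
theorem site_sub (h : Der χ d) (y : R) : Der χ fun g => d g - if χ g = 1 then 0 else y := by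
  intro g g'
  simp only [h g g', map_mul]
  rcases Int.units_eq_one_or (χ g) with a | a <;> rcases Int.units_eq_one_or (χ g') with b | b <;>
    simp [a, b] <;> abel

theorem site_top (e : G' ≃* G) {m' u' : G'} (h1 : e m' = m ∨ e m' = m⁻¹)
    (h2 : e u' = u ∨ e u' = u⁻¹) (hu : Mer m u) (h : Top R m (u⁻¹ * m⁻¹)) :
    Top R m' (u'⁻¹ * m'⁻¹) := by
  intro χ' hχ'
  let χ : G →* ℤˣ := χ'.comp e.symm.toMonoidHom
  have c : ∀ g, χ (e g) = χ' g := fun g => congrArg χ' (e.symm_apply_apply g)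
  have hm : χ m = -1 := by
    rcases h1 with h1 | h1
    · rw [← h1, c, hχ']
    · rw [← inv_inv m, ← h1, map_inv, c, hχ']; rfl
  have hu1 := site_chi hu hm
  have k : ∀ {d : G → R} {v w : G}, Der χ d → χ v = -1 → w = v ∨ w = v⁻¹ → d w = d v := by
    rintro d v w hd hv (rfl | rfl)
    exacts [rfl, site_inv hd hv]
  have hu' : χ' u' = -1 := by
    rw [← c]
    rcases h2 with h2 | h2 <;> rw [h2]
    · exact hu1
    · rw [map_inv, hu1]; rfl
  obtain ⟨a, a1, a2⟩ := h χ hm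
  refine ⟨a, fun d hd h0 g => ?_, a2.imp_right fun ⟨d, hd, h0, h3⟩ => ?_⟩
  · have hd' : Der χ fun g => d (e.symm g) := fun g g' => by
      simp only [map_mul]; exact hd _ _
    have := a1 _ hd' ((k hd' hm h1).symm.trans (by simpa only [e.symm_apply_apply] using h0)) (e g)
    simpa only [e.symm_apply_apply] using this
  · have hd' : Der χ' fun g => d (e g) := fun g g' => by
      simp only [map_mul]; rw [← c]; exact hd _ _
    refine ⟨_, hd', (k hd hm h1).trans h0, ?_⟩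
    rw [site_val hd' hu' hχ', k hd hm h1, k hd hu1 h2, ← site_val hd hu1 hm]
    exact h3

theorem site_odd (h : Der χ d) (hm : χ m = -1) (hu : χ u = -1) (hz : u ∈ zpowers m) :
    d u = d m := by
  obtain ⟨k, rfl⟩ := mem_zpowers_iff.1 hz
  have h2 : χ (m ^ (2 : ℤ)) = 1 := by rw [map_zpow, hm]; rfl
  have h3 : d (m ^ (2 : ℤ)) = 0 := by rw [zpow_two, h, hm]; simp
  obtain ⟨i, rfl | rfl⟩ := Int.even_or_odd' k
  · rw [zpow_mul, map_zpow, h2, one_zpow] at hu
    exact absurd hu (by decide)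
  · rw [zpow_add, zpow_one, h, zpow_mul, h.zpow h2, h3, map_zpow, h2]; simp

theorem site_not_mem (e : G' ≃* G) {m' u' : G'} (h1 : e m' = m ∨ e m' = m⁻¹)
    (h2 : e u' = u ∨ e u' = u⁻¹) (h : u ∉ zpowers m) : u' ∉ zpowers m' := by
  intro hz
  have h3 : e m' ∈ zpowers m := by
    rcases h1 with h1 | h1 <;> rw [h1]
    exacts [mem_zpowers m, inv_mem (mem_zpowers m)]
  obtain ⟨k, rfl⟩ := mem_zpowers_iff.1 hz
  have h4 := zpow_mem h3 k
  rw [← map_zpow] at h4
  rcases h2 with h2 | h2 <;> rw [h2] at h4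
  exacts [h h4, h (inv_mem_iff.1 h4)]

end

theorem site_point {ι : ZMod 3 →+ R} (hR : Pru R ι) {K : Diag n} (h : K.IsPrime) :
    ∃ p < 2 * n, K.x (p + 1) ∉ zpowers (K.x p) ∧
      Top R (K.x p) ((K.x (p + 1))⁻¹ * (K.x p)⁻¹) := by
  classical
  have hk := K.isKnot_iff.1 h.1
  obtain ⟨φ, hφ⟩ := K.hasPhi
  let χ : K.grp →* ℤˣ := (zpowersHom ℤˣ (-1)).comp φ
  have hχ : χ K.mer = -1 := by
    show (-1 : ℤˣ) ^ val φ K.mer = -1
    rw [hφ, zpow_one]
  have hx : ∀ i ≤ 2 * n, χ (K.x i) = -1 := fun i hi => site_chi (hk i hi) hχ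
  have uniq : ∀ p ≤ 2 * n, ∀ χ' : K.grp →* ℤˣ, χ' (K.x p) = -1 → χ' = χ := fun p hp χ' h' =>
    K.hom_ext fun i hi => by rw [hx i hi, site_chi ((hk p hp).symm'.trans' (hk i hi)) h']
  let E : ℕ → Prop := fun a => ∀ d : K.grp → R, Der χ d → ∀ g, χ g = 1 → (3 : ℤ) ^ a • d g = 0
  have hE : ∃ a, E a := by
    obtain ⟨r, hr, h0⟩ := der_exp (diag_kn h.1) hχ R
    obtain ⟨a, r', h1, rfl⟩ := WfDvdMonoid.max_power_factor (a₀ := r) (x := 3)
      (by rintro rfl; exact absurd hr (by decide)) Int.prime_three.irreducible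
    refine ⟨a, fun d hd g hg => (hR.unit h1).1 ?_⟩
    have := h0 _ (site_sub hd (d K.mer)) (by simp [hχ]) g
    simpa only [hg, if_true, sub_zero, smul_zero, smul_smul, mul_comm r'] using this
  have E1 : ∀ a, E a → ∀ p ≤ 2 * n, ∀ d : K.grp → R, Der χ d → d (K.x p) = 0 →
      ∀ g, (3 : ℤ) ^ a • d g = 0 := fun a ha p hp d hd h0 g => by
    rcases Int.units_eq_one_or (χ g) with c | c
    · exact ha d hd g c
    · have := ha d hd (g * K.x p) (by rw [map_mul, c, hx p hp]; rfl)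
      rwa [hd, h0, smul_zero, add_zero] at this
  rcases Nat.eq_zero_or_pos (Nat.find hE) with h0 | h0
  · have : ∃ p < 2 * n, K.x (p + 1) ∉ zpowers (K.x p) := by
      by_contra hc
      push Not at hc
      refine h.2.1 (K.cyc fun i hi => ?_)
      induction i with
      | zero => exact K.x_zero ▸ mem_zpowers _
      | succ k ih => exact zpowers_le.2 (ih (by omega)) (hc k hi)
    obtain ⟨p, hp, h1⟩ := this
    refine ⟨p, hp, h1, fun χ' h' => ?_⟩
    rw [uniq p hp.le χ' h']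
    exact ⟨_, E1 _ (Nat.find_spec hE) p hp.le, Or.inl h0⟩
  · have hn := Nat.find_min hE (Nat.sub_one_lt h0.ne')
    simp only [E, not_forall] at hn
    obtain ⟨d, hd, g, hg, h1⟩ := hn
    have hd' := site_smul hd (3 ^ (Nat.find hE - 1))
    have : ∃ p < 2 * n, (3 : ℤ) ^ (Nat.find hE - 1) • d (K.x (p + 1)) ≠
        (3 : ℤ) ^ (Nat.find hE - 1) • d (K.x p) := by
      by_contra hc
      push Not at hc
      have h2 : ∀ i ≤ 2 * n, (3 : ℤ) ^ (Nat.find hE - 1) • d (K.x i) =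
          (3 : ℤ) ^ (Nat.find hE - 1) • d (K.x 0) := fun i hi => by
        induction i with
        | zero => rfl
        | succ k ih => exact (hc k hi).trans (ih (by omega))
      have := (site_sub hd' ((3 : ℤ) ^ (Nat.find hE - 1) • d (K.x 0))).eq_zero
        (S := {y | ∃ i ≤ 2 * n, y = K.x i})
        (K.gen _ fun i hi => subset_closure ⟨i, hi, rfl⟩)
        (by
          rintro _ ⟨i, hi, rfl⟩
          simp only [hx i hi, h2 i hi]
          rw [if_neg (by decide), sub_self]) g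
      exact h1 (by simpa only [hg, if_true, sub_zero] using this)
    obtain ⟨p, hp, h2⟩ := this
    have c1 := hx p hp.le
    have c2 := hx (p + 1) hp
    refine ⟨p, hp, fun hz => h2 (by have := site_odd hd' c1 c2 hz; exact this), fun χ' h' => ?_⟩
    rw [uniq p hp.le χ' h']
    refine ⟨_, E1 _ (Nat.find_spec hE) p hp.le, Or.inr ⟨_, site_sub hd (d (K.x p)), ?_, ?_⟩⟩
    · simp only [c1]
      rw [if_neg (by decide), sub_self]
    · have : χ ((K.x (p + 1))⁻¹ * (K.x p)⁻¹) = 1 := by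
        rw [map_mul, map_inv, map_inv, c1, c2]; rfl
      simp only [this, if_true, sub_zero, site_val hd c2 c1, smul_sub]
      exact sub_ne_zero.2 h2

theorem site_flip (D : Diag n) (hD : D.IsKnot) : ∃ D' : Diag n, D'.IsKnot ∧
    MIso D.mer D'.mer ∧ (∀ p < 2 * n, D'.s p = !D.s p) ∧ ∃ e : D'.grp ≃* D.grp,
      ∀ i ≤ 2 * n, e (D'.x i) = (D.x i)⁻¹ := by
  obtain ⟨D', h0, h⟩ := exists_D n (fun p => p < 2 * n) id D.t (fun p => !D.s p) D.o
    (fun y z _ _ h => h) (fun z hz => hz) (fun P hP => ⟨P, hP, rfl⟩) (fun z => D.t_lt)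
    (fun z hz => ⟨D.t_t hz, D.t_ne hz, by rw [D.s_t hz], D.o_t hz⟩)
    (fun y z hy hz h => D.pl hy hz (by simpa using h))
  obtain ⟨h1, h2, e, he⟩ := D.sim_of D' (fun i => (D.x i)⁻¹) (fun i => (D'.x i)⁻¹)
    ((h _ _).2 fun p hp => (D.x_lcol p hp).flip)
    (fun p hp => by simpa using ((h _ _).1 D'.x_lcol p hp).flip)
    (fun i hi => (D.isKnot_iff.1 hD i hi).inv) (fun f hf i hi => by simp [hf i hi])
    (fun f hf i hi => by simp only [map_inv, hf i hi, inv_inv])
  exact ⟨D', h1, h2, h0, e, he⟩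

theorem site_fin {D : Diag n} (hD : D.IsKnot) {j : ℕ} (h0 : 0 < j) (hj : j < 2 * n)
    (hs : ∀ p < j, D.s p = true) (h1 : D.x j ∉ zpowers D.mer) (h2 : IsConj (D.x j) D.mer)
    (h3 : Top R D.mer ((D.x j)⁻¹ * D.mer⁻¹)) :
    ∃ D' : Diag n, D'.IsKnot ∧ MIso D.mer D'.mer ∧ Site R D' j := by
  obtain ⟨D', k, i, s, e, he⟩ := site_flip D hD
  have e0 : e D'.mer = D.mer⁻¹ := by
    rw [← Diag.x_zero, ← Diag.x_zero]; exact he 0 (Nat.zero_le _)
  have ej := he j hj.le
  refine ⟨D', k, i, h0, hj, fun p hp => by rw [s p (hp.trans hj), hs p hp]; rfl,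
    site_not_mem e (Or.inr e0) (Or.inr ej) h1, ?_,
    site_top e (Or.inr e0) (Or.inr ej) (Or.inl h2) h3⟩
  have := isConj_inv h2
  rw [← e0, ← ej] at this
  simpa only [MulEquiv.toMonoidHom_eq_coe, MonoidHom.coe_coe, MulEquiv.symm_apply_apply] using
    e.symm.toMonoidHom.map_isConj this

/-- row SITE -/
theorem exists_site {ι : ZMod 3 →+ R} (hR : Pru R ι) {K : Diag n} (h : K.IsPrime) :
    ∃ k ≤ n + 1, ∃ (K' : Diag k) (j : ℕ), K'.IsKnot ∧ MIso K.mer K'.mer ∧ Site R K' j := by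
  obtain ⟨p, hp, a1, a2⟩ := site_point hR h
  have hk := K.isKnot_iff.1 h.1
  obtain ⟨D1, k1, i1, e1, h1⟩ := K.rot h.1 p hp.le
  obtain ⟨D2, k2, i2, s2, e2, h2⟩ := D1.flip k1 (p := 0) (by omega)
  have b0 : e1 (D1.x 0) = K.x p := by rw [h1 _ (by omega)]; congr 1; split_ifs <;> omega
  have b1 : e1 (D1.x 1) = K.x (p + 1) := by rw [h1 _ (by omega)]; congr 1; split_ifs <;> omega
  have c0 : (e2.trans e1) D2.mer = K.x p ∨ (e2.trans e1) D2.mer = (K.x p)⁻¹ := by
    rw [← Diag.x_zero, MulEquiv.trans_apply]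
    exact h2.imp (fun h => by rw [h 0 (by omega), b0]) fun h => by rw [h 0 (by omega), map_inv, b0]
  have c1 : (e2.trans e1) (D2.x 1) = K.x (p + 1) ∨ (e2.trans e1) (D2.x 1) = (K.x (p + 1))⁻¹ := by
    rw [MulEquiv.trans_apply]
    exact h2.imp (fun h => by rw [h 1 (by omega), b1]) fun h => by rw [h 1 (by omega), map_inv, b1]
  have d1 := site_not_mem _ c0 c1 a1
  have d2 := site_top _ c0 c1 ((hk p hp.le).symm'.trans' (hk _ hp)) a2
  rcases D2.isKnot_iff.1 k2 1 (by omega) with hc | hc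
  · obtain ⟨D', k, i, s⟩ := site_fin k2 one_pos (by omega)
      (fun q hq => by rwa [show q = 0 by omega]) d1 hc d2
    exact ⟨n, by omega, D', 1, k, (i1.trans i2).trans i, s⟩
  obtain ⟨D3, k3, i3, s3, s3', e3, h3, h3'⟩ := D2.kink k2 (by omega) s2
  obtain ⟨D', k, i, s⟩ := site_fin (R := R) k3 two_pos (by omega)
    (fun q hq => by
      interval_cases q
      exacts [s3, s3'])
    (site_not_mem e3 (Or.inl h3) (Or.inr h3') d1)
    (by
      have := isConj_inv hc
      rw [inv_inv, ← h3, ← h3'] at this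
      simpa only [MulEquiv.toMonoidHom_eq_coe, MonoidHom.coe_coe, MulEquiv.symm_apply_apply] using
        e3.symm.toMonoidHom.map_isConj this)
    (site_top e3 (Or.inl h3) (Or.inr h3') (Or.inr hc) d2)
  exact ⟨n + 1, le_rfl, D', 2, k, ((i1.trans i2).trans i3).trans i, s⟩

end Pool.Agent.MP_b13154_gt.H69
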