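import Pool.Agent.MP_b13154_gt.H69.Prime
import Pool.Agent.MP_b13154_gt.H69.Count
import Pool.Agent.MP_b13154_gt.H69.Site
import Pool.Agent.MP_b13154_gt.H69.Link
import Pool.Agent.MP_b13154_gt.H69.Child

namespace Pool.Agent.MP_b13154_gt.H69

open Pool.Agent.MP_b13154_gt.H25 Subgroup

variable {R : Type} [AddCommGroup R] {n : ℕ}

theorem ACol.map {K : Diag n} {j s : ℕ} {H H' : Type} [Group H] [Group H'] {e : ℕ → H}
    {β x l1 l2 : H} (h : ACol K j s e β x l1 l2) (f : H →* H') :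
    ACol K j s (fun i => f (e i)) (f β) (f x) (f l1) (f l2) where
  cr p hp := by simpa only [apply_ite f] using (h.cr p hp).map f
  c1 := by simpa only [map_mul, map_inv] using h.c1.map f
  c2 := by simpa only [map_mul, map_inv] using h.c2.map f
  rel := by simpa only [w1, w2, map_mul, map_inv, map_pow] using congrArg f h.rel
  b1 := by simpa only [w1, w2, map_mul, map_inv, map_pow] using congrArg f h.b1
  b2 := by simpa only [w1, w2, map_mul, map_inv, map_pow] using congrArg f h.b2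

/-- row MAIN (a) -/
theorem child {ι : ZMod 3 →+ R} (hR : Pru R ι) {K : Diag n} (h : K.IsPrime) {s : ℕ}
    (hs : s % 9 = 1) : ∃ k ≤ n + 4 * s + 35, ∃ D : Diag k, D.IsPrime ∧
      ∃ S : TD R D.mer, S.s = s ∧ MIso K.mer S.mK := by
  obtain ⟨k, hk, K', j, hK', hi, hS⟩ := exists_site hR h
  obtain ⟨L, _, e, β, x, l1, l2, hU⟩ := exists_ulink K' j s
  obtain ⟨hlk, hmer⟩ := hU.lk hK' hS
  obtain ⟨D, e', β', x', a1, b1, a2, b2, d1, d2, d3, d4, d5, d6, d7⟩ :=
    exists_child K' j s hS.pos hS.lt hS.side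
  obtain ⟨f, f1, f2, f3, f4, f5⟩ := hU.up _ _ _ _ _ _ d1
  have fa : f (e (2 * k)) = D.mer := (f1 _ le_rfl).trans d4
  have hch : CH (e (2 * k)) x (e 0) l1 l2 f a1 b1 a2 b2 := by
    refine ⟨?_, ?_, f4, f5, ?_, ?_⟩
    · rwa [map_mul, map_inv, f1 _ le_rfl, f3]
    · rwa [map_mul, map_inv, f1 _ (Nat.zero_le _), f3]
    · refine d5 _ (fun i hi => mem_sup_left ⟨_, f1 i hi⟩) (mem_sup_left ⟨_, f2⟩)
        (mem_sup_left ⟨_, f3⟩) ?_ ?_ ?_ ?_ <;> exact mem_sup_right (subset_closure (by simp))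
    · intro H _ g a1' b1' a2' b2' g1 g2 g3 g4
      have := hU.col.map g
      rw [g2, g4] at this
      obtain ⟨F, F1, F2, F3, F4, F5, F6, F7⟩ := d7 H _ _ _ _ _ _ _ this
        (by simpa only [map_mul, map_inv] using g1) (by simpa only [map_mul, map_inv] using g3)
      refine ⟨F, fun z => ?_, F4, F5, F6, F7⟩
      have : (F.comp f).eqLocus g = ⊤ := by
        refine hU.gen _ (fun i hi => ?_) ?_ ?_ ?_ ?_
        · show F (f _) = _
          rw [f1 i hi, F1 i hi]
        · show F (f _) = _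
          rw [f2, F2]
        · show F (f _) = _
          rw [f3, F3]
        · show F (f _) = _
          simp only [f4, g2, map_mul, map_inv, F4, F5]
        · show F (f _) = _
          simp only [f5, g4, map_mul, map_inv, F6, F7]
      exact (this ▸ mem_top z : z ∈ (F.comp f).eqLocus g)
  have hD : D.IsKnot := d6 (fun i hi => by rw [← fa, ← f1 i hi]; exact (hmer i hi).map f)
    (by rw [← fa, ← f3]; exact hlk.mx.map f)
  let S : TD R D.mer :=
    { K := K'.grp, mK := K'.mer, s := s, L := L, a := e (2 * k), x := x, c := e 0, l1 := l1,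
      l2 := l2, j := f, a1 := a1, b1 := b1, a2 := a2, b2 := b2, good := (h.iso hK' hi).good,
      kn := diag_kn hK', hs := hs, lk := hlk, ch := hch, hm := Or.inl fa }
  exact ⟨_, by omega, D, ⟨hD, S.prime.1, S.prime.2⟩, S, rfl, hi⟩

/-- row MAIN (b) -/
theorem NN_double : ∃ c, ∀ n, 2 * NN n ≤ NN (n + c) := by
  classical
  obtain ⟨R, _, ι, hR⟩ := exists_pru
  obtain ⟨M, hM⟩ : ∃ M : ℕ, M = 3528 := ⟨_, rfl⟩
  refine ⟨36 * M + 39, fun n => ?_⟩
  let P : ∀ {k : ℕ}, Diag k → Set (Σ k, Diag k) × ℕ → Prop := fun D z =>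
    ∃ (a : ℕ) (K : Diag a) (S : TD R D.mer), K.IsKnot ∧ z.1 = K.type ∧ S.s = 9 * z.2 + 1 ∧
      MIso K.mer S.mK
  have : ∀ z ∈ UU n ×ˢ Finset.range M, ∃ T ∈ UU (n + (36 * M + 39)), ∃ k, ∃ D : Diag k,
      D.IsKnot ∧ T = D.type ∧ P D z := by
    intro z hz
    obtain ⟨h1, h2⟩ := Finset.mem_product.1 hz
    obtain ⟨a, ha, K, p, t⟩ := mem_UU.1 h1
    obtain ⟨k, hk, D, d, S, s1, s2⟩ := child hR p (s := 9 * z.2 + 1) (by omega)
    have := Finset.mem_range.1 h2
    exact ⟨_, mem_UU.2 ⟨k, by omega, D, d, rfl⟩, k, D, d.1, rfl, a, K, S, p.1, t, s1, s2⟩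
  choose! Ψ h1 h2 using this
  have key := Finset.card_le_mul_card_image_of_maps_to h1 1764 fun T hT => by
    obtain ⟨k, hk, D, d, rfl⟩ := mem_UU.1 hT
    have : ∀ z : (UU n ×ˢ Finset.range M).filter fun z => Ψ z = D.type, P D z := by
      rintro ⟨z, hz⟩
      obtain ⟨hz, e⟩ := Finset.mem_filter.1 hz
      obtain ⟨k', D', d', t, a, K, S, p1, p2, p3, p4⟩ := h2 z hz
      obtain ⟨S', q1, q2⟩ := S.iso (iso_of_type d.1 (t.symm.trans e))
      exact ⟨a, K, S', p1, p2, q1.trans p3, p4.trans q2.symm⟩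
    choose a K S p1 p2 p3 p4 using this
    have := td_count hR S fun i k e1 e2 => Subtype.ext (Prod.ext
      ((p2 i).trans ((type_eq (((p4 i).trans e2).trans (p4 k).symm)).trans (p2 k).symm))
      (by have := p3 i; have := p3 k; omega))
    simpa only [Fintype.card_coe] using this
  rw [Finset.card_product, card_UU, card_UU, Finset.card_range, mul_comm] at key
  generalize n + (36 * M + 39) = N at key
  subst hM
  omega

theorem NN_iter {c : ℕ} (h : ∀ n, 2 * NN n ≤ NN (n + c)) (k n : ℕ) :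
    2 ^ k * NN n ≤ NN (n + k * c) := by
  induction k with
  | zero => simp
  | succ k ih =>
    have := h (n + k * c)
    rw [add_mul, one_mul, ← add_assoc, pow_succ']
    calc 2 * 2 ^ k * NN n = 2 * (2 ^ k * NN n) := by ring
      _ ≤ _ := le_trans (Nat.mul_le_mul_left 2 ih) this

theorem gap_of {n B : ℕ} (h6 : (B + 1) * NN n < NN (n + B)) : ∃ m : ℕ, n < m ∧ m ≤ n + B ∧
    (∀ j < m, (primeKnots j).ncard < (primeKnots m).ncard) ∧ NN n < (primeKnots m).ncard := by
  have hB : 0 < B := Nat.pos_of_ne_zero (by rintro rfl; simp at h6)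
  obtain ⟨m0, m1, m2⟩ := (Finset.Ico (n + 1) (n + B + 1)).exists_max_image
    (fun j => (primeKnots j).ncard) ⟨n + 1, Finset.mem_Ico.2 ⟨le_rfl, by omega⟩⟩
  have h7 : NN n < (primeKnots m0).ncard := by
    have e : NN n + ∑ j ∈ Finset.Ico (n + 1) (n + B + 1), (primeKnots j).ncard = NN (n + B) :=
      Finset.sum_range_add_sum_Ico _ (by omega)
    have := Finset.sum_le_card_nsmul _ _ _ m2
    simp only [Nat.card_Ico, smul_eq_mul, show n + B + 1 - (n + 1) = B by omega] at this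
    exact lt_of_mul_lt_mul_left (a := B) (by linarith only [h6, e, this]) (Nat.zero_le _)
  have hex : ∃ m, n < m ∧ (primeKnots m0).ncard ≤ (primeKnots m).ncard :=
    ⟨m0, (Finset.mem_Ico.1 m1).1, le_rfl⟩
  obtain ⟨k1, k2⟩ := Nat.find_spec hex
  have k3 := Nat.find_min' hex ⟨(Finset.mem_Ico.1 m1).1, le_rfl⟩
  refine ⟨Nat.find hex, k1, ?_, fun j hj => lt_of_lt_of_le ?_ k2, h7.trans_le k2⟩
  · have := (Finset.mem_Ico.1 m1).2
    omega
  · by_cases hjn : j ≤ n
    · exact (Finset.single_le_sum (f := fun j => (primeKnots j).ncard) (fun _ _ => Nat.zero_le _)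
        (Finset.mem_range.2 (by omega))).trans_lt h7
    · exact not_le.1 fun h => Nat.find_min hex hj ⟨by omega, h⟩

/-- row MAIN (c) -/
theorem bounded_gap : ∃ C : ℕ, ∀ n : ℕ, ∃ m : ℕ, n < m ∧ m ≤ n + C ∧
    (∀ j < m, (primeKnots j).ncard < (primeKnots m).ncard) ∧ NN n < (primeKnots m).ncard := by
  obtain ⟨c, hc⟩ := NN_double
  refine ⟨5 + (2 * c + 6) * c, fun n => gap_of ?_⟩
  have h1 := NN_iter hc (2 * c + 6) (n + 5)
  have h2 : 1 ≤ NN (n + 5) := le_trans (by simpa using NN_quad 0) (NN_mono (by omega))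
  have h3 : NN n ≤ NN (n + 5) := NN_mono (by omega)
  have h4 : c + 3 < 2 ^ (c + 3) := Nat.lt_two_pow_self
  have h5 : 5 + (2 * c + 6) * c + 1 < 2 ^ (2 * c + 6) := by
    have h6 : 2 * (c + 2) < 2 ^ (c + 3) := by
      have : c + 2 < 2 ^ (c + 2) := Nat.lt_two_pow_self
      rw [pow_succ]; omega
    rw [show 2 * c + 6 = (c + 3) + (c + 3) by ring, pow_add]
    nlinarith
  rw [← add_assoc]
  refine lt_of_lt_of_le ?_ h1
  calc _ ≤ (5 + (2 * c + 6) * c + 1) * NN (n + 5) := Nat.mul_le_mul_left _ h3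
    _ < _ := Nat.mul_lt_mul_of_pos_right h5 h2

end Pool.Agent.MP_b13154_gt.H69
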