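import Pool.Agent.MP_b13154_gt.H69.Grow

namespace Pool.Agent.MP_b13154_gt.H69

open Pool.Agent.MP_b13154_gt.H25 Subgroup

namespace Grow

theorem l_ne : fl ≠ 1 := fun h => by
  have := congrArg (FreeGroup.lift fun z : Bool =>
    if z then Equiv.swap (0 : Fin 3) 1 else Equiv.swap (1 : Fin 3) 2) h
  simp only [fl, fa, fb, map_mul, map_inv, FreeGroup.lift_apply_of, map_one] at this
  exact absurd this (by decide)

theorem norm_l (p : ℤ) : FreeGroup.norm (fl ^ p) ≤ FreeGroup.norm fl * p.natAbs := by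
  have k : ∀ n : ℕ, FreeGroup.norm (fl ^ n) ≤ FreeGroup.norm fl * n := fun n => by
    induction n with
    | zero => simp
    | succ n ih => rw [pow_succ, mul_add, mul_one]; exact (FreeGroup.norm_mul_le _ _).trans (by omega)
  obtain ⟨n, rfl | rfl⟩ := p.eq_nat_or_neg
  · simpa using k n
  · simpa using k n

theorem lin {g : FreeGroup Bool} {i : ℕ} (hi : 0 < i) {m m' : ℤ}
    (h : phi^[i] g = fl ^ m * g * fl ^ m') : g ∈ zpowers fl := by
  have h1 : ∀ k : ℕ, phi^[i * k] g = fl ^ (m * k) * g * fl ^ (m' * k) := fun k => by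
    induction k with
    | zero => simp
    | succ k ih =>
      rw [Nat.mul_succ, add_comm, Function.iterate_add_apply, ih, iterate_map_mul, iterate_map_mul,
        iter_l, iter_l, h]
      push_cast
      group
  refine growth g i (FreeGroup.norm g + FreeGroup.norm fl * (m.natAbs + m'.natAbs)) hi fun k => ?_
  have a1 := norm_l (m * k)
  have a2 := norm_l (m' * k)
  have a3 := FreeGroup.norm_mul_le (fl ^ (m * k) * g) (fl ^ (m' * k))
  have a4 := FreeGroup.norm_mul_le (fl ^ (m * k)) g
  rw [Int.natAbs_mul, Int.natAbs_natCast] at a1 a2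
  rw [h1]
  nlinarith [Nat.zero_le (FreeGroup.norm g * k), Nat.zero_le (FreeGroup.norm fl * m.natAbs),
    Nat.zero_le (FreeGroup.norm fl * m'.natAbs)]

theorem cyclic_of_comm (H : Type) [Group H] [IsFreeGroup H] (hc : ∀ x y : H, x * y = y * x) :
    IsCyclic H := by
  classical
  have hs : Subsingleton (IsFreeGroup.Generators H) := ⟨fun x y => by_contra fun hxy => by
    have := congrArg (IsFreeGroup.lift fun z =>
      if z = x then Equiv.swap (0 : Fin 3) 1 else Equiv.swap (1 : Fin 3) 2)
      (hc (IsFreeGroup.of x) (IsFreeGroup.of y))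
    simp only [map_mul, IsFreeGroup.lift_of, if_true, if_neg (Ne.symm hxy)] at this
    exact absurd this (by decide)⟩
  have : IsCyclic (FreeGroup (IsFreeGroup.Generators H)) := by
    rcases isEmpty_or_nonempty (IsFreeGroup.Generators H) with h | ⟨⟨x⟩⟩
    · exact isCyclic_of_subsingleton
    · let _ := uniqueOfSubsingleton x
      infer_instance
  exact isCyclic_of_surjective _ (IsFreeGroup.mulEquiv H).surjective

theorem comm_l {h : FreeGroup Bool} (hc : Commute h fl) : h ∈ zpowers fl := by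
  obtain ⟨z, hz⟩ := (cyclic_of_comm (closure ({h, fl} : Set (FreeGroup Bool))) fun x y => by
    refine Subtype.ext (closure_induction₂ (p := fun x y _ _ => Commute x y) ?_
      (fun x _ => .one_left x) (fun x _ => .one_right x) (fun _ _ _ _ _ _ a b => a.mul_left b)
      (fun _ _ _ _ _ _ a b => a.mul_right b) (fun _ _ _ _ a => a.inv_left)
      (fun _ _ _ _ a => a.inv_right) x.2 y.2)
    rintro _ _ (rfl | rfl) (rfl | rfl)
    exacts [.refl _, hc, hc.symm, .refl _]).exists_generator
  obtain ⟨r, hr⟩ := mem_zpowers_iff.1 (hz ⟨h, subset_closure (by simp)⟩)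
  obtain ⟨s, hs⟩ := mem_zpowers_iff.1 (hz ⟨fl, subset_closure (by simp)⟩)
  have h1 : z.1 ^ r = h := congrArg Subtype.val hr
  have h2 : z.1 ^ s = fl := congrArg Subtype.val hs
  have h3 : s ≠ 0 := fun h0 => l_ne (by rw [← h2, h0, zpow_zero])
  have h4 : phi z.1 = z.1 := zpow_left_injective h3 (by
    simp only [← map_zpow, h2, phi_l])
  exact h1 ▸ zpow_mem (lin (i := 1) (m := 0) (m' := 0) one_pos (by simpa using h4)) r

/-- the monodromy as an automorphism -/
def aut : MulAut (FreeGroup Bool) :=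
  { phi with invFun := psi, left_inv := psi_phi, right_inv := phi_psi }

theorem aut_pow (n : ℕ) (w : FreeGroup Bool) : (aut ^ (n : ℤ)) w = phi^[n] w := by
  induction n with
  | zero => simp
  | succ n ih =>
    rw [Function.iterate_succ_apply', ← ih, Nat.cast_succ, add_comm, zpow_add, zpow_one]
    rfl

theorem aut_l (i p : ℤ) : (aut ^ i) (fl ^ p) = fl ^ p := by
  obtain ⟨n, rfl | rfl⟩ := i.eq_nat_or_neg
  · rw [aut_pow, iter_l]
  · rw [zpow_neg, MulAut.inv_def, MulEquiv.symm_apply_eq, aut_pow, iter_l]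

end Grow

open Grow in
/-- row MODEL (a) -/
theorem cent (g : FreeGroup Bool) (p p' : ℤ) (hp : p ≠ 0) (h : g * fl ^ p * g⁻¹ = fl ^ p') :
    g ∈ zpowers fl := by
  have h1 := congrArg phi h
  rw [map_mul, map_mul, map_inv, map_zpow, map_zpow, phi_l, ← h] at h1
  have h2 : (g⁻¹ * phi g) * fl * (g⁻¹ * phi g)⁻¹ = fl := zpow_left_injective hp (by
    simp only [conj_zpow]
    calc _ = g⁻¹ * (phi g * fl ^ p * (phi g)⁻¹) * g := by group
      _ = _ := by rw [h1]; group)
  obtain ⟨m, hm⟩ := mem_zpowers_iff.1 (comm_l (mul_inv_eq_iff_eq_mul.1 h2))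
  exact lin (i := 1) (m := 0) (m' := m) one_pos (by simp [hm])

open Grow SemidirectProduct in
/-- row MODEL (b): the figure eight group `F₂ ⋊ ℤ` -/
theorem exists_model : ∃ (B : Type) (_ : Group B) (a b t : B), Fig a b t ∧ PB a b t = ⊤ ∧
    Mal (⊤ : Subgroup B) (PC a b t) ∧
    (∀ i j : ℤ, t ^ i * (b * a * b⁻¹ * a⁻¹) ^ j = 1 → i = 0 ∧ j = 0) ∧
    ∀ (H : Type) [Group H] (a' b' t' : H), Fig a' b' t' →
      ∃ f : B →* H, f a = a' ∧ f b = b' ∧ f t = t' := by
  let Φ : Multiplicative ℤ →* MulAut (FreeGroup Bool) := zpowersHom _ aut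
  have hΦ : ∀ u, Φ u = aut ^ u.toAdd := fun _ => rfl
  have hl : (inl fb * inl fa * (inl fb)⁻¹ * (inl fa)⁻¹ : FreeGroup Bool ⋊[Φ] Multiplicative ℤ) =
      inl fl := by simp only [fl, map_mul, map_inv]
  have ht : ∀ u : Multiplicative ℤ, (inr u : FreeGroup Bool ⋊[Φ] Multiplicative ℤ) =
      inr (Multiplicative.ofAdd 1) ^ u.toAdd := fun u => by
    rw [← map_zpow, ← ofAdd_zsmul]; simp
  have hc : ∀ w, (inr (Multiplicative.ofAdd 1) * inl w * (inr (Multiplicative.ofAdd 1))⁻¹ :
      FreeGroup Bool ⋊[Φ] Multiplicative ℤ) = inl (phi w) := fun w => by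
    rw [← map_inv, ← inl_aut, hΦ, toAdd_ofAdd, zpow_one]; rfl
  have hC : ∀ x : FreeGroup Bool ⋊[Φ] Multiplicative ℤ,
      x ∈ PC (inl fa) (inl fb) (inr (Multiplicative.ofAdd 1)) ↔ ∃ p : ℤ, fl ^ p = x.left := by
    intro x
    rw [PC, hl]
    refine ⟨fun hx => ?_, fun ⟨p, hp⟩ => ?_⟩
    · induction hx using closure_induction with
      | mem x hx =>
        rcases hx with rfl | rfl
        exacts [⟨0, rfl⟩, ⟨1, zpow_one _⟩]
      | one => exact ⟨0, rfl⟩
      | mul x y _ _ hx hy =>
        obtain ⟨p, hp⟩ := hx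
        obtain ⟨r, hr⟩ := hy
        exact ⟨p + r, by rw [mul_left, ← hp, ← hr, hΦ, aut_l, zpow_add]⟩
      | inv x _ hx =>
        obtain ⟨p, hp⟩ := hx
        exact ⟨-p, by rw [inv_left, ← hp, hΦ, ← zpow_neg, aut_l]⟩
    · rw [← inl_left_mul_inr_right x, ← hp, map_zpow, ht x.right]
      exact mul_mem (zpow_mem (subset_closure (.inr rfl)) _) (zpow_mem (subset_closure (.inl rfl)) _)
  refine ⟨FreeGroup Bool ⋊[Φ] Multiplicative ℤ, inferInstance, inl fa, inl fb,
    inr (Multiplicative.ofAdd 1), ⟨?_, ?_⟩, ?_, ?_, ?_, ?_⟩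
  · rw [hc, phi_a, map_mul]
  · rw [hc, phi_b, map_mul, map_mul]
  · refine eq_top_iff.2 fun x _ => ?_
    rw [← inl_left_mul_inr_right x, ht x.right]
    refine mul_mem ?_ (zpow_mem (subset_closure (.inr (.inr rfl))) _)
    induction x.left using FreeGroup.induction_on with
    | C1 => rw [map_one inl]; exact one_mem _
    | of z =>
      cases z
      · exact subset_closure (.inl rfl)
      · exact subset_closure (.inr (.inl rfl))
    | inv_of z hz => rw [map_inv]; exact inv_mem hz
    | mul x y hx hy => rw [map_mul]; exact mul_mem hx hy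
  · intro g _ c h1 h2 h3
    obtain ⟨p, hp⟩ := (hC _).1 h1
    obtain ⟨r, hr⟩ := (hC _).1 h3
    have e : Φ (g.right * c.right) (Φ g.right⁻¹ g.left⁻¹) = ((aut ^ c.right.toAdd) g.left)⁻¹ := by
      rw [← MulAut.mul_apply, ← map_mul, mul_comm g.right, mul_inv_cancel_right, map_inv, hΦ]
    rw [mul_left, mul_left, mul_right, inv_left, e, ← hp, hΦ, aut_l] at hr
    refine (hC _).2 (mem_zpowers_iff.1 ?_)
    obtain ⟨n, hn | hn⟩ := c.right.toAdd.eq_nat_or_neg <;> rcases n.eq_zero_or_pos with rfl | h0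
    rotate_left
    · rw [hn, aut_pow] at hr
      exact lin h0 (m := -r) (m' := p) (by rw [zpow_neg, hr]; group)
    rotate_left
    · have := congrArg (aut ^ (n : ℤ)) hr
      rw [hn, aut_l, map_mul, map_mul, aut_l, map_inv, ← MulAut.mul_apply, ← zpow_add,
        add_neg_cancel, zpow_zero, aut_pow, MulAut.one_apply] at this
      exact lin h0 (m := r) (m' := -p) (by rw [zpow_neg, this]; group)
    all_goals
      have h4 : c.right.toAdd = 0 := by simpa using hn
      rw [h4, zpow_zero, MulAut.one_apply] at hr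
      refine cent _ p r (fun h5 => h2 ?_) hr.symm
      rw [h5, zpow_zero] at hp
      exact SemidirectProduct.ext hp.symm h4
  · intro i j h
    rw [hl, ← map_zpow inr, ← map_zpow inl] at h
    have h1 := congrArg SemidirectProduct.right h
    have h2 := congrArg SemidirectProduct.left h
    simp only [mul_right, right_inr, right_inl, mul_one, one_right, mul_left, left_inr, left_inl,
      one_mul, one_left, hΦ, aut_l] at h1 h2
    refine ⟨by simpa using congrArg Multiplicative.toAdd h1, by_contra fun h3 => l_ne ?_⟩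
    exact zpow_left_injective h3 (by simpa using h2)
  · intro H _ a' b' t' hf
    let f : FreeGroup Bool →* H := FreeGroup.lift fun z => if z then b' else a'
    have fa' : f fa = a' := by simp [f, fa]
    have fb' : f fb = b' := by simp [f, fb]
    have h1 : ∀ w, f (phi w) = t' * f w * t'⁻¹ :=
      hom_ext (f := f.comp phi) (g := (MulAut.conj t').toMonoidHom.comp f)
        (by simp [phi_a, fa', fb', hf.1]) (by simp [phi_b, fa', fb', hf.2])
    have h2 : ∀ (n : ℕ) w, f ((aut ^ (n : ℤ)) w) = t' ^ (n : ℤ) * f w * (t' ^ (n : ℤ))⁻¹ := by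
      intro n w
      rw [aut_pow]
      induction n with
      | zero => simp
      | succ n ih => rw [Function.iterate_succ_apply', h1, ih]; push_cast; group
    have h3 : ∀ (i : ℤ) w, f ((aut ^ i) w) = t' ^ i * f w * (t' ^ i)⁻¹ := by
      intro i w
      obtain ⟨n, rfl | rfl⟩ := i.eq_nat_or_neg
      · exact h2 n w
      · have := h2 n ((aut ^ (-(n : ℤ))) w)
        rw [← MulAut.mul_apply, ← zpow_add, add_neg_cancel, zpow_zero, MulAut.one_apply] at this
        rw [this]; group
    refine ⟨SemidirectProduct.lift f (zpowersHom H t') fun u => MonoidHom.ext fun w => h3 _ w,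
      by rw [lift_inl, fa'], by rw [lift_inl, fb'], by rw [lift_inr]; simp⟩

end Pool.Agent.MP_b13154_gt.H69
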