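import Pool.Agent.MP_b13154_gt.H69.Can

namespace Pool.Agent.MP_b13154_gt.H69

open Pool.Agent.MP_b13154_gt.H25 Subgroup

variable {R : Type} [AddCommGroup R] {G : Type} [Group G] {m : G}

/-- row KAP (a): the 3-colouring supported on the new tangle -/
theorem TD.kappa (S : TD R m) : ∃ (χ : G →* ℤˣ) (κ : G → ZMod 3), χ m = -1 ∧ Der χ κ ∧ κ m = 0 ∧
    χ S.t1 = 1 ∧ χ S.t2 = 1 ∧ κ S.t1 ≠ 0 ∧ κ S.t2 ≠ 0 := by
  obtain ⟨χ, ξ, -, a1, a2, a3, a4, a5, a6, a7, a8, a9, -⟩ := S.lk.xi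
  obtain ⟨hx, -, t1, t2⟩ := S.lk.signs a1
  obtain ⟨x1, x2⟩ := can_xi a4 a1 hx a5 a6
  have hd : Der χ fun g => (ξ g : ZMod 3) := fun g h => by
    show ((ξ (g * h) : ℤ) : ZMod 3) = _
    rw [a4]
    simp
  have hq : ((-(2 * S.s + 1) : ℤ) : ZMod 3) = 0 := by
    rw [ZMod.intCast_zmod_eq_zero_iff_dvd]
    have := S.hs
    omega
  obtain ⟨χ', κ, h1, h2, h3, -⟩ := S.ch.der hd a2 a3 (by simpa only [a8] using hq)
    (by simpa only [a9] using hq)
  have ea : χ' (S.j S.a) = -1 := (h2 _).trans a1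
  have ka : κ (S.j S.a) = 0 := by rw [h3, a5]; rfl
  refine ⟨χ', κ, ?_, h1, ?_, (h2 _).trans t1, (h2 _).trans t2, ?_, ?_⟩
  · rcases S.hm with e | e <;> rw [e] at ea
    · exact ea
    · simpa using ea
  · rcases S.hm with e | e
    · rwa [e] at ka
    · rw [← inv_inv m, ← e, h1.inv, ka]; simp
  · rw [TD.t1, h3, x1, a7]; decide
  · rw [TD.t2, h3, x2, a7]; decide

theorem prime_odd {χ : G →* ℤˣ} {κ : G → ZMod 3} (h : Der χ κ) {z t : G} (hz : χ z = -1)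
    (ht : χ t = 1) (hm : t ∈ zpowers z) : κ t = 0 := by
  obtain ⟨k, rfl⟩ := mem_zpowers_iff.1 hm
  have e2 : χ (z * z) = 1 := by simp [hz]
  have k2 : κ (z * z) = 0 := by rw [h, hz]; simp
  rcases Int.even_or_odd' k with ⟨i, rfl | rfl⟩
  · rw [zpow_mul, zpow_two, h.zpow e2, k2, smul_zero]
  · rw [zpow_add_one, zpow_mul, zpow_two, map_mul, map_zpow, e2, hz] at ht
    simp at ht

section

variable {V : Type} (T : ZT G V)

theorem prime_serre {x y : G} (hx : ∃ p, T.a x p = p) (hy : ∃ p, T.a y p = p)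
    (hxy : ∃ p, T.a (x * y) p = p) : ∃ w, T.a x w = w ∧ T.a y w = w := by
  obtain ⟨p, hp⟩ := hx
  obtain ⟨q, hq⟩ := hy
  obtain ⟨w, hw⟩ := hxy
  rcases T.bridge2 hp hq with h | ⟨p, p', q, q', hp, hq, h1, h2, -, -, h5, -⟩
  · exact h
  · exact ⟨p, hp, T.S3 hp hq h1 h2 h5 hw⟩

theorem prime_piece {A : Subgroup G} {a b t : G} (h : Piece A a b t) (hc : T.Cyc m) (u : V)
    {φ : G →* Multiplicative ℤ} (hφ : val φ m = 1 ∨ val φ m = -1)
    (ht : val φ t = 2 ∨ val φ t = -2) : ∃ w, T.a a w = w ∧ T.a b w = w ∧ T.a t w = w := by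
  obtain ⟨δ, d1, -, d3, d4, d5⟩ := h.delta φ ht
  refine d1.fix h.fig d3 d4 d5 T u fun p p' hp => ⟨1, by simp, ?_⟩
  obtain ⟨c, hc⟩ := hc p p' hp
  intro s hs e1 e2
  obtain ⟨j, rfl⟩ := mem_zpowers_iff.1 (hc s e1 e2)
  simp only [val_zpow, val_mul, val_inv] at hs
  obtain rfl : j = 0 := by
    rcases hφ with e | e <;> rw [e] at hs <;> omega
  simp

theorem prime_two (hc : T.Cyc m) {v w : V} (h : v ≠ w) :
    ∃ g, ∀ s, T.a s v = v → T.a s w = w → s ∈ zpowers (g * m * g⁻¹) := by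
  obtain ⟨z, h1, h2⟩ := T.step v w h
  obtain ⟨g, hg⟩ := hc v z h1
  exact ⟨g, fun s e1 e2 => hg s e1 (T.fix_tow h1 h2 e1 e2)⟩

theorem prime_mul {g h : G} {v : V} (h1 : T.a g v = v) (h2 : T.a h v = v) :
    T.a (g * h) v = v := by rw [T.mul, h2, h1]

end

/-- row PRIME -/
theorem TD.prime (S : TD R m) : ¬ IsCyclic G ∧ ¬ Splits m := by
  have hj := S.inj_mal.1
  constructor
  · intro hc
    obtain ⟨ψ, -, -, p, -⟩ := S.lk.psi
    have : S.l1 = 1 := hj (by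
      rw [S.ch.e1, map_one, hc.isMulCommutative.is_comm.comm S.b1 S.a1]; group)
    rw [this, val_one] at p
    omega
  rintro ⟨P, Q, hg, hP, hQ, ⟨g, hm⟩, ⟨k, hk⟩, hup⟩
  obtain ⟨V, T, u, v, hT⟩ := exists_BS (C := P ⊓ Q) hg inf_le_left inf_le_right
    fun H _ f f' hf => hup H f f' fun x h1 h2 => hf x ⟨h1, h2⟩ h1 h2
  have hc : T.Cyc m := hT.cyc hk
  have ma : Mer m (S.j S.a) := by
    rcases S.hm with e | e <;> rw [e]
    exacts [Mer.rfl' m, (Mer.rfl' m).inv]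
  have ell : ∀ y, Mer S.a y → ∃ w, T.a (S.j y) w = w := fun y hy =>
    ((((Mer.rfl' m).cj g).symm'.trans' ma).trans' (hy.map S.j)).ell T ((hT.su _).2 hm)
  obtain ⟨φ, hφ⟩ := S.can_phi
  obtain ⟨va, -⟩ := S.can_vals hφ
  obtain ⟨v1, v2⟩ := S.can_t hφ
  obtain ⟨χ, κ, k1, k2, -, k4, k5, k6, k7⟩ := S.kappa
  have one : ∀ t, χ t = 1 → κ t ≠ 0 → ∀ v w, T.a t v = v → T.a t w = w → v = w := by
    intro t h1 h2 v w e1 e2
    by_contra hne
    obtain ⟨g, hg⟩ := prime_two T hc hne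
    exact h2 (prime_odd k2 ((can_mer ((Mer.rfl' m).cj g)).trans k1) h1 (hg t e1 e2))
  obtain ⟨p, p1, p2, p3⟩ := prime_piece T S.piece1 hc u hφ v1
  obtain ⟨q, q1, q2, q3⟩ := prime_piece T S.piece2 hc u hφ v2
  have mc : Mer S.a S.c := Or.inl S.mer_c
  obtain ⟨p', p4, p5⟩ := prime_serre T (ell _ (Mer.rfl' _).inv) (ell _ S.lk.mx)
    ⟨p, by rwa [← map_mul]⟩
  obtain ⟨q', q4, q5⟩ := prime_serre T (ell _ S.lk.mx.inv) (ell _ mc) ⟨q, by rwa [← map_mul]⟩
  obtain rfl : p' = p := one _ k4 k6 _ _ (by rw [TD.t1, map_mul]; exact prime_mul T p4 p5) p3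
  obtain rfl : q' = q := one _ k5 k7 _ _ (by rw [TD.t2, map_mul]; exact prime_mul T q4 q5) q3
  have p6 : T.a (S.j S.a) p' = p' := by simpa only [map_inv S.j, inv_inv] using T.fix_inv p4
  have q6 : T.a (S.j S.x) q' = q' := by simpa only [map_inv S.j, inv_inv] using T.fix_inv q4
  have p7 : T.a (S.j (w1 S.s S.a S.x S.l1)) p' = p' := by
    rw [w1, map_mul S.j, map_pow S.j, S.ch.e1]
    exact prime_mul T (T.fix_pow p3 _)
      (prime_mul T (prime_mul T (prime_mul T p2 p1) (T.fix_inv p2)) (T.fix_inv p1))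
  have q7 : T.a (S.j (w2 S.s S.x S.c S.l2)) q' = q' := by
    rw [w2, map_mul S.j, map_inv S.j, map_pow S.j, S.ch.e2]
    exact prime_mul T (T.fix_inv (T.fix_pow q3 _))
      (prime_mul T (prime_mul T (prime_mul T q2 q1) (T.fix_inv q2)) (T.fix_inv q1))
  obtain ⟨π, hπ, hker, hπa, -, hπx, -⟩ := S.lk.pi
  have m1 : π (w1 S.s S.a S.x S.l1) = 1 :=
    (MonoidHom.mem_ker).1 (hker ▸ subset_normalClosure (by simp))
  obtain rfl : p' = q' := by
    by_contra hne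
    obtain ⟨g, hg⟩ := prime_two T hc hne
    have y1 := hg (S.j (w1 S.s S.a S.x S.l1 * S.a * (w1 S.s S.a S.x S.l1)⁻¹))
      (by rw [map_mul S.j, map_mul S.j, map_inv S.j]
          exact prime_mul T (prime_mul T p7 p6) (T.fix_inv p7))
      (by rw [S.lk.rel, map_mul S.j, map_mul S.j, map_inv S.j]
          exact prime_mul T (prime_mul T q7 q5) (T.fix_inv q7))
    obtain ⟨i, hi⟩ := mem_zpowers_iff.1 y1
    obtain ⟨i', hi'⟩ := mem_zpowers_iff.1 (hg _ p5 q6)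
    have n := congrArg (val φ) hi
    simp only [map_mul S.j, map_inv S.j, val_zpow, val_mul, val_inv] at n
    have hi2 : i * i = 1 := by
      rcases hφ with e | e <;> rw [e] at n <;> rcases va with e' | e' <;> rw [e'] at n
      all_goals
        have : i = 1 ∨ i = -1 := by omega
        rcases this with rfl | rfl <;> rfl
    have : S.x = (w1 S.s S.a S.x S.l1 * S.a * (w1 S.s S.a S.x S.l1)⁻¹) ^ (i * i') := hj (by
      rw [map_zpow, ← hi, ← zpow_mul, ← mul_assoc, hi2, one_mul, hi'])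
    refine hπx (mem_zpowers_iff.2 ⟨i * i', ?_⟩)
    rw [this]
    simp [m1, hπa]
  by_cases hall : ∀ g, T.a (S.j g) p' = p'
  · have : ∀ g, T.a g p' = p' := by
      intro g
      induction g using sup_ind S.ch.gen with
      | hA _ h => obtain ⟨_, rfl⟩ := h; exact hall _
      | hB y h =>
        induction h using closure_induction with
        | mem y hy =>
          rcases hy with rfl | rfl | rfl | rfl
          exacts [p1, p2, q1, q2]
        | one => exact T.one _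
        | mul x y _ _ h1 h2 => exact prime_mul T h1 h2
        | inv x _ h1 => exact T.fix_inv h1
      | hm x y h1 h2 => exact prime_mul T h1 h2
    obtain ⟨g, h | h⟩ := hT.vert Set.univ p' fun s _ => this s
    exacts [hP (top_of_conj h), hQ (top_of_conj h)]
  push Not at hall
  obtain ⟨g0, hg0⟩ := hall
  obtain ⟨z, z1, z2⟩ := T.step p' _ (Ne.symm hg0)
  let T' := T.comap S.j
  have z1' : T'.d p' z = 1 := z1
  obtain ⟨s1, s2, -⟩ := spl T' z1' (S := Group.conjugatesOfSet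
    {S.a, w1 S.s S.a S.x S.l1, w2 S.s S.x S.c S.l2}) S.ngen (by
      intro s hs
      obtain ⟨y, hy, hs⟩ := Group.mem_conjugatesOfSet_iff.1 hs
      obtain ⟨g, rfl⟩ := isConj_iff.1 hs
      refine ⟨_, T'.fix_conj (v := p') ?_ g⟩
      rcases hy with rfl | rfl | rfl
      exacts [p6, p7, q7])
  obtain ⟨k0, hk0⟩ : ∃ k0, T'.St p' z p' ⊓ T'.St p' z z ≤ zpowers (k0 * S.a * k0⁻¹) := by
    obtain ⟨h, hh⟩ := hc p' z z1
    have e : ∀ s ∈ T'.St p' z p' ⊓ T'.St p' z z, S.j s ∈ zpowers (h * m * h⁻¹) := fun s hs =>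
      hh _ (T'.St_inter z1' hs.1 hs.2).1 (T'.St_inter z1' hs.1 hs.2).2
    by_cases hb : ∀ s ∈ T'.St p' z p' ⊓ T'.St p' z z, s = 1
    · exact ⟨1, fun s hs => by rw [hb s hs]; exact one_mem _⟩
    push Not at hb
    obtain ⟨s, hs, hs1⟩ := hb
    obtain ⟨i, hi⟩ := mem_zpowers_iff.1 (e s hs)
    have r : h⁻¹ * S.j s * h ∈ S.j.range := by
      rw [← hi, conj_zpow]
      simpa [mul_assoc] using zpow_mem S.can_m i
    have n1 : S.j s ≠ 1 := fun e => hs1 (hj (e.trans S.j.map_one.symm))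
    obtain ⟨k0, rfl⟩ := S.int (S.am1.M2 n1 (mem_sup_left ⟨_, rfl⟩) (mem_sup_left r))
      (S.am2.M2 n1 (mem_sup_left ⟨_, rfl⟩) (mem_sup_left r))
    refine ⟨k0, fun s hs => ?_⟩
    obtain ⟨i, hi⟩ := mem_zpowers_iff.1 (e s hs)
    rcases S.hm with e | e
    · exact mem_zpowers_iff.2 ⟨i, hj (by rw [← hi, map_zpow, map_mul, map_mul, map_inv, e])⟩
    · exact mem_zpowers_iff.2 ⟨-i, hj (by
        rw [← hi, map_zpow, map_mul, map_mul, map_inv, e, conj_zpow, conj_zpow]; simp)⟩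
  refine desc hπ hker (hπa ▸ S.good) (S.lk.mx.map π) (hπa ▸ hπx) s1 (fun e => ?_) hk0 s2
    (T'.St_of_fix _ _ p7) (T'.St_of_fix _ _ q7) (T'.St_of_fix _ _ p6) (T'.St_of_fix _ _ p5)
  have := T'.St_side z1' (e ▸ mem_top g0)
  change T.d (T.a (S.j g0) p') p' < T.d (T.a (S.j g0) p') z at this
  rw [T.comm _ p', T.comm _ z] at this
  omega

end Pool.Agent.MP_b13154_gt.H69
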