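import Pool.Agent.MP_b13154_gt.H69.Tree

namespace Pool.Agent.MP_b13154_gt.H69

open Pool.Agent.MP_b13154_gt.H25 Subgroup

variable {G L K : Type} [Group G] [Group L] [Group K] {A B C : Subgroup G}

theorem spl_orbit {V : Type} (T : ZT L V) {p p' : V} (hp : T.d p p' = 1) (v : V) :
    ∃ k, T.Eqv p p' v (T.a k p) ∨ T.Eqv p p' v (T.a k p') := by
  refine T.conn p (fun v => ∃ k, T.Eqv p p' v (T.a k p) ∨ T.Eqv p p' v (T.a k p'))
    ⟨1, Or.inl (by rw [T.one]; exact fun _ => Iff.rfl)⟩ ?_ v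
  rintro v w h ⟨k, hv⟩
  by_cases hn : ∃ g, w = T.a g p ∨ w = T.a g p'
  · obtain ⟨g, rfl | rfl⟩ := hn
    exacts [⟨g, Or.inl fun _ => Iff.rfl⟩, ⟨g, Or.inr fun _ => Iff.rfl⟩]
  have : T.Eqv p p' w v := by
    intro g
    have i1 := (T.inv g p p').trans hp
    have n1 := T.side_ne hp g v
    have n2 := T.side_ne hp g w
    by_contra hc
    by_cases h1 : T.d v (T.a g p') < T.d v (T.a g p)
    · have := T.sep (x := T.a g p') (x' := T.a g p) (by rwa [T.comm]) h1 (w := w) (by omega)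
      exact hn ⟨g, Or.inl (T.eq_of _ _ (by omega)).symm⟩
    · have := T.sep i1 (y := v) (w := w) (by omega) (by omega)
      exact hn ⟨g, Or.inr (T.eq_of _ _ (by omega)).symm⟩
  exact ⟨k, hv.imp this.trans this.trans⟩

theorem spl_conj {V : Type} (T : ZT L V) {p p' v w : V} {k : L}
    (h : T.Eqv p p' v (T.a k w)) :
    (∀ g ∈ T.St p p' v, k⁻¹ * g * k ∈ T.St p p' w) ∧
      ∀ g ∈ T.St p p' w, k * g * k⁻¹ ∈ T.St p p' v := by
  constructor
  · intro g hg
    have hg : T.Eqv p p' (T.a g v) v := hg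
    have := (((h.act g).symm.trans hg).trans h).act k⁻¹
    rw [T.inv_a, ← T.mul, ← T.mul] at this
    exact this
  · intro g hg
    have hg : T.Eqv p p' (T.a g w) w := hg
    have e := h.act (k * g * k⁻¹)
    rw [T.mul _ _ (T.a k w), T.inv_a, T.mul k g w] at e
    exact (e.trans (hg.act k)).trans h.symm

/-- row SPL: collapse of an action to one orbit of edges -/
theorem spl {V : Type} (T : ZT L V) {p p' : V} (hp : T.d p p' = 1) {S : Set L}
    (hS : closure S = ⊤) (hell : ∀ s ∈ S, ∃ w, T.a s w = w) :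
    T.St p p' p ⊔ T.St p p' p' = ⊤ ∧
    HasUP (T.St p p' p) (T.St p p' p') (T.St p p' p ⊓ T.St p p' p') ∧
    ∀ v, ∃ k, (∀ g ∈ T.St p p' v, k⁻¹ * g * k ∈ T.St p p' p) ∧
        (∀ g ∈ T.St p p' p, k * g * k⁻¹ ∈ T.St p p' v) ∨
      (∀ g ∈ T.St p p' v, k⁻¹ * g * k ∈ T.St p p' p') ∧
        (∀ g ∈ T.St p p' p', k * g * k⁻¹ ∈ T.St p p' v) := by
  have hp' : T.d p' p = 1 := by rwa [T.comm]
  have hg := T.St_gen hp hS hell
  refine ⟨hg, fun H _ f f' hf => ?_, fun v => ?_⟩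
  · refine up_of_pingpong hg
      (fun g => T.d (T.a g p) p < T.d (T.a g p) p' ∧ T.d (T.a g p') p < T.d (T.a g p') p')
      (fun g => T.d (T.a g p) p' < T.d (T.a g p) p ∧ T.d (T.a g p') p' < T.d (T.a g p') p)
      ?_ ?_ (by simp only [T.one, T.d_self]; omega) (by simp only [T.one, T.d_self]; omega)
      fun x h1 h2 => hf x ⟨h1, h2⟩ h1 h2
    · intro a ha hn g hg
      have k : ∀ v, T.d v p' < T.d v p → T.d (T.a a v) p < T.d (T.a a v) p' := fun v hv => by
        by_contra hc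
        exact hn (T.St_of_fix p p' (T.St_ping hp ha hv hc).2)
      simp only [T.mul]
      rcases hg with ⟨e1, e2⟩ | ⟨e1, e2⟩
      · obtain ⟨e1, e2⟩ := T.St_inter hp e1 e2
        rw [e1, e2]
        exact ⟨T.St_side hp ha, k _ (by rw [T.d_self]; omega)⟩
      · exact ⟨k _ e1, k _ e2⟩
    · intro a ha hn g hg
      rw [← T.St_swap hp] at ha
      have k : ∀ v, T.d v p < T.d v p' → T.d (T.a a v) p' < T.d (T.a a v) p := fun v hv => by
        by_contra hc
        exact hn (T.St_of_fix p p' (T.St_ping hp' ha hv hc).2)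
      simp only [T.mul]
      rcases hg with ⟨e1, e2⟩ | ⟨e1, e2⟩
      · obtain ⟨e1, e2⟩ := T.St_inter hp e1 e2
        rw [e1, e2]
        exact ⟨k _ (by rw [T.d_self]; omega), T.St_side hp' ha⟩
      · exact ⟨k _ e1, k _ e2⟩
  · obtain ⟨k, h | h⟩ := spl_orbit T hp v
    exacts [⟨k, Or.inl (spl_conj T h)⟩, ⟨k, Or.inr (spl_conj T h)⟩]

theorem spl_up_symm {P Q : Subgroup L} (hup : HasUP P Q (P ⊓ Q)) : HasUP Q P (Q ⊓ P) :=
  fun H _ f f' hf => by
    obtain ⟨F, f1, f2⟩ := hup H f' f fun x hx h1 h2 => (hf x ⟨hx.2, hx.1⟩ h2 h1).symm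
    exact ⟨F, f2, f1⟩

/-- a free product normally generated by conjugates of elements of one factor is that factor -/
theorem spl_top {P Q : Subgroup L} (hg : P ⊔ Q = ⊤) (hup : HasUP P Q (P ⊓ Q))
    (h0 : ∀ s ∈ P, s ∈ Q → s = 1) {X : Set L} (hX : normalClosure X = ⊤) {k : L}
    (hk : ∀ x ∈ X, k⁻¹ * x * k ∈ P) : P = ⊤ := by
  obtain ⟨F, f1, f2⟩ := hup L 1 Q.subtype fun x _ h1 h2 => (h0 x h1 h2).symm
  have hF : normalClosure X ≤ F.ker := normalClosure_le_normal fun x hx => by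
    have := f1 ⟨_, hk x hx⟩
    simp only [map_mul, map_inv, MonoidHom.one_apply] at this
    show F x = 1
    calc F x = F k * ((F k)⁻¹ * F x * F k) * (F k)⁻¹ := by group
      _ = 1 := by rw [this]; group
  refine top_le_iff.1 (hg ▸ sup_le le_rfl fun s hs => ?_)
  have e : F s = 1 := hF (hX ▸ mem_top s)
  obtain rfl : s = 1 := (f2 ⟨s, hs⟩).symm.trans e
  exact P.one_mem

/-- an edge separating `u` from a translate has nontrivial stabiliser -/
theorem spl_free {V : Type} (T : ZT L V) {X : Set L} (hX : normalClosure X = ⊤) {u : V}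
    (hu : ∀ x ∈ X, T.a x u = u) {p p' : V} (hp : T.d p p' = 1) {g : L}
    (h1 : T.d u p < T.d u p') (h2 : T.d (T.a g u) p' < T.d (T.a g u) p) :
    ∃ s, s ≠ 1 ∧ T.a s p = p ∧ T.a s p' = p' := by
  by_contra hn
  have h0 : ∀ s ∈ T.St p p' p, s ∈ T.St p p' p' → s = 1 := fun s e1 e2 => by
    by_contra e
    exact hn ⟨s, e, T.St_inter hp e1 e2⟩
  obtain ⟨hg, hup, hv⟩ := spl T hp (S := Group.conjugatesOfSet X) hX (by
    intro s hs
    obtain ⟨x, hx, e⟩ := Group.mem_conjugatesOfSet_iff.1 hs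
    obtain ⟨c, rfl⟩ := isConj_iff.1 e
    exact ⟨_, T.fix_conj (hu x hx) c⟩)
  have hall : g ∈ T.St p p' u := by
    obtain ⟨k, ⟨e1, e2⟩ | ⟨e1, e2⟩⟩ := hv u
    · have := spl_top hg hup h0 hX fun x hx => e1 x (T.St_of_fix p p' (hu x hx))
      have e := e2 (k⁻¹ * g * k) (this ▸ mem_top _)
      rwa [show k * (k⁻¹ * g * k) * k⁻¹ = g by group] at e
    · have := spl_top (by rwa [sup_comm]) (spl_up_symm hup) (fun s a b => h0 s b a) hX
        fun x hx => e1 x (T.St_of_fix p p' (hu x hx))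
      have e := e2 (k⁻¹ * g * k) (this ▸ mem_top _)
      rwa [show k * (k⁻¹ * g * k) * k⁻¹ = g by group] at e
  have := hall 1
  simp only [T.one] at this
  omega

/-- a subgroup normally generated inside `A` whose intersections with the conjugates of `B` are
abelian lies in `A` -/
theorem Am.absorb (h : Am A B C) (j : L →* G) (hj : Function.Injective j) {X : Set L}
    (hX : normalClosure X = ⊤) (hA : ∀ x ∈ X, j x ∈ A)
    (hc : ∀ (g : G) (s1 s2 : L), s1 ≠ 1 → g⁻¹ * j s1 * g ∈ B → g⁻¹ * j s2 * g ∈ B →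
      Commute s1 s2) (g : L) : j g ∈ A := by
  obtain ⟨V, T, u, v, hT⟩ := exists_BS h.gen h.cA h.cB h.up
  by_contra hn
  have hne : u ≠ T.a (j g) u := fun e => hn ((hT.su _).1 e.symm)
  have hw : ∃ k, T.a (j g) u = T.a k u ∨ T.a (j g) u = T.a k v := ⟨_, Or.inl rfl⟩
  obtain ⟨k, e1, e2, e3⟩ := tree_first hT h.gen hw hne
  obtain ⟨k', f1, f2, f3⟩ := tree_second hT h.gen k hw (tree_ne hT _ _).symm
  have hu : ∀ x ∈ X, (T.comap j).a x u = u := fun x hx => (hT.su _).2 (hA x hx)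
  have c1 := T.comm (T.a (j g) u) (T.a k v)
  have c2 := T.comm (T.a (j g) u) u
  have c3 := T.comm (T.a (j g) u) (T.a k' u)
  have t1 := T.tri u (T.a k' u) (T.a (j g) u)
  obtain ⟨s1, n1, a1, b1⟩ := spl_free (T.comap j) hX hu (p := u) (p' := T.a k v) e2 (g := g)
    (by show T.d u u < T.d u (T.a k v); rw [T.d_self]; omega)
    (by show T.d (T.a (j g) u) (T.a k v) < T.d (T.a (j g) u) u; omega)
  obtain ⟨s2, n2, a2, b2⟩ := spl_free (T.comap j) hX hu (p := T.a k v) (p' := T.a k' u) f2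
    (g := g) (by show T.d u (T.a k v) < T.d u (T.a k' u); omega)
    (by show T.d (T.a (j g) u) (T.a k' u) < T.d (T.a (j g) u) (T.a k v); omega)
  have a1 : T.a (j s1) u = u := a1
  have b1 : T.a (j s1) (T.a k v) = T.a k v := b1
  have a2 : T.a (j s2) (T.a k v) = T.a k v := a2
  have b2 : T.a (j s2) (T.a k' u) = T.a k' u := b2
  have m1 : j s1 ≠ 1 := fun e => n1 (hj (e.trans j.map_one.symm))
  have m2 : j s2 ≠ 1 := fun e => n2 (hj (e.trans j.map_one.symm))
  have hcm := (hc k s1 s2 n1 ((tree_sv hT).1 b1) ((tree_sv hT).1 a2)).map j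
  have r1 := tree_mal h hT m1 (k := k) (k' := j s2 * k) (by rw [e1, a1])
    (by rw [T.mul, e1, ← T.mul, hcm.eq, T.mul, a1]) b1 (by rw [T.mul, a2])
  rw [T.mul] at r1
  have r2 := tree_mal h hT m2 r1 b2 a2 f1
  rw [r2, e1] at f3
  omega

/-- a meridional splitting of `L` with the kernel generators in one factor descends -/
theorem desc {π : L →* K} (hπ : Function.Surjective π) {u v a x k : L}
    (hk : π.ker = normalClosure {u, v}) (hK : Good (π a)) (hx : Mer (π a) (π x))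
    (hx' : π x ∉ zpowers (π a)) {P Q : Subgroup L} (hg : P ⊔ Q = ⊤) (hP : P ≠ ⊤)
    (hC : P ⊓ Q ≤ zpowers (k * a * k⁻¹)) (hup : HasUP P Q (P ⊓ Q)) (h1 : u ∈ P) (h2 : v ∈ P)
    (h3 : a ∈ P) (h4 : x ∈ P) : False := by
  obtain ⟨φ, hφ⟩ := hK.phi
  have pa : π u = 1 := (MonoidHom.mem_ker).1 (hk ▸ subset_normalClosure (by simp))
  have pb : π v = 1 := (MonoidHom.mem_ker).1 (hk ▸ subset_normalClosure (by simp))
  obtain ⟨V, T, y, z, hT⟩ := exists_BS (A := P.map π) (B := Q.map π) (C := (P ⊓ Q).map π)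
    (by rw [← Subgroup.map_sup, hg, map_top_of_surjective _ hπ]) (map_mono inf_le_left)
    (map_mono inf_le_right) (by
      intro H _ f f' hf
      obtain ⟨F, f1, f2⟩ := hup H (f.comp (π.subgroupMap P)) (f'.comp (π.subgroupMap Q))
        fun s hs h1 h2 => hf _ ⟨s, hs, rfl⟩ ⟨s, h1, rfl⟩ ⟨s, h2, rfl⟩
      obtain ⟨F0, h0⟩ := descend hπ hk F
        ((f1 ⟨u, h1⟩).trans ((congrArg f (Subtype.ext pa)).trans f.map_one))
        ((f1 ⟨v, h2⟩).trans ((congrArg f (Subtype.ext pb)).trans f.map_one))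
      refine ⟨F0, ?_, ?_⟩
      · rintro ⟨_, s, hs, rfl⟩; exact (h0 s).trans (f1 ⟨s, hs⟩)
      · rintro ⟨_, s, hs, rfl⟩; exact (h0 s).trans (f2 ⟨s, hs⟩))
  have hC0 : (P ⊓ Q).map π ≤ zpowers (π k * π a * (π k)⁻¹) :=
    (map_mono hC).trans (by simp only [MonoidHom.map_zpowers, map_mul, map_inv, le_refl])
  obtain ⟨p, hp⟩ := hK.pt V T ⟨y, (hT.su _).2 ⟨a, h3, rfl⟩⟩ (hT.cyc hC0)
  obtain ⟨g, h | h⟩ := hT.vert Set.univ p fun s _ => hp s
  · have hi : Function.Injective ((φ.comp π).comp (P ⊓ Q).subtype) := by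
      refine (injective_iff_map_eq_one _).2 ?_
      rintro ⟨s, hs⟩ h0
      obtain ⟨j, rfl⟩ := mem_zpowers_iff.1 (hC hs)
      have h0 : val (φ.comp π) ((k * a * k⁻¹) ^ j) = 0 := h0
      have h1 : val (φ.comp π) a = 1 := hφ
      obtain rfl : j = 0 := by
        simpa only [conj_zpow, val_mul, val_zpow, h1, mul_one, val_inv, add_neg_cancel_comm]
          using h0
      simp only [zpow_ofNat, pow_zero, mk_eq_one]
    obtain ⟨H, _, U, W, e1, e2⟩ := pushout_inj _ (inclusion (inf_le_right : P ⊓ Q ≤ Q)) hi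
      (inclusion_injective _)
    obtain ⟨F, f1, f2⟩ := hup H (U.comp ((φ.comp π).comp P.subtype)) W
      fun s hs _ _ => e1 ⟨s, hs⟩
    obtain ⟨F0, h0⟩ := descend hπ hk F
      ((f1 ⟨u, h1⟩).trans (by
        simp only [MonoidHom.coe_comp, coe_subtype, Function.comp_apply, pa, map_one]))
      ((f1 ⟨v, h2⟩).trans (by
        simp only [MonoidHom.coe_comp, coe_subtype, Function.comp_apply, pb, map_one]))
    refine hP (top_le_iff.1 (hg ▸ sup_le le_rfl fun s hs => ?_))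
    obtain ⟨c, hc, e⟩ := hT.inter (π s) (top_of_conj h ▸ mem_top _) ⟨s, hs, rfl⟩
    have : W ⟨c, hc.2⟩ = W ⟨s, hs⟩ := by rw [← f2, ← f2, ← h0, ← h0, e]
    obtain rfl : c = s := congrArg Subtype.val (e2 this)
    exact hc.1
  · obtain ⟨j, hj⟩ := mem_zpowers_iff.1
      (hC0 (hT.inter _ ⟨a, h3, rfl⟩ (top_of_conj h ▸ mem_top _)))
    have := congrArg (val φ) hj
    obtain rfl : j = 1 := by
      simpa only [conj_zpow, val_mul, val_zpow, hφ, mul_one, val_inv, add_neg_cancel_comm]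
        using this
    rw [zpow_one] at hj
    refine hx' ?_
    have := hC0 (hT.inter _ ⟨x, h4, rfl⟩ (top_of_conj h ▸ mem_top _))
    rwa [hj] at this

end Pool.Agent.MP_b13154_gt.H69
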