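import Pool.Agent.MP_b13154_gt.H69.Model
import Pool.Agent.MP_b13154_gt.H69.Spl
import Pool.Agent.MP_b13154_gt.H69.Der

namespace Pool.Agent.MP_b13154_gt.H69

open Pool.Agent.MP_b13154_gt.H25 Subgroup

variable {R : Type} [AddCommGroup R] {G : Type} [Group G] {m : G}

section Aux

variable {L : Type} [Group L]

theorem str_ext {H : Type} [Group H] {A : Subgroup G} {S : Set G} (hA : A = closure S)
    (F : G →* H) (f : A →* H) (h : ∀ x ∈ S, ∀ hx : x ∈ A, F x = f ⟨x, hx⟩) (x : A) :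
    F x = f x := by
  subst hA
  obtain ⟨x, hx⟩ := x
  induction hx using closure_induction with
  | mem x hx => exact h x hx _
  | one => exact F.map_one.trans f.map_one.symm
  | mul x y hx hy h1 h2 =>
    exact (F.map_mul x y).trans ((congrArg₂ (· * ·) h1 h2).trans (f.map_mul _ _).symm)
  | inv x hx h1 => exact (F.map_inv x).trans ((congrArg (·⁻¹) h1).trans (f.map_inv _).symm)

theorem str_a (a b t : G) : a ∈ PB a b t := subset_closure (by simp)
theorem str_b (a b t : G) : b ∈ PB a b t := subset_closure (by simp)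
theorem str_t (a b t : G) : t ∈ PB a b t := subset_closure (by simp)
theorem str_l (a b t : G) : b * a * b⁻¹ * a⁻¹ ∈ PB a b t :=
  mul_mem (mul_mem (mul_mem (str_b a b t) (str_a a b t)) (inv_mem (str_b a b t)))
    (inv_mem (str_a a b t))

theorem str_le {A : Subgroup G} {a b t : G} (h1 : t ∈ A) (h2 : b * a * b⁻¹ * a⁻¹ ∈ A) :
    PC a b t ≤ A := (closure_le _).2 (by rintro _ (rfl | rfl); exacts [h1, h2])

theorem str_am {A : Subgroup G} {a b t : G} (h : Piece A a b t)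
    (hm : Mal (PB a b t) (PC a b t)) : Am A (PB a b t) (PC a b t) := by
  refine ⟨h.gen, str_le h.tA h.lA, str_le (str_t a b t) (str_l a b t), fun H _ f f' hf => ?_, hm⟩
  have e1 := hf t (subset_closure (by simp)) h.tA (str_t a b t)
  have e2 := hf _ (subset_closure (by simp)) h.lA (str_l a b t)
  have hfig : Fig (⟨a, str_a a b t⟩ : PB a b t) ⟨b, str_b a b t⟩ ⟨t, str_t a b t⟩ :=
    ⟨Subtype.ext h.fig.1, Subtype.ext h.fig.2⟩
  obtain ⟨F, f1, f2, f3⟩ := h.up H f _ _ (e1 ▸ hfig.map f')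
    (by rw [e2, ← map_inv, ← map_inv, ← map_mul, ← map_mul, ← map_mul]; rfl)
  refine ⟨F, f1, str_ext rfl F f' ?_⟩
  rintro _ (rfl | rfl | rfl) _
  exacts [f2, f3, (f1 ⟨_, h.tA⟩).trans e1]

/-- symmetric form of `CH` -/
structure StrC (t1 l1 t2 l2 : L) (j : L →* G) (a1 b1 a2 b2 : G) : Prop where
  f1 : Fig a1 b1 (j t1)
  f2 : Fig a2 b2 (j t2)
  e1 : j l1 = b1 * a1 * b1⁻¹ * a1⁻¹
  e2 : j l2 = b2 * a2 * b2⁻¹ * a2⁻¹
  gen : j.range ⊔ closure {a1, b1, a2, b2} = ⊤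
  up : ∀ (H : Type) [Group H] (f : L →* H) (a1' b1' a2' b2' : H), Fig a1' b1' (f t1) →
    f l1 = b1' * a1' * b1'⁻¹ * a1'⁻¹ → Fig a2' b2' (f t2) →
    f l2 = b2' * a2' * b2'⁻¹ * a2'⁻¹ →
    ∃ F : G →* H, (∀ g, F (j g) = f g) ∧ F a1 = a1' ∧ F b1 = b1' ∧ F a2 = a2' ∧ F b2 = b2'

variable {t1 l1 t2 l2 : L} {j : L →* G} {a1 b1 a2 b2 : G}

theorem StrC.symm (h : StrC t1 l1 t2 l2 j a1 b1 a2 b2) : StrC t2 l2 t1 l1 j a2 b2 a1 b1 := by
  refine ⟨h.f2, h.f1, h.e2, h.e1, ?_, fun H _ f a b a' b' h1 h2 h3 h4 => ?_⟩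
  · rw [← h.gen]
    congr 2
    ext
    simp only [Set.mem_insert_iff, Set.mem_singleton_iff]
    tauto
  · obtain ⟨F, k0, k1, k2, k3, k4⟩ := h.up H f a' b' a b h3 h4 h1 h2
    exact ⟨F, k0, k3, k4, k1, k2⟩

theorem StrC.piece (h : StrC t1 l1 t2 l2 j a1 b1 a2 b2) :
    Piece (j.range ⊔ PB a2 b2 (j t2)) a1 b1 (j t1) := by
  have hj : ∀ g, j g ∈ j.range ⊔ PB a2 b2 (j t2) := fun g => mem_sup_left ⟨g, rfl⟩
  have ha : a2 ∈ j.range ⊔ PB a2 b2 (j t2) := mem_sup_right (str_a _ _ _)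
  have hb : b2 ∈ j.range ⊔ PB a2 b2 (j t2) := mem_sup_right (str_b _ _ _)
  refine ⟨h.f1, hj _, h.e1 ▸ hj _, eq_top_iff.2 (h.gen.ge.trans (sup_le
    (le_sup_left.trans le_sup_left) ((closure_le _).2 ?_))), fun H _ f a' b' h1 h2 => ?_⟩
  · rintro _ (rfl | rfl | rfl | rfl)
    exacts [mem_sup_right (str_a _ _ _), mem_sup_right (str_b _ _ _), mem_sup_left ha,
      mem_sup_left hb]
  have hfig : Fig (⟨a2, ha⟩ : ↥(j.range ⊔ PB a2 b2 (j t2))) ⟨b2, hb⟩ ⟨_, hj t2⟩ :=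
    ⟨Subtype.ext h.f2.1, Subtype.ext h.f2.2⟩
  obtain ⟨F, k0, k1, k2, k3, k4⟩ := h.up H (f.comp (j.codRestrict _ hj)) a' b' _ _ h1
    ((congrArg f (Subtype.ext h.e1)).trans h2) (hfig.map f) (by
      rw [← map_inv, ← map_inv, ← map_mul, ← map_mul, ← map_mul]
      exact congrArg f (Subtype.ext h.e2))
  refine ⟨F, str_ext (S := Set.range j ∪ {a2, b2, j t2}) (by
    rw [Subgroup.closure_union, ← MonoidHom.coe_range, Subgroup.closure_eq]; rfl) F f ?_, k1, k2⟩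
  rintro _ (⟨g, rfl⟩ | rfl | rfl | rfl) _
  exacts [k0 g, k3, k4, k0 t2]

theorem str_push {B : Type} [Group B] {t l : L} {t' l' : B} (hc : Commute t l)
    (hc' : Commute t' l') (h : ∀ i k : ℤ, t ^ i * l ^ k = 1 → i = 0 ∧ k = 0)
    (h' : ∀ i k : ℤ, t' ^ i * l' ^ k = 1 → i = 0 ∧ k = 0) :
    ∃ (H : Type) (_ : Group H) (u : L →* H) (v : B →* H), Function.Injective u ∧
      Function.Injective v ∧ u t = v t' ∧ u l = v l' := by
  have key : ∀ (M : Type) [Group M] (t l : M), Commute t l →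
      (∀ i k : ℤ, t ^ i * l ^ k = 1 → i = 0 ∧ k = 0) →
      ∃ i : Multiplicative ℤ × Multiplicative ℤ →* M, Function.Injective i ∧
        i (.ofAdd 1, 1) = t ∧ i (1, .ofAdd 1) = l := fun M _ t l hc h =>
    ⟨(zpowersHom M t).noncommCoprod (zpowersHom M l) fun _ _ => hc.zpow_zpow _ _,
      (injective_iff_map_eq_one _).2 fun x hx => Prod.ext (h _ _ hx).1 (h _ _ hx).2,
      by simp, by simp⟩
  obtain ⟨i, hi, i1, i2⟩ := key L t l hc h
  obtain ⟨i', hi', i1', i2'⟩ := key B t' l' hc' h'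
  let φ : ∀ b, Multiplicative ℤ × Multiplicative ℤ →* Fam L B b := fun b => match b with
    | false => i
    | true => i'
  have hφ : ∀ b, Function.Injective (φ b) := fun b => by cases b; exacts [hi, hi']
  have e := fun c => (Monoid.PushoutI.of_apply_eq_base φ false c).trans
    (Monoid.PushoutI.of_apply_eq_base φ true c).symm
  exact ⟨Monoid.PushoutI φ, inferInstance, Monoid.PushoutI.of (φ := φ) false,
    Monoid.PushoutI.of (φ := φ) true, Monoid.PushoutI.of_injective hφ false,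
    Monoid.PushoutI.of_injective hφ true, i1 ▸ i1' ▸ e _, i2 ▸ i2' ▸ e _⟩

theorem StrC.inj (h : StrC t1 l1 t2 l2 j a1 b1 a2 b2) (c1 : Commute t1 l1) (c2 : Commute t2 l2)
    (h1 : ∀ i k : ℤ, t1 ^ i * l1 ^ k = 1 → i = 0 ∧ k = 0)
    (h2 : ∀ i k : ℤ, t2 ^ i * l2 ^ k = 1 → i = 0 ∧ k = 0) :
    Function.Injective j ∧ Mal (PB a1 b1 (j t1)) (PC a1 b1 (j t1)) := by
  obtain ⟨B, _, a, b, t, hf, hg, hm, hi, hu⟩ := exists_model
  obtain ⟨H, _, u, v, iu, iv, ut, ul⟩ := str_push c1 hf.comm h1 hi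
  obtain ⟨H', _, u', v', iu', -, ut', ul'⟩ := str_push (c2.map u) hf.comm (fun i k e => h2 i k
    (iu (by rw [map_mul, map_zpow, map_zpow, e, map_one]))) hi
  obtain ⟨F, k0, k1, k2, -⟩ := h.up H' (u'.comp u) (u' (v a)) (u' (v b)) (v' a) (v' b)
    (by rw [MonoidHom.comp_apply, ut]; exact (hf.map v).map u')
    (by simp only [MonoidHom.comp_apply, ul, map_mul, map_inv])
    (by rw [MonoidHom.comp_apply, ut']; exact hf.map v')
    (by simp only [MonoidHom.comp_apply, ul', map_mul, map_inv])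
  obtain ⟨β, ba, bb, bt⟩ := hu G a1 b1 _ h.f1
  have e : F.comp β = u'.comp v := MonoidHom.eq_of_eqOn_dense hg (by
    rintro _ (rfl | rfl | rfl) <;> simp [ba, bb, bt, k0, k1, k2, ut])
  have iβ : Function.Injective β := fun x y hxy => iv (iu' (by
    rw [← MonoidHom.comp_apply, ← MonoidHom.comp_apply, ← e, MonoidHom.comp_apply,
      MonoidHom.comp_apply, hxy]))
  have eB : PB a1 b1 (j t1) = (PB a b t).map β := by
    simp [PB, MonoidHom.map_closure, Set.image_insert_eq, ba, bb, bt]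
  have eC : PC a1 b1 (j t1) = (PC a b t).map β := by
    simp [PC, MonoidHom.map_closure, Set.image_insert_eq, ba, bb, bt]
  refine ⟨fun x y hxy => iu (iu' ((k0 x).symm.trans ((congrArg F hxy).trans (k0 y)))), ?_⟩
  rw [eB, eC]
  rintro _ ⟨g, -, rfl⟩ _ ⟨c, hc, rfl⟩ hc1 ⟨c', hc', e'⟩
  refine ⟨g, hm g trivial c hc (fun e => hc1 (by rw [e, map_one])) ?_, rfl⟩
  rwa [← iβ (e'.trans (by simp only [map_mul, map_inv]) : β c' = β (g * c * g⁻¹))]

theorem str_ind {t l : L} (φ ψ : L →* Multiplicative ℤ) (h1 : val φ t ≠ 0) (h2 : val φ l = 0)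
    (h3 : val ψ l ≠ 0) (i k : ℤ) (h : t ^ i * l ^ k = 1) : i = 0 ∧ k = 0 := by
  obtain rfl : i = 0 := by simpa [h1, h2] using congrArg (val φ) h
  exact ⟨rfl, by simpa [h3] using congrArg (val ψ) h⟩

theorem str_fig {N : Subgroup G} [hN : N.Normal] {a b t : G} (h : Fig a b t) (ht : t ∈ N) :
    a ∈ N ∧ b ∈ N := by
  have hb : b ∈ N := by
    have : b = a⁻¹ * t * a⁻¹⁻¹ * t⁻¹ := by
      calc b = a⁻¹ * (a * b) := by group
        _ = _ := by rw [← h.1]; group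
    exact this ▸ mul_mem (hN.conj_mem _ ht _) (inv_mem ht)
  have : a = b⁻¹ * (t * b * t⁻¹) * b⁻¹ := by rw [h.2]; group
  exact ⟨this ▸ mul_mem (mul_mem (inv_mem hb) (hN.conj_mem _ hb _)) (inv_mem hb), hb⟩

end Aux

namespace TD

variable (S : TD R m)

/-! row STR1: abelian invariants, pieces -/

theorem str : StrC (S.a⁻¹ * S.x) S.l1 (S.x⁻¹ * S.c) S.l2 S.j S.a1 S.b1 S.a2 S.b2 :=
  ⟨S.ch.f1, S.ch.f2, S.ch.e1, S.ch.e2, S.ch.gen, S.ch.up⟩

theorem ngen : normalClosure {S.a, w1 S.s S.a S.x S.l1, w2 S.s S.x S.c S.l2} = ⊤ := by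
  obtain ⟨π, hs, hk, ha, -⟩ := S.lk.pi
  refine (eq_top_iff' _).2 fun g => ?_
  have h1 : π g ∈ (normalClosure {S.a}).map π := by
    rw [map_normalClosure _ π hs, Set.image_singleton, ha, S.kn.normal]
    trivial
  obtain ⟨n, hn, e⟩ := h1
  have h2 : n⁻¹ * g ∈ π.ker := by simp [e]
  rw [hk] at h2
  simpa using mul_mem (normalClosure_mono (by simp) hn)
    (normalClosure_mono (Set.subset_insert _ _) h2)

theorem mer_c : IsConj S.c S.a :=
  isConj_iff.2 ⟨(w1 S.s S.a S.x S.l1)⁻¹ * w2 S.s S.x S.c S.l2, by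
    calc _ = (w1 S.s S.a S.x S.l1)⁻¹ * (w2 S.s S.x S.c S.l2 * S.c * (w2 S.s S.x S.c S.l2)⁻¹) *
          w1 S.s S.a S.x S.l1 := by group
      _ = _ := by rw [← S.lk.rel]; group⟩

/-- the abelianisation of the child -/
theorem phi : ∃ φ : G →* Multiplicative ℤ, val φ (S.j S.a) = 1 ∧ val φ (S.j S.x) = -1 ∧
    val φ (S.j S.c) = 1 := by
  obtain ⟨π, -, -, ha, hx, -⟩ := S.lk.pi
  obtain ⟨ψ1, ψ2, p1, p2, p3, q1, q2, q3⟩ := S.lk.psi
  obtain ⟨φ, hφ⟩ := S.good.phi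
  let f := φ.comp π * ψ1 ^ (-val φ (π S.l1)) * ψ2 ^ (-val φ (π S.l2))
  have hf : ∀ g, val f g =
      val φ (π g) - val φ (π S.l1) * val ψ1 g - val φ (π S.l2) * val ψ2 g := fun g => by
    simp only [f, val, MonoidHom.mul_apply, MonoidHom.zpow_apply, MonoidHom.comp_apply, toAdd_mul,
      toAdd_zpow, smul_eq_mul]
    ring
  have h1 : ∀ g, val f g = 0 → f g = 1 * 1 * 1⁻¹ * 1⁻¹ := fun g h => h
  have h2 : ∀ t : Multiplicative ℤ, Fig 1 1 t := fun t => ⟨by simp, by simp⟩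
  obtain ⟨F, k, -⟩ := S.ch.up _ f 1 1 1 1 (h2 _) (h1 _ (by rw [hf, p2, q2]; ring)) (h2 _)
    (h1 _ (by rw [hf, p3, q3]; ring))
  have hF : ∀ g, val F (S.j g) = val f g := fun g => congrArg Multiplicative.toAdd (k g)
  have ea : val f S.a = 1 := by rw [hf, ha, hφ, p1, q1]; ring
  refine ⟨F, (hF _).trans ea, ?_, (hF _).trans ((val_conj f S.mer_c).trans ea)⟩
  have e1 := S.lk.mx.val_eq ψ1
  have e2 := S.lk.mx.val_eq ψ2
  have e3 := val_conj φ hx
  rw [p1, neg_zero, or_self] at e1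
  rw [q1, neg_zero, or_self] at e2
  rw [val_inv, hφ] at e3
  rw [hF, hf, e1, e2]
  omega

include S in
theorem normal : normalClosure {m} = ⊤ := by
  have hm : m ∈ normalClosure ({m} : Set G) := subset_normalClosure rfl
  generalize hN : normalClosure ({m} : Set G) = N at hm
  have : N.Normal := hN ▸ normalClosure_normal
  have ha : S.a ∈ N.comap S.j := by
    rcases S.hm with h | h <;> rw [mem_comap, h]
    exacts [hm, inv_mem hm]
  have hc : ∀ z, Mer S.a z → z ∈ N.comap S.j := fun z hz => by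
    obtain ⟨g, rfl | rfl⟩ := hz.conj
    exacts [Normal.conj_mem inferInstance _ ha g, Normal.conj_mem inferInstance _ (inv_mem ha) g]
  have t1 := mul_mem (inv_mem ha) (hc _ S.lk.mx)
  have t2 := mul_mem (inv_mem (hc _ S.lk.mx)) (hc _ (Or.inl S.mer_c))
  obtain ⟨a1, b1⟩ := str_fig S.ch.f1 t1
  obtain ⟨a2, b2⟩ := str_fig S.ch.f2 t2
  have l1 : S.l1 ∈ N.comap S.j := by
    rw [mem_comap, S.ch.e1]
    exact mul_mem (mul_mem (mul_mem b1 a1) (inv_mem b1)) (inv_mem a1)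
  have l2 : S.l2 ∈ N.comap S.j := by
    rw [mem_comap, S.ch.e2]
    exact mul_mem (mul_mem (mul_mem b2 a2) (inv_mem b2)) (inv_mem a2)
  have hj : ⊤ ≤ N.comap S.j := S.ngen.ge.trans (normalClosure_le_normal (by
    rintro _ (rfl | rfl | rfl)
    exacts [ha, mul_mem (pow_mem t1 _) l1, mul_mem (inv_mem (pow_mem t2 _)) l2]))
  refine eq_top_iff.2 (S.ch.gen.ge.trans (sup_le ?_ ((closure_le _).2 ?_)))
  · rintro _ ⟨g, rfl⟩
    exact hj trivial
  · rintro _ (rfl | rfl | rfl | rfl)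
    exacts [a1, b1, a2, b2]

theorem piece1 : Piece S.A1 S.a1 S.b1 S.t1 := S.str.piece

theorem piece2 : Piece S.A2 S.a2 S.b2 S.t2 := S.str.symm.piece

/-! row STR2: injectivity and malnormality (two pushouts with the model group) -/

theorem inj_mal : Function.Injective S.j ∧ Mal S.B1 S.C1 ∧ Mal S.B2 S.C2 := by
  obtain ⟨φ, h1, h2, h3⟩ := S.phi
  obtain ⟨ψ1, ψ2, -, p2, -, -, -, q3⟩ := S.lk.psi
  have e : ∀ g, val (φ.comp S.j) g = val φ (S.j g) := fun _ => rfl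
  have i1 := str_ind (t := S.a⁻¹ * S.x) (l := S.l1) (φ.comp S.j) ψ1
    (by rw [val_mul, val_inv, e, e]; omega) (by rw [e, S.ch.e1]; simp) (by omega)
  have i2 := str_ind (t := S.x⁻¹ * S.c) (l := S.l2) (φ.comp S.j) ψ2
    (by rw [val_mul, val_inv, e, e]; omega) (by rw [e, S.ch.e2]; simp) (by omega)
  exact ⟨(S.str.inj S.lk.c1 S.lk.c2 i1 i2).1, (S.str.inj S.lk.c1 S.lk.c2 i1 i2).2,
    (S.str.symm.inj S.lk.c2 S.lk.c1 i2 i1).2⟩

theorem am1 : Am S.A1 S.B1 S.C1 := str_am S.piece1 S.inj_mal.2.1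

theorem am2 : Am S.A2 S.B2 S.C2 := str_am S.piece2 S.inj_mal.2.2

theorem int {g : G} (h1 : g ∈ S.A1) (h2 : g ∈ S.A2) : g ∈ S.j.range :=
  S.am1.int le_sup_left (str_le ⟨_, rfl⟩ ⟨_, S.ch.e1⟩) h2 h1

/-- transport along an isomorphism of marked groups -/
theorem iso {G' : Type} [Group G'] {m' : G'} (h : MIso m m') :
    ∃ S' : TD R m', S'.s = S.s ∧ MIso S'.mK S.mK := by
  obtain ⟨e0, he⟩ := h
  obtain ⟨e, he⟩ : ∃ e : G ≃* G', e m = m' ∨ e m = m'⁻¹ := by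
    obtain ⟨g, hg⟩ := he.conj
    refine ⟨e0.trans (MulAut.conj g⁻¹), hg.imp (fun h => ?_) fun h => ?_⟩ <;>
      simp [h, mul_assoc]
  let E := e.toMonoidHom
  refine ⟨{ S with
    j := E.comp S.j, a1 := E S.a1, b1 := E S.b1, a2 := E S.a2, b2 := E S.b2
    ch := ⟨S.ch.f1.map E, S.ch.f2.map E, ?_, ?_, ?_, fun H _ f a b a' b' h1 h2 h3 h4 => ?_⟩
    hm := ?_ }, rfl, MIso.rfl' _⟩
  · simp only [MonoidHom.comp_apply, S.ch.e1, map_mul, map_inv]
  · simp only [MonoidHom.comp_apply, S.ch.e2, map_mul, map_inv]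
  · have := congrArg (Subgroup.map E) S.ch.gen
    rw [Subgroup.map_sup, MonoidHom.map_closure, map_top_of_surjective _ e.surjective,
      MonoidHom.map_range] at this
    simpa only [Set.image_insert_eq, Set.image_singleton] using this
  · obtain ⟨F, k0, k1, k2, k3, k4⟩ := S.ch.up H f a b a' b' h1 h2 h3 h4
    have k : ∀ g, F.comp e.symm.toMonoidHom (E g) = F g := fun g =>
      congrArg F (e.symm_apply_apply g)
    exact ⟨F.comp e.symm.toMonoidHom, fun g => (k _).trans (k0 g), (k _).trans k1, (k _).trans k2,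
      (k _).trans k3, (k _).trans k4⟩
  · change e (S.j S.a) = m' ∨ e (S.j S.a) = m'⁻¹
    rcases S.hm with h | h <;> rcases he with he | he <;> simp [h, he]

end TD

/-! row STR3: pieces in amalgams -/

/-- a piece is elliptic in the tree of any other piece -/
theorem piece_ell {A A' : Subgroup G} {a b t a' b' t' : G} (h : Piece A a b t)
    (h' : Piece A' a' b' t') (φ : G →* Multiplicative ℤ) (ht : val φ t = 2 ∨ val φ t = -2)
    (ht' : val φ t' = 2 ∨ val φ t' = -2) : Into (PB a b t) A' ∨ Into (PB a b t) (PB a' b' t') := by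
  obtain ⟨δ, hδ, -, ha, hb, hab⟩ := h.delta φ ht
  obtain ⟨V, T, u, v, hT⟩ := h'.tree
  obtain ⟨w, w1, w2, w3⟩ := hδ.fix h.fig ha hb hab T u fun p p' hp => by
    obtain ⟨g, hg⟩ := hT.edge p p' hp
    refine ⟨g * (b' * a' * b'⁻¹ * a'⁻¹) * g⁻¹, by simp, fun s hs e1 e2 => ?_⟩
    obtain ⟨n, hn⟩ := mem_zpowers_iff.1
      (mem_lam h'.fig.comm φ (by omega) (by simp) (hg s e1 e2) (by simp [hs]))
    exact mem_zpowers_iff.2 ⟨n, by rw [conj_zpow, hn]; group⟩
  obtain ⟨g, hg⟩ := hT.vert (PB a b t) w fun s hs => by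
    induction hs using closure_induction with
    | mem x hx =>
      rcases hx with rfl | rfl | rfl
      exacts [w1, w2, w3]
    | one => exact T.one w
    | mul x y _ _ h1 h2 => rw [T.mul, h2, h1]
    | inv x _ h1 => exact T.fix_inv h1
  exact hg.imp (fun h => ⟨g, h⟩) fun h => ⟨g, h⟩

/-- a piece is not conjugate into its complement -/
theorem piece_not {A : Subgroup G} {a b t : G} (h : Piece A a b t) (φ : G →* Multiplicative ℤ)
    (ht : val φ t = 2 ∨ val φ t = -2) : ¬ Into (PB a b t) A := by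
  obtain ⟨δ, hδ, h0, ha, -⟩ := h.delta φ ht
  rintro ⟨g, hg⟩
  have := hδ.conj (by simp [(h.fig.val0 φ).1]) (h0 _ (hg a (str_a a b t))) g
  exact ha (by simpa only [mul_assoc, mul_inv_cancel_left, mul_inv_cancel, mul_one] using this)

theorem piece_even {a b t : G} (h : Fig a b t) (φ : G →* Multiplicative ℤ)
    (ht : val φ t = 2 ∨ val φ t = -2) {g : G} (hg : g ∈ PB a b t) : 2 ∣ val φ g := by
  obtain ⟨va, vb⟩ := h.val0 φ
  induction hg using closure_induction with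
  | mem x hx => rcases hx with rfl | rfl | rfl <;> omega
  | one => simp
  | mul x y _ _ h1 h2 => exact val_mul φ x y ▸ dvd_add h1 h2
  | inv x _ h1 => exact val_inv φ x ▸ h1.neg_right

theorem mem_PC {a b t g : G} (h : Fig a b t) (hg : g ∈ PC a b t) :
    ∃ i k : ℤ, g = t ^ i * (b * a * b⁻¹ * a⁻¹) ^ k := by
  induction hg using closure_induction with
  | mem x hx =>
    rcases hx with rfl | rfl
    exacts [⟨1, 0, by simp⟩, ⟨0, 1, by simp⟩]
  | one => exact ⟨0, 0, by simp⟩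
  | mul x y _ _ h1 h2 =>
    obtain ⟨i, j, rfl⟩ := h1
    obtain ⟨i', j', rfl⟩ := h2
    exact ⟨i + i', j + j', by
      rw [zpow_add, zpow_add, (h.comm.zpow_zpow i' j).mul_mul_mul_comm]⟩
  | inv x _ h1 =>
    obtain ⟨i, j, rfl⟩ := h1
    exact ⟨-i, -j, by rw [mul_inv_rev, ← zpow_neg, ← zpow_neg, (h.comm.zpow_zpow _ _).eq]⟩

end Pool.Agent.MP_b13154_gt.H69
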