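import Pool.Agent.MP_b13154_gt.H69.Defs

namespace Pool.Agent.MP_b13154_gt.H69

open Pool.Agent.MP_b13154_gt.H25 Subgroup

variable {G : Type} [Group G] {A B C : Subgroup G}

/-- row TREE: an edge separating two points of the orbit of the base edge is a translate of it -/
theorem sepEdge {V : Type} {T : ZT G V} {u v : V} (hT : BS A B C T u v) (hg : A ⊔ B = ⊤)
    {p q y y' : V} (hpq : T.d p q = 1) (hy : ∃ g, y = T.a g u ∨ y = T.a g v)
    (hy' : ∃ g, y' = T.a g u ∨ y' = T.a g v) (h1 : T.d y p < T.d y q) (h2 : T.d y' q < T.d y' p) :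
    ∃ g, (p = T.a g u ∧ q = T.a g v) ∨ (p = T.a g v ∧ q = T.a g u) := by
  by_contra hn
  have hne : ∀ z, T.d z p ≠ T.d z q := fun z => by
    have := T.par z p q
    omega
  have e1 : ∀ g, T.d (T.a g u) p < T.d (T.a g u) q ↔ T.d (T.a g v) p < T.d (T.a g v) q := by
    intro g
    have i1 := (T.inv g u v).trans hT.adj
    have n1 := hne (T.a g u)
    have n2 := hne (T.a g v)
    by_contra hc
    by_cases h : T.d (T.a g u) p < T.d (T.a g u) q
    · have := T.sep hpq h (w := T.a g v) (by omega)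
      exact hn ⟨g, Or.inl ⟨(T.eq_of _ _ (by omega)).symm, T.eq_of _ _ (by omega)⟩⟩
    · have := T.sep hpq (y := T.a g v) (w := T.a g u) (by omega) (by omega)
      have c := T.comm (T.a g u) (T.a g v)
      exact hn ⟨g, Or.inr ⟨(T.eq_of _ _ (by omega)).symm, T.eq_of _ _ (by omega)⟩⟩
  have e2 : ∀ g k, T.d (T.a k u) p < T.d (T.a k u) q ↔
      T.d (T.a (k * g) u) p < T.d (T.a (k * g) u) q := by
    intro g
    induction g using sup_ind hg with
    | hA a ha => intro k; rw [T.mul, (hT.su a).2 ha]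
    | hB b hb => intro k; rw [e1 k, e1 (k * b), T.mul, (hT.sv b).2 hb]
    | hm x y h1 h2 => intro k; rw [← mul_assoc]; exact (h1 k).trans (h2 _)
  have e3 : ∀ z, (∃ g, z = T.a g u ∨ z = T.a g v) →
      (T.d (T.a 1 u) p < T.d (T.a 1 u) q ↔ T.d z p < T.d z q) := by
    rintro z ⟨g, rfl | rfl⟩
    · simpa only [one_mul] using e2 g 1
    · rw [← e1 g]; simpa only [one_mul] using e2 g 1
  have := (e3 y' hy').1 ((e3 y hy).2 h1)
  omega

section

variable {V : Type} {T : ZT G V} {u v : V}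

theorem tree_ne (hT : BS A B C T u v) (g k : G) : T.a g u ≠ T.a k v := fun h =>
  hT.ne (k⁻¹ * g) (by rw [T.mul, h, T.inv_a])

theorem tree_su (hT : BS A B C T u v) {s k : G} :
    T.a s (T.a k u) = T.a k u ↔ k⁻¹ * s * k ∈ A := by
  rw [← hT.su, T.mul, T.mul]
  exact ⟨fun h => by rw [h, T.inv_a], fun h => by
    have := congrArg (T.a k) h
    rwa [T.a_inv] at this⟩

theorem tree_sv (hT : BS A B C T u v) {s k : G} :
    T.a s (T.a k v) = T.a k v ↔ k⁻¹ * s * k ∈ B := by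
  rw [← hT.sv, T.mul, T.mul]
  exact ⟨fun h => by rw [h, T.inv_a], fun h => by
    have := congrArg (T.a k) h
    rwa [T.a_inv] at this⟩

/-- a nontrivial element fixes at most one orbit edge at a vertex of the second kind -/
theorem tree_mal (h : Am A B C) (hT : BS A B C T u v) {s k k' : G} (hs : s ≠ 1)
    (h1 : T.a s (T.a k u) = T.a k u) (h2 : T.a s (T.a k' u) = T.a k' u)
    (h3 : T.a s (T.a k v) = T.a k v) (h4 : T.a k' v = T.a k v) : T.a k' u = T.a k u := by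
  have hb : k⁻¹ * k' ∈ B := (hT.sv _).1 (by rw [T.mul, h4, T.inv_a])
  have c1 : k⁻¹ * s * k ∈ C := hT.inter _ ((tree_su hT).1 h1) ((tree_sv hT).1 h3)
  have c2 : k'⁻¹ * s * k' ∈ C := hT.inter _ ((tree_su hT).1 h2) ((tree_sv hT).1 (by rw [h4, h3]))
  have hc : k⁻¹ * k' ∈ C := h.mal _ hb _ c2
    (fun e => hs (by
      calc s = k' * (k'⁻¹ * s * k') * k'⁻¹ := by group
        _ = 1 := by rw [e]; group))
    (by rwa [show k⁻¹ * k' * (k'⁻¹ * s * k') * (k⁻¹ * k')⁻¹ = k⁻¹ * s * k by group])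
  have := congrArg (T.a k) ((hT.su _).2 (h.cA hc))
  rwa [T.mul, T.a_inv] at this

/-- the first edge on the way from `u` to another point of the orbit -/
theorem tree_first (hT : BS A B C T u v) (hg : A ⊔ B = ⊤) {w : V}
    (hw : ∃ g, w = T.a g u ∨ w = T.a g v) (hne : u ≠ w) :
    ∃ k, T.a k u = u ∧ T.d u (T.a k v) = 1 ∧ T.d (T.a k v) w + 1 = T.d u w := by
  obtain ⟨z, e1, e2⟩ := T.step u w hne
  have c1 := T.comm w z
  have c2 := T.comm w u
  obtain ⟨k, ⟨f1, rfl⟩ | ⟨f1, -⟩⟩ := sepEdge hT hg e1 ⟨1, Or.inl (T.one u).symm⟩ hw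
    (by rw [T.d_self]; omega) (by omega)
  · exact ⟨k, f1.symm, e1, e2⟩
  · exact absurd ((T.one u).trans f1) (tree_ne hT _ _)

/-- the next edge, at a vertex of the second kind -/
theorem tree_second (hT : BS A B C T u v) (hg : A ⊔ B = ⊤) {w : V} (k : G)
    (hw : ∃ g, w = T.a g u ∨ w = T.a g v) (hne : T.a k v ≠ w) :
    ∃ k', T.a k' v = T.a k v ∧ T.d (T.a k v) (T.a k' u) = 1 ∧
      T.d (T.a k' u) w + 1 = T.d (T.a k v) w := by
  obtain ⟨z, e1, e2⟩ := T.step _ w hne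
  have c1 := T.comm w z
  have c2 := T.comm w (T.a k v)
  obtain ⟨k', ⟨f1, -⟩ | ⟨f1, rfl⟩⟩ := sepEdge hT hg e1 ⟨k, Or.inr rfl⟩ hw
    (by rw [T.d_self]; omega) (by omega)
  · exact absurd f1.symm (tree_ne hT _ _)
  · exact ⟨k', f1.symm, e1, e2⟩

theorem tree_two (h : Am A B C) (hT : BS A B C T u v) {s : G} (hs : s ≠ 1) (h1 : T.a s u = u)
    {w : V} (hw : ∃ g, w = T.a g u ∨ w = T.a g v) (h2 : T.a s w = w) :
    u = w ∨ ∃ k ∈ A, T.a k v = w := by
  by_cases hne : u = w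
  · exact Or.inl hne
  obtain ⟨k, e1, e2, e3⟩ := tree_first hT h.gen hw hne
  by_cases hne' : T.a k v = w
  · exact Or.inr ⟨k, (hT.su k).1 e1, hne'⟩
  obtain ⟨k', f1, f2, f3⟩ := tree_second hT h.gen k hw hne'
  have s1 := T.fix_tow e2 e3 h1 h2
  have s2 := T.fix_tow f2 f3 s1 h2
  have := tree_mal h hT hs (k := k) (k' := k') (by rw [e1, h1]) s2 s1 f1
  rw [this, e1] at f3
  omega

theorem tree_ping {p q w : V} (hp : T.d p q = 1) {a : G} (h1 : T.a a p = p) (h2 : T.a a q ≠ q)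
    (hw : T.d w q < T.d w p) : T.d (T.a a w) p < T.d (T.a a w) q := by
  have i1 : T.d p (T.a a q) = 1 := by rw [← hp, ← T.inv a p q, h1]
  have i2 : T.d (T.a a q) (T.a a w) = T.d q w := T.inv _ _ _
  have i3 : T.d p (T.a a w) = T.d p w := by rw [← T.inv a p w, h1]
  have a1 := T.adj hp w
  have a2 := T.adj hp (T.a a w)
  have c1 := T.comm w q
  have c2 := T.comm w p
  have c3 := T.comm (T.a a w) p
  have c4 := T.comm (T.a a w) q
  by_contra hc
  exact h2 (T.uniq i1 (x := T.a a w) (by omega) hp (by omega))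

end

theorem Am.inter (h : Am A B C) {s : G} (h1 : s ∈ A) (h2 : s ∈ B) : s ∈ C := by
  obtain ⟨V, T, u, v, hT⟩ := exists_BS h.gen h.cA h.cB h.up
  exact hT.inter s h1 h2

theorem Am.M2 (h : Am A B C) {s g : G} (hs : s ≠ 1) (h1 : s ∈ A) (h2 : g⁻¹ * s * g ∈ A) :
    g ∈ A := by
  obtain ⟨V, T, u, v, hT⟩ := exists_BS h.gen h.cA h.cB h.up
  rcases tree_two h hT hs ((hT.su s).2 h1) ⟨g, Or.inl rfl⟩ ((tree_su hT).2 h2) with
    e | ⟨k, -, e⟩
  · exact (hT.su g).1 e.symm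
  · exact absurd e.symm (tree_ne hT _ _)

theorem Am.M3 (h : Am A B C) {s g : G} (hs : s ≠ 1) (h1 : s ∈ A) (h2 : g⁻¹ * s * g ∈ B) :
    ∃ a ∈ A, a⁻¹ * g ∈ B := by
  obtain ⟨V, T, u, v, hT⟩ := exists_BS h.gen h.cA h.cB h.up
  rcases tree_two h hT hs ((hT.su s).2 h1) ⟨g, Or.inr rfl⟩ ((tree_sv hT).2 h2) with
    e | ⟨k, hk, e⟩
  · exact absurd ((T.one u).trans e) (tree_ne hT _ _)
  · exact ⟨k, hk, (hT.sv _).1 (by rw [T.mul, ← e, T.inv_a])⟩

/-- Serre's lemma in the amalgam -/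
theorem Am.serre (h : Am A B C) {x y : G} (hx : x ∈ A) (hx' : ∀ g, g⁻¹ * x * g ∉ B)
    (hy : ∃ g, g⁻¹ * y * g ∈ A ∨ g⁻¹ * y * g ∈ B)
    (hxy : ∃ g, g⁻¹ * (x * y) * g ∈ A ∨ g⁻¹ * (x * y) * g ∈ B) : y ∈ A := by
  obtain ⟨V, T, u, v, hT⟩ := exists_BS h.gen h.cA h.cB h.up
  have ell : ∀ z : G, (∃ g, g⁻¹ * z * g ∈ A ∨ g⁻¹ * z * g ∈ B) → ∃ w, T.a z w = w := by
    rintro z ⟨g, e | e⟩
    exacts [⟨_, (tree_su hT).2 e⟩, ⟨_, (tree_sv hT).2 e⟩]
  obtain ⟨q, hq⟩ := ell y hy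
  obtain ⟨w, hw⟩ := ell _ hxy
  have hu := (hT.su x).2 hx
  by_cases e : u = q
  · exact (hT.su y).1 (e ▸ hq)
  obtain ⟨p', h1, h2⟩ := T.step u q e
  refine (hT.su y).1 (T.S3 hu hq h1 h2 (fun e' => ?_) hw)
  obtain ⟨g, hg⟩ := hT.edge u p' h1
  exact hx' g (h.cB (hg x hu e'))

/-- the subgroup generated by `A₀ ≤ A` and `B` meets `A` in `A₀` -/
theorem Am.int (h : Am A B C) {A₀ : Subgroup G} (h1 : A₀ ≤ A) (h2 : C ≤ A₀) {g : G}
    (hg : g ∈ A₀ ⊔ B) (hA : g ∈ A) : g ∈ A₀ := by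
  obtain ⟨V, T, u, v, hT⟩ := exists_BS h.gen h.cA h.cB h.up
  have huv := hT.adj
  have hvu : T.d v u = 1 := by rwa [T.comm]
  have pp : ∀ b g k, NF (1 : A₀ →* Unit) (1 : B →* Unit) b g k →
      (b = true → T.d (T.a g u) u < T.d (T.a g u) v) ∧
      (b = false → g ∈ A₀ ∨ T.d (T.a g u) v < T.d (T.a g u) u) := by
    intro b g k hn
    induction hn with
    | base b c hP hQ =>
      refine ⟨fun _ => ?_, fun _ => Or.inl hP⟩
      rw [(hT.su c).2 (h1 hP), T.d_self]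
      omega
    | sP a ha hn g k _ ih =>
      refine ⟨fun _ => ?_, fun e => absurd e (by simp)⟩
      rcases ih.2 rfl with e | e
      · rw [(hT.su _).2 (h1 (A₀.mul_mem ha e)), T.d_self]
        omega
      · rw [T.mul]
        exact tree_ping huv ((hT.su a).2 (h1 ha)) (fun e' => hn ((hT.sv a).1 e')) e
    | sQ a ha hn g k _ ih =>
      refine ⟨fun e => absurd e (by simp), fun _ => Or.inr ?_⟩
      rw [T.mul]
      exact tree_ping hvu ((hT.sv a).2 ha)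
        (fun e' => hn (h2 (hT.inter a ((hT.su a).1 e') ha))) (ih.1 rfl)
  have pf : ∀ g k, NF (1 : A₀ →* Unit) (1 : B →* Unit) false g k → g ∈ A → g ∈ A₀ := by
    intro g k hn hA
    rcases (pp _ _ _ hn).2 rfl with e | e
    · exact e
    · rw [(hT.su g).2 hA, T.d_self] at e
      omega
  have hf : ∀ (x : G) (hP : x ∈ A₀) (hQ : x ∈ B),
      (1 : A₀ →* Unit) ⟨x, hP⟩ = (1 : B →* Unit) ⟨x, hQ⟩ := fun _ _ _ => rfl
  have ex : ∀ g ∈ closure ((A₀ : Set G) ∪ B), ∀ b g' k,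
      NF (1 : A₀ →* Unit) (1 : B →* Unit) b g' k →
      ∃ b k, NF (1 : A₀ →* Unit) (1 : B →* Unit) b (g * g') k := by
    intro g hg
    induction hg using closure_induction'' with
    | mem x hx =>
      intro b g' k hn
      rcases hx with hx | hx
      · obtain ⟨b, e⟩ := hn.mulP hf hx
        exact ⟨b, _, e⟩
      · obtain ⟨b, e⟩ := hn.mulQ hf hx
        exact ⟨b, _, e⟩
    | inv_mem x hx =>
      intro b g' k hn
      rcases hx with hx | hx
      · obtain ⟨b, e⟩ := hn.mulP hf (A₀.inv_mem hx)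
        exact ⟨b, _, e⟩
      · obtain ⟨b, e⟩ := hn.mulQ hf (B.inv_mem hx)
        exact ⟨b, _, e⟩
    | one => intro b g' k hn; exact ⟨b, k, by rwa [one_mul]⟩
    | mul x y _ _ h1 h2 =>
      intro b g' k hn
      obtain ⟨b, k, e⟩ := h2 b g' k hn
      rw [mul_assoc]
      exact h1 b _ k e
  obtain ⟨b, k, e⟩ := ex g
    (by rwa [Subgroup.closure_union, Subgroup.closure_eq, Subgroup.closure_eq]) true 1 _
    (NF.base true 1 A₀.one_mem B.one_mem)
  rw [mul_one] at e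
  cases e with
  | base _ _ hP _ => exact hP
  | sP a ha hn g k hr => exact A₀.mul_mem ha (pf g k hr ((A.mul_mem_cancel_left (h1 ha)).1 hA))
  | sQ a ha hn g k hr => exact pf _ _ (NF.sQ a ha hn g k hr) hA

end Pool.Agent.MP_b13154_gt.H69
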